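import Pool.Agent.Lib.MP_1ef7cf_nt.Mg.G002
import Pool.Agent.Lib.MP_1ef7cf_nt.Contin2
import Pool.Agent.Lib.MP_1ef7cf_nt.Frob2
import Pool.Agent.Lib.MP_1ef7cf_nt_c.RayChar
import Pool.Agent.Lib.MP_1ef7cf_nt_c.Mg.G003

section

/-!
# Partial zeta functions of real quadratic fields: continuation and values at `0`
-/

open NumberField IsDedekindDomain nonZeroDivisors Module ComplexConjugate

namespace Pool.Agent.ST

section general

variable {K : Type*} [Field K] [NumberField K] {σ₂ : K →+* ℝ}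

lemma summable_idealsOf_c {m : Ideal (𝓞 K)} (A : RayClassGroup σ₂ m) {s : ℂ} (hs : 1 < s.re) :
    Summable (fun I : idealsOf σ₂ m A => ((Ideal.absNorm I.1 : ℕ) : ℂ) ^ (-s)) := by
  rw [← summable_norm_iff]
  refine (summable_idealsOf A hs).congr fun I => ?_
  have hpos : 0 < Ideal.absNorm I.1 := by
    rw [Nat.pos_iff_ne_zero, Ne, Ideal.absNorm_eq_zero_iff]
    exact idealsOf_ne_bot I.2
  rw [Complex.norm_natCast_cpow_of_pos hpos, Complex.neg_re]

lemma IsPartialZeta.hasSum {m : Ideal (𝓞 K)} {A : RayClassGroup σ₂ m} {Z : ℂ → ℂ}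
    (hZ : IsPartialZeta σ₂ m A Z) {s : ℂ} (hs : 1 < s.re) :
    HasSum (fun I : idealsOf σ₂ m A => ((Ideal.absNorm I.1 : ℕ) : ℂ) ^ (-s)) (Z s) := by
  rw [hZ.2 s hs]
  exact (summable_idealsOf_c A hs).hasSum

lemma preconn : IsPreconnected ({1}ᶜ : Set ℂ) :=
  (isConnected_compl_singleton_of_one_lt_rank (by simp) 1).isPreconnected

/-- identity theorem -/
lemma eq_of_eq_right {Z Z' : ℂ → ℂ} (h : AnalyticOnNhd ℂ Z {1}ᶜ) (h' : AnalyticOnNhd ℂ Z' {1}ᶜ)
    (heq : ∀ s : ℂ, 1 < s.re → Z s = Z' s) : Set.EqOn Z Z' {1}ᶜ := by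
  have h2 : (2 : ℂ) ∈ ({1}ᶜ : Set ℂ) := by simp
  apply h.eqOn_of_preconnected_of_eventuallyEq h' preconn h2
  have hopen : IsOpen {s : ℂ | 1 < s.re} := isOpen_lt continuous_const Complex.continuous_re
  filter_upwards [hopen.mem_nhds (show (2 : ℂ) ∈ {s : ℂ | 1 < s.re} by simp)] with s hs
  exact heq s hs

lemma deriv_eq_of_eqOn {Z Z' : ℂ → ℂ} (h : Set.EqOn Z Z' {1}ᶜ) : deriv Z 0 = deriv Z' 0 := by
  apply Filter.EventuallyEq.deriv_eq
  have h0 : (0 : ℂ) ∈ ({1}ᶜ : Set ℂ) := by simp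
  filter_upwards [isOpen_compl_singleton.mem_nhds h0] with s hs
  exact h hs

lemma IsPartialZeta.unique {m : Ideal (𝓞 K)} {A : RayClassGroup σ₂ m} {Z Z' : ℂ → ℂ}
    (hZ : IsPartialZeta σ₂ m A Z) (hZ' : IsPartialZeta σ₂ m A Z') : Set.EqOn Z Z' {1}ᶜ :=
  eq_of_eq_right hZ.1 hZ'.1 fun s hs => by rw [hZ.2 s hs, hZ'.2 s hs]

lemma conj_natCast_cpow (N : ℕ) (s : ℂ) :
    conj ((N : ℂ) ^ (-(conj s))) = (N : ℂ) ^ (-s) := by
  rw [← map_neg, Complex.cpow_conj _ _ (by rw [Complex.natCast_arg]; exact Real.pi_ne_zero.symm),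
    Complex.conj_natCast, Complex.conj_conj]

lemma IsPartialZeta.deriv_real {m : Ideal (𝓞 K)} {A : RayClassGroup σ₂ m} {Z : ℂ → ℂ}
    (hZ : IsPartialZeta σ₂ m A Z) : ((deriv Z 0).re : ℂ) = deriv Z 0 := by
  have hopen : IsOpen ({1}ᶜ : Set ℂ) := isOpen_compl_singleton
  have h1 : IsPartialZeta σ₂ m A (conj ∘ Z ∘ conj) := by
    refine ⟨?_, ?_⟩
    · apply DifferentiableOn.analyticOnNhd _ hopen
      intro s hs
      have hs' : conj s ∈ ({1}ᶜ : Set ℂ) := by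
        intro h
        apply hs
        rw [Set.mem_singleton_iff] at h ⊢
        rw [← Complex.conj_conj s, h, map_one]
      have h3 := ((hZ.1 _ hs').differentiableAt.conj_conj)
      rw [Complex.conj_conj] at h3
      exact h3.differentiableWithinAt
    · intro s hs
      have hs' : 1 < (conj s).re := by rwa [Complex.conj_re]
      have h2 := hZ.hasSum hs'
      have h3 := h2.map (starRingEnd ℂ) Complex.continuous_conj
      change (starRingEnd ℂ) (Z ((starRingEnd ℂ) s)) = _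
      rw [← h3.tsum_eq]
      refine tsum_congr fun I => ?_
      exact conj_natCast_cpow _ _
  have h2 := deriv_eq_of_eqOn (hZ.unique h1)
  rw [deriv_conj_conj] at h2
  simp only [Function.comp_apply, map_zero] at h2
  exact Complex.conj_eq_iff_re.1 h2.symm

/-- every class contains an integral ideal -/
lemma exists_integral_rep {m : Ideal (𝓞 K)} (hm : m ≠ ⊥) (A : RayClassGroup σ₂ m) :
    ∃ (b : Ideal (𝓞 K)) (B : primeTo (K := K) m), b ≠ ⊥ ∧ IsCoprime b m ∧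
      ((B : (FI K)ˣ) : FI K) = (b : FI K) ∧ cls σ₂ m B = A := by
  obtain ⟨J, rfl⟩ := cls_surjective m A
  obtain ⟨x, I, hx1, hx2, hI, hxI⟩ := exists_mul_integral (σ₂ := σ₂) hm J.2
  have hx0 : (x : K) ≠ 0 := coe_ne_zero' (ne_zero_of_pos hx2)
  have h3 : ((uP (x : K) hx0 * (J : (FI K)ˣ) : (FI K)ˣ) : FI K) = (I : FI K) := by
    rw [Units.val_mul, coe_uP, hxI]
  have hxm : uP (x : K) hx0 ∈ primeTo (K := K) m :=
    coe_mem_primeTo (I := Ideal.span {x}) (by rw [coe_uP, coe_span_singleton])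
      (coprime_span_of_sub_one_mem hx1)
  have h4 : uP (x : K) hx0 * (J : (FI K)ˣ) ∈ primeTo (K := K) m := (primeTo m).mul_mem hxm J.2
  refine ⟨I, ⟨_, h4⟩, hI, coprime_of_mem_primeTo h3 h4, h3, ?_⟩
  rw [cls_eq_iff]
  refine ⟨(x : K)⁻¹, (oneMod_of_sub_one_mem hx1).inv, ?_, ?_⟩
  · rw [map_inv₀]; exact inv_pos.2 hx2
  · simp only [mul_inv, inv_mul_cancel_right]
    rw [Units.val_inv_eq_inv_val, coe_uP, FractionalIdeal.spanSingleton_inv]

end general

section rq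

variable {K : Type*} [Field K] [NumberField K] [Algebra K ℝ] {σ₂ : K →+* ℝ}

/-- the class of a principal ideal `(z)`, `z` congruent to `1`, negative at `σ₂` -/
def IsC (σ₂ : K →+* ℝ) (m : Ideal (𝓞 K)) (c : RayClassGroup σ₂ m) : Prop :=
  ∃ (z : 𝓞 K) (C : primeTo (K := K) m), z - 1 ∈ m ∧ σ₂ (z : K) < 0 ∧
    ((C : (FI K)ˣ) : FI K) = ((Ideal.span {z} : Ideal (𝓞 K)) : FI K) ∧ cls σ₂ m C = c

omit [Algebra K ℝ] in
lemma exists_isC {m : Ideal (𝓞 K)} (hm : m ≠ ⊥) : ∃ c : RayClassGroup σ₂ m, IsC σ₂ m c := by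
  obtain ⟨z, hz1, hz2⟩ := exists_neg σ₂ hm 1
  have hz0 : (z : K) ≠ 0 := by
    intro h
    rw [h, map_zero] at hz2
    exact lt_irrefl _ hz2
  exact ⟨_, z, ⟨uP (z : K) hz0, coe_mem_primeTo (I := Ideal.span {z})
    (by rw [coe_uP, coe_span_singleton]) (coprime_span_of_sub_one_mem hz1)⟩, hz1, hz2,
    by rw [coe_uP, coe_span_singleton], rfl⟩

lemma cpow_norm_mul (x y : ℕ) (s : ℂ) :
    (((x : ℝ) * (y : ℝ) : ℝ) : ℂ) ^ s = (x : ℂ) ^ s * (y : ℂ) ^ s := by
  rw [Complex.ofReal_mul, Complex.mul_cpow_ofReal_nonneg (Nat.cast_nonneg _) (Nat.cast_nonneg _)]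
  simp

/-- **Continuation of the partial zeta functions and their values at `0`.** -/
theorem exists_partialZeta (h2 : Module.finrank ℚ K = 2) (hσ : σ₂ ≠ sg1 K) {m : Ideal (𝓞 K)}
    (hm : m ≠ ⊥) (hm1 : m ≠ ⊤) {c : RayClassGroup σ₂ m} (hc : IsC σ₂ m c)
    (A : RayClassGroup σ₂ m) : ∃ Z Z' : ℂ → ℂ, IsPartialZeta σ₂ m A Z ∧
      IsPartialZeta σ₂ m (A * c) Z' ∧ Z 0 = 0 ∧ Z' 0 = 0 ∧ deriv Z 0 + deriv Z' 0 = 0 := by
  obtain ⟨b, B, hb0, hbm, hB, hBA⟩ := exists_integral_rep hm A⁻¹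
  obtain ⟨z, C, hz1, hz2, hC, hCc⟩ := hc
  have hA : (cls σ₂ m B)⁻¹ = A := by rw [hBA, inv_inv]
  have hA₀ : ∀ I, I ∈ idealsOf σ₂ m A ↔
      ∃ x : 𝓞 K, I * b = Ideal.span {x} ∧ x - 1 ∈ m ∧ 0 < σ₂ (x : K) := by
    intro I
    have h3 := mem_idealsOf_iff (σ₂ := σ₂) (C := 1) hB (z := 1) (by simp) (by simp)
      (by simp) (I := I)
    rw [hA] at h3
    simpa using h3
  have hA₁ : ∀ I, I ∈ idealsOf σ₂ m (A * c) ↔
      ∃ x : 𝓞 K, I * b = Ideal.span {x} ∧ x - 1 ∈ m ∧ σ₂ (x : K) < 0 := by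
    intro I
    have h3 := mem_idealsOf_iff (σ₂ := σ₂) hB hz1 hz2.ne hC (I := I)
    rw [hA, hCc] at h3
    rw [h3]
    refine exists_congr fun x => and_congr_right fun _ => and_congr_right fun _ => ?_
    rw [mul_pos_iff]
    constructor
    · rintro (h | h)
      · exact absurd h.2 (not_lt.2 hz2.le)
      · exact h.1
    · intro h; exact Or.inr ⟨h, hz2⟩
  obtain ⟨O, hO1, hO2, hO3, hO4⟩ := exists_orb h2 hσ hm hm1 hb0 hbm hA₀ hA₁
  obtain ⟨Z0, hZ0a, hZ0b, hZ0c, hZ0d⟩ := O.exists_Z 0 (by norm_num)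
  obtain ⟨Z1, hZ1a, hZ1b, hZ1c, -⟩ := O.exists_Z 1 le_rfl
  have hZ0d := hZ0d rfl
  set N : ℕ := Ideal.absNorm b with hN
  have hNpos : 0 < N := by
    rw [hN, Nat.pos_iff_ne_zero, Ne, Ideal.absNorm_eq_zero_iff]; exact hb0
  have hNC : (N : ℂ) ≠ 0 := by exact_mod_cast hNpos.ne'
  have hNs : ∀ s : ℂ, (N : ℂ) ^ s * (N : ℂ) ^ (-s) = 1 := by
    intro s
    rw [← Complex.cpow_add _ _ hNC, add_neg_cancel, Complex.cpow_zero]
  have hNan : AnalyticOnNhd ℂ (fun s : ℂ => (N : ℂ) ^ s) {1}ᶜ := by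
    intro s _
    exact (analyticAt_const).cpow analyticAt_id (by
      left
      rw [Complex.natCast_re]
      exact_mod_cast hNpos)
  -- sums
  have key : ∀ s : ℂ, 1 < s.re →
      (N : ℂ) ^ s * Z0 s = (∑' I : idealsOf σ₂ m A, ((Ideal.absNorm I.1 : ℕ) : ℂ) ^ (-s)) +
        (∑' I : idealsOf σ₂ m (A * c), ((Ideal.absNorm I.1 : ℕ) : ℂ) ^ (-s)) ∧
      (N : ℂ) ^ s * Z1 s = (∑' I : idealsOf σ₂ m A, ((Ideal.absNorm I.1 : ℕ) : ℂ) ^ (-s)) -
        (∑' I : idealsOf σ₂ m (A * c), ((Ideal.absNorm I.1 : ℕ) : ℂ) ^ (-s)) := by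
    intro s hs
    have s1 := (summable_idealsOf_c A hs).hasSum
    have s2 := (summable_idealsOf_c (A * c) hs).hasSum
    have t0 : HasSum (fun d => (Real.sign (O.p2 d) : ℂ) ^ 0 * (O.nu d : ℂ) ^ (-s))
        ((∑' I : idealsOf σ₂ m A, ((Ideal.absNorm I.1 : ℕ) : ℂ) ^ (-s)) * (N : ℂ) ^ (-s) +
        (∑' I : idealsOf σ₂ m (A * c), ((Ideal.absNorm I.1 : ℕ) : ℂ) ^ (-s)) * (N : ℂ) ^ (-s)) := by
      apply HasSum.sum
      · refine (s1.mul_right ((N : ℂ) ^ (-s))).congr_fun fun I => ?_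
        simp only [Function.comp_apply, pow_zero, one_mul]
        rw [hO1, cpow_norm_mul]
      · refine (s2.mul_right ((N : ℂ) ^ (-s))).congr_fun fun I => ?_
        simp only [Function.comp_apply, pow_zero, one_mul]
        rw [hO2, cpow_norm_mul]
    have t1 : HasSum (fun d => (Real.sign (O.p2 d) : ℂ) ^ 1 * (O.nu d : ℂ) ^ (-s))
        ((∑' I : idealsOf σ₂ m A, ((Ideal.absNorm I.1 : ℕ) : ℂ) ^ (-s)) * (N : ℂ) ^ (-s) +
        (∑' I : idealsOf σ₂ m (A * c), ((Ideal.absNorm I.1 : ℕ) : ℂ) ^ (-s)) *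
          (-(N : ℂ) ^ (-s))) := by
      apply HasSum.sum
      · refine (s1.mul_right ((N : ℂ) ^ (-s))).congr_fun fun I => ?_
        simp only [Function.comp_apply, pow_one]
        rw [hO1, cpow_norm_mul, Real.sign_of_pos (hO3 I)]
        simp
      · refine (s2.mul_right (-(N : ℂ) ^ (-s))).congr_fun fun I => ?_
        simp only [Function.comp_apply, pow_one]
        rw [hO2, cpow_norm_mul, Real.sign_of_neg (hO4 I)]
        simp
    constructor
    · rw [(hZ0b s hs).unique t0]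
      linear_combination ((∑' I : idealsOf σ₂ m A, ((Ideal.absNorm I.1 : ℕ) : ℂ) ^ (-s)) +
        (∑' I : idealsOf σ₂ m (A * c), ((Ideal.absNorm I.1 : ℕ) : ℂ) ^ (-s))) * hNs s
    · rw [(hZ1b s hs).unique t1]
      linear_combination ((∑' I : idealsOf σ₂ m A, ((Ideal.absNorm I.1 : ℕ) : ℂ) ^ (-s)) -
        (∑' I : idealsOf σ₂ m (A * c), ((Ideal.absNorm I.1 : ℕ) : ℂ) ^ (-s))) * hNs s
  have a1 : AnalyticOnNhd ℂ (fun s => (N : ℂ) ^ s * Z0 s) {1}ᶜ := hNan.mul hZ0a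
  have a2 : AnalyticOnNhd ℂ (fun s => (N : ℂ) ^ s * Z1 s) {1}ᶜ := hNan.mul hZ1a
  have a3 : AnalyticOnNhd ℂ (fun s => ((N : ℂ) ^ s * Z0 s + (N : ℂ) ^ s * Z1 s) * 2⁻¹) {1}ᶜ :=
    (a1.add a2).mul analyticOnNhd_const
  have a4 : AnalyticOnNhd ℂ (fun s => ((N : ℂ) ^ s * Z0 s - (N : ℂ) ^ s * Z1 s) * 2⁻¹) {1}ᶜ :=
    (a1.sub a2).mul analyticOnNhd_const
  have h0mem : (0 : ℂ) ∈ ({1}ᶜ : Set ℂ) := by simp
  refine ⟨fun s => ((N : ℂ) ^ s * Z0 s + (N : ℂ) ^ s * Z1 s) * 2⁻¹,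
    fun s => ((N : ℂ) ^ s * Z0 s - (N : ℂ) ^ s * Z1 s) * 2⁻¹, ⟨a3, ?_⟩, ⟨a4, ?_⟩, ?_, ?_, ?_⟩
  · intro s hs
    simp only
    rw [(key s hs).1, (key s hs).2]; ring
  · intro s hs
    simp only
    rw [(key s hs).1, (key s hs).2]; ring
  · simp only [hZ0c, hZ1c, mul_zero, add_zero, zero_mul]
  · simp only [hZ0c, hZ1c, mul_zero, sub_zero, zero_mul]
  · have d3 := (a3 0 h0mem).differentiableAt
    have d4 := (a4 0 h0mem).differentiableAt
    rw [← deriv_fun_add d3 d4]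
    have h5 : (fun s : ℂ => ((N : ℂ) ^ s * Z0 s + (N : ℂ) ^ s * Z1 s) * 2⁻¹ +
        ((N : ℂ) ^ s * Z0 s - (N : ℂ) ^ s * Z1 s) * 2⁻¹) = fun s => (N : ℂ) ^ s * Z0 s := by
      funext s; ring
    rw [h5]
    have d5 := (hNan 0 h0mem).differentiableAt
    have d6 := (hZ0a 0 h0mem).differentiableAt
    rw [deriv_fun_mul d5 d6, hZ0c, hZ0d]
    ring

end rq

end Pool.Agent.ST
end

section

/-!
# The condition on units: moduli prime to 2
-/

open NumberField IsDedekindDomain nonZeroDivisors IntermediateField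

namespace Pool.Agent.ST

section quad

variable {K L : Type*} [Field K] [NumberField K] [Field L] [NumberField L] [Algebra K L]
  [IsGalois K L]

/-- A quadratic extension `K(√u)` by the square root of a unit `u` which is unramified above `2`:
then `u` is a square modulo `4`. -/
lemma exists_sq_mod_four (hdeg : Module.finrank K L ≤ 2) {y : L} {u : (𝓞 K)ˣ}
    (hy : y ^ 2 = algebraMap K L ((u : 𝓞 K) : K)) (hyK : ∀ a : K, algebraMap K L a ≠ y)
    (hun : ∀ P : PrI L, (2 : 𝓞 K) ∈ (und K P).asIdeal →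
      Algebra.IsUnramifiedAt (𝓞 K) P.asIdeal) : ∃ a : 𝓞 K, (4 : 𝓞 K) ∣ (u : 𝓞 K) - a ^ 2 := by
  have hy0 : y ≠ 0 := by
    rintro rfl
    exact hyK 0 (map_zero _)
  -- the nontrivial automorphism
  obtain ⟨τ, hτ⟩ : ∃ τ : L ≃ₐ[K] L, τ y ≠ y := by
    by_contra hcon
    push Not at hcon
    obtain ⟨a, ha⟩ := (IsGalois.mem_range_algebraMap_iff_fixed (F := K) y).2 hcon
    exact hyK a ha
  have hτy : τ y = -y := by
    have h1 : (τ y) ^ 2 = y ^ 2 := by rw [← map_pow, hy, τ.commutes]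
    rcases sq_eq_sq_iff_eq_or_eq_neg.1 h1 with h | h
    · exact absurd h hτ
    · exact h
  have hτ1 : τ ≠ 1 := by
    rintro rfl
    exact hτ rfl
  have hcard : Nat.card (L ≃ₐ[K] L) ≤ 2 := by
    rw [IsGalois.card_aut_eq_finrank]; exact hdeg
  have hall : ∀ σ : L ≃ₐ[K] L, σ = 1 ∨ σ = τ := by
    intro σ
    by_contra hcon
    push Not at hcon
    classical
    have h3 : ({1, τ, σ} : Finset (L ≃ₐ[K] L)).card = 3 :=
      Finset.card_eq_three.2 ⟨1, τ, σ, hτ1.symm, hcon.1.symm, hcon.2.symm, rfl⟩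
    have h4 := Finset.card_le_univ ({1, τ, σ} : Finset (L ≃ₐ[K] L))
    rw [h3, ← Nat.card_eq_fintype_card] at h4
    omega
  have hττ : ∀ x : L, τ (τ x) = x := by
    intro x
    rcases hall (τ * τ) with h | h
    · exact DFunLike.congr_fun h x
    · exfalso
      apply hτ1
      have : τ * τ = τ * 1 := by rw [h, mul_one]
      exact mul_left_cancel this
  have hfix : ∀ x : L, τ x = x → ∃ a : K, algebraMap K L a = x := by
    intro x hx
    apply (IsGalois.mem_range_algebraMap_iff_fixed (F := K) x).2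
    intro σ
    rcases hall σ with rfl | rfl
    · rfl
    · exact hx
  -- integral version
  have hfixint : ∀ x : 𝓞 L, τ • x = x → ∃ a : 𝓞 K, algebraMap (𝓞 K) (𝓞 L) a = x := by
    intro x hx
    obtain ⟨a, ha⟩ := hfix (x : L) (by
      have := congrArg (algebraMap (𝓞 L) L) hx
      rw [coe_smul'] at this
      exact this)
    have hint : IsIntegral ℤ a := by
      have h1 : IsIntegral ℤ (algebraMap K L a) := by rw [ha]; exact RingOfIntegers.isIntegral_coe x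
      exact (isIntegral_algebraMap_iff (algebraMap K L).injective).1 h1
    refine ⟨⟨a, hint⟩, ?_⟩
    apply RingOfIntegers.coe_injective
    exact ha
  have hsm : ∀ x : 𝓞 L, τ • (τ • x) = x := by
    intro x
    apply RingOfIntegers.coe_injective
    rw [coe_smul', coe_smul']
    exact hττ _
  -- the ideal of traces
  let T : Ideal (𝓞 K) :=
    { carrier := {t | ∃ x : 𝓞 L, algebraMap (𝓞 K) (𝓞 L) t = x + τ • x}
      add_mem' := by
        rintro a b ⟨x, hx⟩ ⟨z, hz⟩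
        exact ⟨x + z, by rw [map_add, hx, hz, smul_add]; ring⟩
      zero_mem' := ⟨0, by rw [smul_zero, map_zero, add_zero]⟩
      smul_mem' := by
        rintro c a ⟨x, hx⟩
        refine ⟨algebraMap (𝓞 K) (𝓞 L) c * x, ?_⟩
        have h1 : τ • (algebraMap (𝓞 K) (𝓞 L) c * x) = algebraMap (𝓞 K) (𝓞 L) c * τ • x := by
          rw [← Algebra.smul_def, ← Algebra.smul_def, smul_comm]
        rw [smul_eq_mul, map_mul, hx, h1]; ring }
  have hT : T ⊔ Ideal.span {(4 : 𝓞 K)} = ⊤ := by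
    by_contra hne
    obtain ⟨M, hM, hTM⟩ := Ideal.exists_le_maximal _ hne
    have h4 : (4 : 𝓞 K) ∈ M :=
      hTM ((le_sup_right : Ideal.span {(4 : 𝓞 K)} ≤ _) (Ideal.mem_span_singleton_self _))
    have h2 : (2 : 𝓞 K) ∈ M := by
      have h5 : (4 : 𝓞 K) = 2 * 2 := by norm_num
      rw [h5] at h4
      rcases hM.isPrime.mem_or_mem h4 with h | h <;> exact h
    have hM0 : M ≠ ⊥ := by
      rintro rfl
      rw [Ideal.mem_bot] at h2
      exact two_ne_zero h2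
    obtain ⟨P, hP⟩ := exists_ovr (K := K) (L := L) ⟨M, hM.isPrime, hM0⟩
    have hPM : (und K P).asIdeal = M := by rw [hP]
    have hunP := hun P (by rw [hPM]; exact h2)
    obtain ⟨σ, hσ⟩ := exists_isFrob (K := K) P
    -- some `x` is moved by `τ` modulo `P`
    obtain ⟨x, hx⟩ : ∃ x : 𝓞 L, τ • x - x ∉ P.asIdeal := by
      by_contra hcon
      push Not at hcon
      have hστ : IsFrob K P (σ * τ) := by
        intro x
        have h5 := hσ (τ • x)
        have h6 : (τ • x) ^ pn (und K P) - x ^ pn (und K P) ∈ P.asIdeal := by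
          have h7 : (τ • x) - x ∣ (τ • x) ^ pn (und K P) - x ^ pn (und K P) :=
            sub_dvd_pow_sub_pow _ _ _
          exact Ideal.mem_of_dvd _ h7 (hcon x)
        have h8 := P.asIdeal.add_mem h5 h6
        rw [sub_add_sub_cancel, smul_smul] at h8
        exact h8
      have h9 := isFrob_unique hστ hσ
      apply hτ1
      have h10 : σ * τ = σ * 1 := by rw [h9, mul_one]
      exact mul_left_cancel h10
    obtain ⟨t, ht⟩ := hfixint (x + τ • x) (by rw [smul_add, hsm, add_comm])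
    have htT : t ∈ T := ⟨x, ht⟩
    have htM : t ∈ M := hTM ((le_sup_left : T ≤ _) htT)
    rw [← hPM] at htM h2
    have h5 : x + τ • x ∈ P.asIdeal := by rw [← ht]; exact htM
    have h6 : (2 : 𝓞 L) ∈ P.asIdeal := by
      have : algebraMap (𝓞 K) (𝓞 L) 2 ∈ P.asIdeal := h2
      rwa [map_ofNat] at this
    apply hx
    have h7 : (τ • x - x) = (x + τ • x) - 2 * x := by ring
    rw [h7]
    exact P.asIdeal.sub_mem h5 (P.asIdeal.mul_mem_right _ h6)
  obtain ⟨t, ⟨x, hx⟩, s, hs, hts⟩ := Submodule.mem_sup.1 ((Ideal.eq_top_iff_one _).1 hT)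
  obtain ⟨c, rfl⟩ := Ideal.mem_span_singleton'.1 hs
  -- the norm of `x`
  obtain ⟨n₀, hn₀⟩ := hfixint (x * τ • x) (by
    have : τ • (x * τ • x) = (τ • x) * (τ • (τ • x)) := by
      apply RingOfIntegers.coe_injective
      simp only [map_mul, coe_smul']
    rw [this, hsm, mul_comm])
  -- the unit `y`
  have hyint : IsIntegral ℤ y := by
    apply IsIntegral.of_pow (n := 2) (by norm_num)
    rw [hy]
    exact (RingOfIntegers.isIntegral_coe (u : 𝓞 K)).map (algebraMap K L).toIntAlgHom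
  let y' : 𝓞 L := ⟨y, hyint⟩
  have hy' : y' ^ 2 = algebraMap (𝓞 K) (𝓞 L) (u : 𝓞 K) := by
    apply RingOfIntegers.coe_injective
    rw [map_pow]
    exact hy
  have hτy' : τ • y' = -y' := by
    apply RingOfIntegers.coe_injective
    rw [coe_smul', map_neg]
    exact hτy
  -- the coefficient
  obtain ⟨d, hd⟩ := hfixint ((x - τ • x) * y' * algebraMap (𝓞 K) (𝓞 L) ((u⁻¹ : (𝓞 K)ˣ) : 𝓞 K)) (by
    have h1 : τ • ((x - τ • x) * y' * algebraMap (𝓞 K) (𝓞 L) ((u⁻¹ : (𝓞 K)ˣ) : 𝓞 K)) =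
        (τ • x - τ • (τ • x)) * (τ • y') *
          (τ • algebraMap (𝓞 K) (𝓞 L) ((u⁻¹ : (𝓞 K)ˣ) : 𝓞 K)) := by
      apply RingOfIntegers.coe_injective
      simp only [map_mul, coe_smul', map_sub]
    have h3 : τ • algebraMap (𝓞 K) (𝓞 L) ((u⁻¹ : (𝓞 K)ˣ) : 𝓞 K) =
        algebraMap (𝓞 K) (𝓞 L) ((u⁻¹ : (𝓞 K)ˣ) : 𝓞 K) := by
      apply RingOfIntegers.coe_injective
      rw [coe_smul']
      exact τ.commutes _
    rw [h1, h3, hsm, hτy']; ring)
  have hmain : algebraMap (𝓞 K) (𝓞 L) (u * d ^ 2) = algebraMap (𝓞 K) (𝓞 L) (t ^ 2 - 4 * n₀) := by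
    have hu1 : algebraMap (𝓞 K) (𝓞 L) (u : 𝓞 K) *
        algebraMap (𝓞 K) (𝓞 L) ((u⁻¹ : (𝓞 K)ˣ) : 𝓞 K) = 1 := by
      rw [← map_mul, Units.mul_inv, map_one]
    rw [map_mul, map_pow, hd, map_sub, map_pow, map_mul, hx, hn₀, map_ofNat]
    have e1 : algebraMap (𝓞 K) (𝓞 L) (u : 𝓞 K) *
        ((x - τ • x) * y' * algebraMap (𝓞 K) (𝓞 L) ((u⁻¹ : (𝓞 K)ˣ) : 𝓞 K)) ^ 2 =
        (x - τ • x) ^ 2 * y' ^ 2 * algebraMap (𝓞 K) (𝓞 L) ((u⁻¹ : (𝓞 K)ˣ) : 𝓞 K) *
        (algebraMap (𝓞 K) (𝓞 L) (u : 𝓞 K) *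
        algebraMap (𝓞 K) (𝓞 L) ((u⁻¹ : (𝓞 K)ˣ) : 𝓞 K)) := by ring
    rw [e1, hu1, mul_one, hy', mul_assoc, hu1]
    ring
  have hmain2 : (u : 𝓞 K) * d ^ 2 = t ^ 2 - 4 * n₀ :=
    FaithfulSMul.algebraMap_injective (𝓞 K) (𝓞 L) hmain
  refine ⟨u * d, ?_⟩
  refine ⟨u * (2 * c - 4 * c ^ 2 + n₀), ?_⟩
  have ht1 : t = 1 - c * 4 := eq_sub_of_add_eq hts
  have e2 : (u : 𝓞 K) - (u * d) ^ 2 = u * (1 - u * d ^ 2) := by ring
  rw [e2, hmain2, ht1]
  ring

end quad

end Pool.Agent.ST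
end

section

/-!
# Asymptotics of the sum over the elements of an ideal
-/

open NumberField NumberField.mixedEmbedding NumberField.InfinitePlace NumberField.Units Module
  nonZeroDivisors MeasureTheory

namespace Pool.Agent.STc

open Pool.Agent.ST

section coset

variable {M : Type*} [Field M] [NumberField M]

/-- The fractional ideal of an ideal, as a unit. -/
noncomputable def fu (J : Ideal (𝓞 M)) (hJ : J ≠ ⊥) : (FractionalIdeal (𝓞 M)⁰ M)ˣ :=
  Units.mk0 (J : FractionalIdeal (𝓞 M)⁰ M) (FractionalIdeal.coeIdeal_ne_zero.2 hJ)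

/-- The lattice of an ideal. -/
noncomputable def latEquiv (J : Ideal (𝓞 M)) (hJ : J ≠ ⊥) :
    {y : 𝓞 M // y ∈ J} ≃ idealLattice M (fu J hJ) :=
  Equiv.ofBijective (fun y => ⟨mixedEmbedding M (y.1 : M), by
      rw [mem_idealLattice]
      refine ⟨(y.1 : M), ?_, rfl⟩
      show (y.1 : M) ∈ (J : FractionalIdeal (𝓞 M)⁰ M)
      rw [FractionalIdeal.mem_coeIdeal]
      exact ⟨y.1, y.2, rfl⟩⟩) (by
    constructor
    · intro x y hxy
      have h1 : mixedEmbedding M (x.1 : M) = mixedEmbedding M (y.1 : M) := congrArg Subtype.val hxy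
      exact Subtype.ext (RingOfIntegers.ext (mixedEmbedding_injective M h1))
    · rintro ⟨v, hv⟩
      rw [mem_idealLattice] at hv
      obtain ⟨y, hy, rfl⟩ := hv
      have hy' : y ∈ (J : FractionalIdeal (𝓞 M)⁰ M) := hy
      rw [FractionalIdeal.mem_coeIdeal] at hy'
      obtain ⟨z, hz, rfl⟩ := hy'
      exact ⟨⟨z, hz⟩, rfl⟩)

lemma latEquiv_val (J : Ideal (𝓞 M)) (hJ : J ≠ ⊥) (y : {y : 𝓞 M // y ∈ J}) :
    (latEquiv J hJ y : mixedSpace M) = mixedEmbedding M (y.1 : M) := rfl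

omit [NumberField M] in
lemma exists_rep {n J : Ideal (𝓞 M)} (hJ : IsCoprime J n) (a : 𝓞 M ⧸ n) :
    ∃ t ∈ J, Ideal.Quotient.mk n t = a := by
  obtain ⟨y, rfl⟩ := Ideal.Quotient.mk_surjective a
  rw [Ideal.isCoprime_iff_exists] at hJ
  obtain ⟨i, hi, j, hj, hij⟩ := hJ
  refine ⟨y * i, J.mul_mem_left _ hi, ?_⟩
  rw [Ideal.Quotient.eq]
  have : y * i - y = -(y * j) := by linear_combination y * hij
  rw [this]
  exact n.neg_mem (n.mul_mem_left _ hj)

/-- A representative in `J` of a class modulo `n`. -/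
noncomputable def rep {n J : Ideal (𝓞 M)} (hJ : IsCoprime J n) (a : 𝓞 M ⧸ n) : 𝓞 M :=
  (exists_rep hJ a).choose

omit [NumberField M] in
lemma rep_mem {n J : Ideal (𝓞 M)} (hJ : IsCoprime J n) (a : 𝓞 M ⧸ n) : rep hJ a ∈ J :=
  (exists_rep hJ a).choose_spec.1

omit [NumberField M] in
lemma mk_rep {n J : Ideal (𝓞 M)} (hJ : IsCoprime J n) (a : 𝓞 M ⧸ n) :
    Ideal.Quotient.mk n (rep hJ a) = a :=
  (exists_rep hJ a).choose_spec.2

/-- The decomposition of an ideal into cosets. -/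
noncomputable def cosetEquiv {n J : Ideal (𝓞 M)} (hJ : IsCoprime J n) :
    (𝓞 M ⧸ n) × {y : 𝓞 M // y ∈ n * J} ≃ {x : 𝓞 M // x ∈ J} :=
  Equiv.ofBijective (fun p => ⟨rep hJ p.1 + p.2.1, J.add_mem (rep_mem hJ p.1)
      (Ideal.mul_le_right p.2.2)⟩) (by
    have key : ∀ p : (𝓞 M ⧸ n) × {y : 𝓞 M // y ∈ n * J},
        Ideal.Quotient.mk n (rep hJ p.1 + p.2.1) = p.1 := by
      intro p
      rw [map_add, mk_rep, Ideal.Quotient.eq_zero_iff_mem.2 (Ideal.mul_le_left p.2.2), add_zero]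
    constructor
    · intro p q hpq
      have h1 : rep hJ p.1 + p.2.1 = rep hJ q.1 + q.2.1 := congrArg Subtype.val hpq
      have h2 : p.1 = q.1 := by rw [← key p, ← key q, h1]
      rw [h2] at h1
      exact Prod.ext h2 (Subtype.ext (add_left_cancel h1))
    · intro x
      have h1 : x.1 - rep hJ (Ideal.Quotient.mk n x.1) ∈ n * J := by
        rw [mul_comm, Ideal.mul_eq_inf_of_isCoprime hJ]
        refine Ideal.mem_inf.2 ⟨J.sub_mem x.2 (rep_mem hJ _), ?_⟩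
        rw [← Ideal.Quotient.eq, mk_rep]
      exact ⟨(Ideal.Quotient.mk n x.1, ⟨_, h1⟩), Subtype.ext (add_sub_cancel _ _)⟩)

omit [NumberField M] in
lemma cosetEquiv_val {n J : Ideal (𝓞 M)} (hJ : IsCoprime J n)
    (p : (𝓞 M ⧸ n) × {y : 𝓞 M // y ∈ n * J}) :
    (cosetEquiv hJ p).1 = rep hJ p.1 + p.2.1 := rfl

omit [NumberField M] in
lemma mk_cosetEquiv {n J : Ideal (𝓞 M)} (hJ : IsCoprime J n)
    (p : (𝓞 M ⧸ n) × {y : 𝓞 M // y ∈ n * J}) :
    Ideal.Quotient.mk n (cosetEquiv hJ p).1 = p.1 := by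
  rw [cosetEquiv_val, map_add, mk_rep, Ideal.Quotient.eq_zero_iff_mem.2 (Ideal.mul_le_left p.2.2),
    add_zero]

variable {n : Ideal (𝓞 M)} {χ : Ideal (𝓞 M) →*₀ ℝ}

variable (n χ) in
open scoped Classical in
/-- The summand for all elements. -/
noncomputable def gterm (s : ℝ) (x : 𝓞 M) : ℝ :=
  ∑ S : Set {w : InfinitePlace M // IsReal w},
    cval n χ (Ideal.Quotient.mk n x) S * fs s S (mixedEmbedding M (x : M))

lemma gterm_zero (s : ℝ) : gterm n χ s 0 = 0 := by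
  unfold gterm
  apply Finset.sum_eq_zero
  intro S _
  have h1 : phi (mixedEmbedding M ((0 : 𝓞 M) : M)) = 0 := by
    unfold phi
    rw [if_pos]
    simp
  rw [fs_of_phi_eq_zero s S h1, mul_zero]

lemma gterm_eq (h : IsRayChar n χ) (hn : n ≠ ⊥) (s : ℝ) {x : 𝓞 M} (hx : x ≠ 0) :
    gterm n χ s x = eterm χ s x := by
  classical
  unfold gterm
  rw [Finset.sum_eq_single (signSet (mixedEmbedding M (x : M)))]
  · rw [cval_eq h hn hx]
    unfold fs eterm
    rw [if_pos rfl, max_eq_right (one_le_norm_emb hx), norm_emb]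
    ring
  · intro S _ hS
    unfold fs
    rw [if_neg (Ne.symm hS), mul_zero]
  · intro hh
    exact absurd (Finset.mem_univ _) hh

lemma tsum_gterm (h : IsRayChar n χ) (hn : n ≠ ⊥) (J : Ideal (𝓞 M)) (s : ℝ) :
    ∑' x : {x : 𝓞 M // x ∈ J}, gterm n χ s x.1 = ∑' x : NzE J, eterm χ s x.1 := by
  let i : NzE J → {x : 𝓞 M // x ∈ J} := fun x => ⟨x.1, x.2.1⟩
  have hi : Function.Injective i := by
    intro x y hxy
    have hxy' : x.1 = y.1 := congrArg (fun z : {x : 𝓞 M // x ∈ J} => z.1) hxy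
    exact Subtype.ext hxy'
  rw [← hi.tsum_eq]
  · exact tsum_congr fun x => gterm_eq h hn s x.2.2
  · intro x hx
    have hx0 : x.1 ≠ 0 := by
      intro h0
      apply hx
      show gterm n χ s x.1 = 0
      rw [h0, gterm_zero]
    exact ⟨⟨x.1, x.2, hx0⟩, rfl⟩

lemma summable_gterm (h : IsRayChar n χ) (hn : n ≠ ⊥) (J : Ideal (𝓞 M)) {s : ℝ} (hs : 1 < s) :
    Summable fun x : {x : 𝓞 M // x ∈ J} => gterm n χ s x.1 := by
  let i : NzE J → {x : 𝓞 M // x ∈ J} := fun x => ⟨x.1, x.2.1⟩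
  have hi : Function.Injective i := by
    intro x y hxy
    have hxy' : x.1 = y.1 := congrArg (fun z : {x : 𝓞 M // x ∈ J} => z.1) hxy
    exact Subtype.ext hxy'
  rw [← hi.summable_iff]
  · exact (summable_eterm χ (abs_chi_le h) J hs).congr fun x => (gterm_eq h hn s x.2.2).symm
  · intro x hx
    by_contra hx1
    apply hx
    have hx0 : x.1 ≠ 0 := by
      intro h0
      apply hx1
      show gterm n χ s x.1 = 0
      rw [h0, gterm_zero]
    exact ⟨⟨x.1, x.2, hx0⟩, rfl⟩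

lemma tsum_lat {J : Ideal (𝓞 M)} (hJ : J ≠ ⊥) (f : mixedSpace M → ℝ) :
    ∑' y : {y : 𝓞 M // y ∈ J}, f (mixedEmbedding M (y.1 : M)) =
      ∑' l : idealLattice M (fu J hJ), f l := by
  rw [← (latEquiv J hJ).tsum_eq (fun l => f l)]
  exact tsum_congr fun y => by rw [latEquiv_val]

lemma summable_lat {J : Ideal (𝓞 M)} (hJ : J ≠ ⊥) (f : mixedSpace M → ℝ) :
    (Summable fun y : {y : 𝓞 M // y ∈ J} => f (mixedEmbedding M (y.1 : M))) ↔
      Summable fun l : idealLattice M (fu J hJ) => f l := by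
  rw [← (latEquiv J hJ).summable_iff]
  exact summable_congr fun y => by rw [Function.comp_apply, latEquiv_val]

open scoped Classical in
lemma gterm_coset {J : Ideal (𝓞 M)} (hJ : IsCoprime J n) (s : ℝ) (a : 𝓞 M ⧸ n)
    (y : {y : 𝓞 M // y ∈ n * J}) : gterm n χ s (cosetEquiv hJ (a, y)).1 =
      ∑ S : Set {w : InfinitePlace M // IsReal w}, cval n χ a S *
        fs s S (mixedEmbedding M (rep hJ a : M) + mixedEmbedding M (y.1 : M)) := by
  unfold gterm
  rw [mk_cosetEquiv, cosetEquiv_val]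
  refine Finset.sum_congr rfl fun S _ => ?_
  have : ((rep hJ a + y.1 : 𝓞 M) : M) = (rep hJ a : M) + (y.1 : M) := by push_cast; rfl
  rw [this, map_add]

end coset

end Pool.Agent.STc
end

section

/-!
# Asymptotics of the sum over the elements of an ideal (2)
-/

open NumberField NumberField.mixedEmbedding NumberField.InfinitePlace NumberField.Units Module
  nonZeroDivisors MeasureTheory

namespace Pool.Agent.STc

open Pool.Agent.ST

lemma tsum_equiv_prod {A B X : Type*} [Fintype A] (e : A × B ≃ X) {f : X → ℝ} (hf : Summable f) :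
    ∑' x, f x = ∑ a, ∑' b, f (e (a, b)) := by
  rw [← e.tsum_eq]
  have hsum' : Summable fun p : A × B => f (e p) := e.summable_iff.2 hf
  rw [Summable.tsum_prod hsum', tsum_fintype]

section coset

variable {M : Type*} [Field M] [NumberField M] {n : Ideal (𝓞 M)} {χ : Ideal (𝓞 M) →*₀ ℝ}

/-- The inner sum. -/
noncomputable def isum {J : Ideal (𝓞 M)} (hJ : J ≠ ⊥) (s : ℝ)
    (S : Set {w : InfinitePlace M // IsReal w}) (a : mixedSpace M) : ℝ :=
  ∑' l : idealLattice M (fu J hJ), fs s S (a + l)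

open scoped Classical in
lemma summable_isum {J : Ideal (𝓞 M)} (hJ : J ≠ ⊥) {s : ℝ} (hs : 1 < s)
    (S : Set {w : InfinitePlace M // IsReal w}) (a : mixedSpace M) :
    Summable fun y : {y : 𝓞 M // y ∈ J} => fs s S (a + mixedEmbedding M (y.1 : M)) := by
  have h1 := summable_fs (L := idealLattice M (fu J hJ)) a hs S
  exact (summable_lat hJ (fun v => fs s S (a + v))).2 h1

open scoped Classical in
lemma tsum_gterm_inner {J : Ideal (𝓞 M)} (hJ : IsCoprime J n) (hJn : n * J ≠ ⊥) {s : ℝ}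
    (hs : 1 < s) (a : 𝓞 M ⧸ n) :
    ∑' y : {y : 𝓞 M // y ∈ n * J}, gterm n χ s (cosetEquiv hJ (a, y)).1 =
      ∑ S : Set {w : InfinitePlace M // IsReal w}, cval n χ a S *
        isum hJn s S (mixedEmbedding M (rep hJ a : M)) := by
  rw [tsum_congr (fun y => gterm_coset (χ := χ) hJ s a y), Summable.tsum_finsetSum]
  · refine Finset.sum_congr rfl fun S _ => ?_
    rw [tsum_mul_left, isum]
    congr 1
    exact tsum_lat hJn (fun v => fs s S (mixedEmbedding M (rep hJ a : M) + v))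
  · intro S _
    exact (summable_isum hJn hs S _).mul_left _

open scoped Classical in
/-- The sum over the elements of an ideal as a sum over cosets and signs. -/
lemma tsum_gterm_coset (h : IsRayChar n χ) (hn : n ≠ ⊥) [Fintype (𝓞 M ⧸ n)]
    {J : Ideal (𝓞 M)} (hJ : IsCoprime J n) (hJn : n * J ≠ ⊥) {s : ℝ} (hs : 1 < s) :
    ∑' x : {x : 𝓞 M // x ∈ J}, gterm n χ s x.1 =
      ∑ a : 𝓞 M ⧸ n, ∑ S : Set {w : InfinitePlace M // IsReal w}, cval n χ a S *
        isum hJn s S (mixedEmbedding M (rep hJ a : M)) := by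
  rw [tsum_equiv_prod (cosetEquiv hJ) (summable_gterm h hn J hs)]
  exact Finset.sum_congr rfl fun a _ => tsum_gterm_inner hJ hJn hs a

end coset

end Pool.Agent.STc
end
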