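import Mathlib
import Pool.Agent.Lib.MP_1ef7cf_nt.Act
import Pool.Agent.Lib.MP_1ef7cf_nt_b.Quad

section

/-!
Square roots and abelian extensions inside `ℝ`.
-/

set_option linter.style.haveILetI false

open IntermediateField Polynomial

namespace Pool.Agent.ST

variable {K : Type*} [Field K] [Algebra K ℝ]

section normal

variable {H : IntermediateField K ℝ}

/-- the extension `H(√u)` inside `ℝ`. -/
noncomputable def sqrtExt (H : IntermediateField K ℝ) (u : ℝ) : IntermediateField K ℝ :=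
  H ⊔ K⟮Real.sqrt u⟯

lemma le_sqrtExt (H : IntermediateField K ℝ) (u : ℝ) : H ≤ sqrtExt H u := le_sup_left

lemma sqrt_mem_sqrtExt (H : IntermediateField K ℝ) (u : ℝ) : Real.sqrt u ∈ sqrtExt H u :=
  (le_sup_right : K⟮Real.sqrt u⟯ ≤ sqrtExt H u) (mem_adjoin_simple_self K _)

lemma sqrtExt_le {H L : IntermediateField K ℝ} {u : ℝ} (h : H ≤ L) (hu : Real.sqrt u ∈ L) :
    sqrtExt H u ≤ L :=
  sup_le h (by rw [adjoin_simple_le_iff]; exact hu)

lemma isIntegral_sqrt {u : ℝ} (hu : IsIntegral K u) (h0 : 0 ≤ u) : IsIntegral K (Real.sqrt u) := by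
  apply IsIntegral.of_pow (n := 2) (by norm_num)
  rwa [Real.sq_sqrt h0]

lemma isIntegral_of_mem [FiniteDimensional K H] {x : ℝ} (hx : x ∈ H) : IsIntegral K x := by
  have := IsIntegral.of_finite K (⟨x, hx⟩ : H)
  exact this.map (H.val)

lemma finiteDimensional_sqrtExt [FiniteDimensional K H] {u : ℝ} (hu : u ∈ H) (h0 : 0 ≤ u) :
    FiniteDimensional K (sqrtExt H u) := by
  haveI := adjoin.finiteDimensional (isIntegral_sqrt (isIntegral_of_mem (H := H) hu) h0)
  unfold sqrtExt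
  infer_instance

/-- conjugates: the roots in an extension `L` of `H` of the minimal polynomial of an element `u` of
the normal extension `H` of `K` are of the form `σ u`. -/
lemma exists_act_eq_of_root [FiniteDimensional K H] [Normal K H] {L : IntermediateField K ℝ}
    (hHL : H ≤ L) {u : ℝ} (hu : u ∈ H) {r : L}
    (hr : aeval r (minpoly K u) = 0) : ∃ σ : H ≃ₐ[K] H, act σ u = (r : ℝ) := by
  lift u to H using hu
  have h1 : minpoly K (u : ℝ) = minpoly K u :=
    minpoly.algebraMap_eq (algebraMap H ℝ).injective u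
  rw [h1] at hr
  -- r lies in H
  have hs : ((minpoly K u).map (algebraMap K H)).Splits := Normal.splits inferInstance u
  have h2 : ((minpoly K u).map (algebraMap K L)) ≠ 0 :=
    Polynomial.map_ne_zero (minpoly.ne_zero (IsIntegral.of_finite K u))
  have h3 := hs.image_rootSet_of_map_ne_zero (inclusion hHL) h2
  have h4 : r ∈ (minpoly K u).rootSet L := by
    rw [mem_rootSet]
    exact ⟨minpoly.ne_zero (IsIntegral.of_finite K u), hr⟩
  rw [← h3] at h4
  obtain ⟨r', hr', hrr'⟩ := h4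
  have hr2 : aeval r' (minpoly K u) = 0 := (mem_rootSet.1 hr').2
  obtain ⟨σ, hσ⟩ := minpoly.exists_algEquiv_of_root' (IsIntegral.of_finite K u).isAlgebraic hr2
  refine ⟨σ, ?_⟩
  rw [act_coe, hσ, ← hrr']
  rfl

lemma normal_sqrtExt [FiniteDimensional K H] [Normal K H] {u : ℝ} (hu : u ∈ H)
    (hpos : ∀ σ : H ≃ₐ[K] H, 0 ≤ act σ u)
    (hsq : ∀ σ : H ≃ₐ[K] H, Real.sqrt (act σ u) ∈ sqrtExt H u) : Normal K (sqrtExt H u) := by
  classical
  set L := sqrtExt H u with hL
  have hHL : H ≤ L := le_sqrtExt H u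
  have h0 : 0 ≤ u := by have := hpos 1; rwa [act_one_left hu] at this
  have hint : IsIntegral K u := isIntegral_of_mem hu
  have hadj : L = adjoin K ((H : Set ℝ) ∪ {Real.sqrt u}) := by
    rw [hL, sqrtExt, adjoin_union, adjoin_self]
  have key : ∀ x ∈ ((H : Set ℝ) ∪ {Real.sqrt u}), IsIntegral K x ∧
      ((minpoly K x).map (algebraMap K L)).Splits := by
    rintro x (hx | hx)
    · refine ⟨isIntegral_of_mem hx, ?_⟩
      lift x to H using hx
      have h1 : minpoly K (x : ℝ) = minpoly K x :=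
        minpoly.algebraMap_eq (algebraMap H ℝ).injective x
      rw [h1]
      have hs : ((minpoly K x).map (algebraMap K H)).Splits := Normal.splits inferInstance x
      have := hs.map (inclusion hHL).toRingHom
      rwa [Polynomial.map_map] at this
    · rw [Set.mem_singleton_iff] at hx
      subst hx
      refine ⟨isIntegral_sqrt hint h0, ?_⟩
      -- the polynomial `(minpoly K u)(X²)`
      set P : K[X] := (minpoly K u).comp (X ^ 2) with hP
      have hPmonic : P.Monic := by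
        apply (minpoly.monic hint).comp (monic_X_pow 2)
        simp
      have hroot : aeval (Real.sqrt u) P = 0 := by
        rw [hP, aeval_comp]
        simp only [map_pow, aeval_X]
        rw [Real.sq_sqrt h0, minpoly.aeval]
      have hdvd : minpoly K (Real.sqrt u) ∣ P := minpoly.dvd K _ hroot
      have hsP : (P.map (algebraMap K L)).Splits := by
        have h5 : ((minpoly K u).map (algebraMap K L)).Splits := by
          lift u to H using hu
          have h1 : minpoly K (u : ℝ) = minpoly K u :=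
            minpoly.algebraMap_eq (algebraMap H ℝ).injective u
          rw [h1]
          have hs : ((minpoly K u).map (algebraMap K H)).Splits := Normal.splits inferInstance u
          have := hs.map (inclusion hHL).toRingHom
          rwa [Polynomial.map_map] at this
        have h6 := h5.eq_prod_roots_of_monic ((minpoly.monic hint).map _)
        rw [hP, Polynomial.map_comp, h6]
        simp only [Polynomial.map_pow, map_X, Polynomial.multiset_prod_comp, Multiset.map_map]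
        apply Splits.multisetProd
        intro f hf
        rw [Multiset.mem_map] at hf
        obtain ⟨r, hr, rfl⟩ := hf
        have hr' : aeval r (minpoly K u) = 0 := by
          have := (mem_roots'.1 hr).2
          rwa [IsRoot.def, eval_map_algebraMap] at this
        obtain ⟨σ, hσ⟩ := exists_act_eq_of_root hHL hu hr'
        have hsr := hsq σ
        have hsr2 : (⟨Real.sqrt (act σ u), hsr⟩ : L) ^ 2 = r := by
          apply Subtype.ext
          change (Real.sqrt (act σ u)) ^ 2 = (r : ℝ)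
          rw [Real.sq_sqrt (hpos σ), hσ]
        have : (fun i => ((X - C i : L[X]).comp (X ^ 2))) r =
            (X - C (⟨Real.sqrt (act σ u), hsr⟩ : L)) * (X + C (⟨Real.sqrt (act σ u), hsr⟩ : L)) := by
          simp only [sub_comp, X_comp, C_comp]
          rw [← hsr2, map_pow]
          ring
        simp only [Function.comp] at this ⊢
        rw [this]
        exact (Splits.X_sub_C _).mul (Splits.X_add_C _)
      refine hsP.of_dvd (hPmonic.map _).ne_zero ?_
      exact Polynomial.map_dvd _ hdvd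
  rw [normal_iff]
  intro x
  have hx : (x : ℝ) ∈ adjoin K ((H : Set ℝ) ∪ {Real.sqrt u}) := by rw [← hadj]; exact x.2
  have h1 : minpoly K (x : ℝ) = minpoly K x :=
    minpoly.algebraMap_eq (algebraMap L ℝ).injective x
  have h2 := IntermediateField.splits_of_mem_adjoin K ℝ key hx
  rw [h1] at h2
  haveI : FiniteDimensional K L := finiteDimensional_sqrtExt hu h0
  exact ⟨IsIntegral.of_finite K x, h2⟩

end normal

section abelian

variable {H L M Ω : IntermediateField K ℝ}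

/-- the subfield on which two automorphisms of `M` agree. -/
def eqField (γ δ : M ≃ₐ[K] M) : IntermediateField K ℝ where
  carrier := {x | x ∈ M ∧ act γ x = act δ x}
  mul_mem' := by
    rintro a b ⟨ha, ha'⟩ ⟨hb, hb'⟩
    exact ⟨mul_mem ha hb, by rw [act_mul _ ha hb, act_mul _ ha hb, ha', hb']⟩
  add_mem' := by
    rintro a b ⟨ha, ha'⟩ ⟨hb, hb'⟩
    exact ⟨add_mem ha hb, by rw [act_add _ ha hb, act_add _ ha hb, ha', hb']⟩
  algebraMap_mem' := by
    intro r
    exact ⟨M.algebraMap_mem r, by rw [act_algebraMap, act_algebraMap]⟩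
  inv_mem' := by
    rintro a ⟨ha, ha'⟩
    exact ⟨inv_mem ha, by rw [act_inv _ ha, act_inv _ ha, ha']⟩

lemma eq_of_eq_on_sup {L₁ L₂ : IntermediateField K ℝ} (hM : M ≤ L₁ ⊔ L₂) (h1 : L₁ ≤ M)
    (h2 : L₂ ≤ M) {γ δ : M ≃ₐ[K] M} (e1 : ∀ x ∈ L₁, act γ x = act δ x)
    (e2 : ∀ x ∈ L₂, act γ x = act δ x) : γ = δ := by
  have hle : M ≤ eqField γ δ := by
    refine hM.trans (sup_le ?_ ?_)
    · intro x hx; exact ⟨h1 hx, e1 x hx⟩
    · intro x hx; exact ⟨h2 hx, e2 x hx⟩
  apply act_ext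
  intro x hx
  exact (hle hx).2

lemma act_act_comm [IsAbelianGalois K M] (γ δ : M ≃ₐ[K] M) {x : ℝ} (hx : x ∈ M) :
    act γ (act δ x) = act δ (act γ x) := by
  rw [← act_comp _ _ hx, ← act_comp _ _ hx, mul_comm' γ δ]

lemma isAbelianGalois_of_le (h : L ≤ M) [IsAbelianGalois K M] : IsAbelianGalois K L :=
  IsAbelianGalois.of_algHom (inclusion h)

end abelian

end Pool.Agent.ST
end

section

/-!
# Elements which are locally a unit times a square outside `D`
-/

open IntermediateField Polynomial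

namespace Pool.Agent.STb

/-- The ring of the real numbers integral over `ℤ[1/D]`. -/
def DI (D : ℕ) : Subring ℝ where
  carrier := {r | ∃ k : ℕ, IsIntegral ℤ ((D : ℝ) ^ k * r)}
  one_mem' := ⟨0, by simpa using isIntegral_one⟩
  zero_mem' := ⟨0, by simpa using isIntegral_zero⟩
  mul_mem' := by
    rintro a b ⟨k, hk⟩ ⟨l, hl⟩
    refine ⟨k + l, ?_⟩
    have : (D : ℝ) ^ (k + l) * (a * b) = ((D : ℝ) ^ k * a) * ((D : ℝ) ^ l * b) := by ring
    rw [this]
    exact hk.mul hl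
  add_mem' := by
    rintro a b ⟨k, hk⟩ ⟨l, hl⟩
    refine ⟨k + l, ?_⟩
    have hD : IsIntegral ℤ (D : ℝ) := isIntegral_algebraMap (R := ℤ) (x := (D : ℤ))
    have : (D : ℝ) ^ (k + l) * (a + b) =
        (D : ℝ) ^ l * ((D : ℝ) ^ k * a) + (D : ℝ) ^ k * ((D : ℝ) ^ l * b) := by ring
    rw [this]
    exact ((hD.pow l).mul hk).add ((hD.pow k).mul hl)
  neg_mem' := by
    rintro a ⟨k, hk⟩
    exact ⟨k, by rw [mul_neg]; exact hk.neg⟩

lemma mem_DI {D : ℕ} {r : ℝ} : r ∈ DI D ↔ ∃ k : ℕ, IsIntegral ℤ ((D : ℝ) ^ k * r) := Iff.rfl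

lemma DI_of_int {D : ℕ} {r : ℝ} (h : IsIntegral ℤ r) : r ∈ DI D := ⟨0, by simpa using h⟩

lemma DI_of_sq {D : ℕ} {r : ℝ} (h : r ^ 2 ∈ DI D) : r ∈ DI D := by
  obtain ⟨k, hk⟩ := h
  refine ⟨k, ?_⟩
  have hD : IsIntegral ℤ (D : ℝ) := isIntegral_algebraMap (R := ℤ) (x := (D : ℤ))
  apply IsIntegral.of_pow (n := 2) (by norm_num)
  have : ((D : ℝ) ^ k * r) ^ 2 = (D : ℝ) ^ k * ((D : ℝ) ^ k * r ^ 2) := by ring
  rw [this]
  exact (hD.pow k).mul hk

lemma DI_mono {D D' : ℕ} (h : D ∣ D') : DI D ≤ DI D' := by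
  rintro r ⟨k, hk⟩
  obtain ⟨c, rfl⟩ := h
  refine ⟨k, ?_⟩
  have hc : IsIntegral ℤ (c : ℝ) := isIntegral_algebraMap (R := ℤ) (x := (c : ℤ))
  have : (((D * c : ℕ) : ℝ)) ^ k * r = (c : ℝ) ^ k * ((D : ℝ) ^ k * r) := by push_cast; ring
  rw [this]
  exact (hc.pow k).mul hk

lemma DI_inv {D n : ℕ} (hn : n ≠ 0) (h : n ∣ D) : ((n : ℝ))⁻¹ ∈ DI D := by
  obtain ⟨c, rfl⟩ := h
  refine ⟨1, ?_⟩
  have hc : IsIntegral ℤ (c : ℝ) := isIntegral_algebraMap (R := ℤ) (x := (c : ℤ))
  have : (((n * c : ℕ) : ℝ)) ^ 1 * (n : ℝ)⁻¹ = c := by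
    have : (n : ℝ) ≠ 0 := Nat.cast_ne_zero.2 hn
    push_cast; field_simp
  rw [this]; exact hc

lemma isIntegral_ringHom {E E' : IntermediateField ℚ ℝ} (σ : E →+* E') {x : ℝ} (hx : x ∈ E)
    (h : IsIntegral ℤ x) : IsIntegral ℤ ((σ ⟨x, hx⟩ : E') : ℝ) := by
  have h1 : IsIntegral ℤ (⟨x, hx⟩ : E) :=
    (isIntegral_algebraMap_iff (algebraMap E ℝ).injective).1 h
  have h2 := h1.map (σ.toIntAlgHom)
  exact h2.map (algebraMap E' ℝ).toIntAlgHom

lemma DI_ringHom {D : ℕ} {E E' : IntermediateField ℚ ℝ} (σ : E →+* E') {x : ℝ} (hx : x ∈ E)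
    (h : x ∈ DI D) : ((σ ⟨x, hx⟩ : E') : ℝ) ∈ DI D := by
  obtain ⟨k, hk⟩ := h
  refine ⟨k, ?_⟩
  have hD : (D : ℝ) ^ k ∈ E := pow_mem (_root_.natCast_mem E D) k
  have h1 := isIntegral_ringHom σ (mul_mem hD hx) hk
  have h2 : (⟨(D : ℝ) ^ k * x, mul_mem hD hx⟩ : E) = (D : E) ^ k * ⟨x, hx⟩ := by
    apply Subtype.ext
    push_cast
    rfl
  rw [h2, map_mul, map_pow, map_natCast] at h1
  push_cast at h1
  exact h1

/-- `x ∈ E` is locally a unit times a square at the primes not dividing `D`. -/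
def Ev (D : ℕ) (E : IntermediateField ℚ ℝ) (x : ℝ) : Prop :=
  ∃ (ι : Type) (_ : Fintype ι) (y c : ι → ℝ), (∀ i, y i ∈ E) ∧ (∀ i, c i ∈ E) ∧
    (∀ i, c i ∈ DI D) ∧ (∀ i, x * y i ^ 2 ∈ DI D) ∧ ∑ i, c i * (x * y i ^ 2) = 1

lemma Ev.mono {D : ℕ} {E E' : IntermediateField ℚ ℝ} (h : E ≤ E') {x : ℝ} (hx : Ev D E x) :
    Ev D E' x := by
  obtain ⟨ι, _, y, c, h1, h2, h3, h4, h5⟩ := hx
  exact ⟨ι, _, y, c, fun i => h (h1 i), fun i => h (h2 i), h3, h4, h5⟩

lemma Ev.mono_D {D D' : ℕ} (h : D ∣ D') {E : IntermediateField ℚ ℝ} {x : ℝ} (hx : Ev D E x) :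
    Ev D' E x := by
  obtain ⟨ι, _, y, c, h1, h2, h3, h4, h5⟩ := hx
  exact ⟨ι, _, y, c, h1, h2, fun i => DI_mono h (h3 i), fun i => DI_mono h (h4 i), h5⟩

lemma Ev.mul {D : ℕ} {E : IntermediateField ℚ ℝ} {x x' : ℝ} (hx : Ev D E x) (hx' : Ev D E x') :
    Ev D E (x * x') := by
  obtain ⟨ι, _, y, c, h1, h2, h3, h4, h5⟩ := hx
  obtain ⟨ι', _, y', c', h1', h2', h3', h4', h5'⟩ := hx'
  refine ⟨ι × ι', inferInstance, fun i => y i.1 * y' i.2, fun i => c i.1 * c' i.2,
    fun i => mul_mem (h1 _) (h1' _), fun i => mul_mem (h2 _) (h2' _),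
    fun i => mul_mem (h3 _) (h3' _), fun i => ?_, ?_⟩
  · have : x * x' * (y i.1 * y' i.2) ^ 2 = (x * y i.1 ^ 2) * (x' * y' i.2 ^ 2) := by ring
    rw [this]
    exact mul_mem (h4 _) (h4' _)
  · have : (∑ i, c i * (x * y i ^ 2)) * (∑ j, c' j * (x' * y' j ^ 2)) = 1 := by
      rw [h5, h5', one_mul]
    rw [Finset.sum_mul_sum] at this
    rw [Fintype.sum_prod_type]
    rw [← this]
    refine Finset.sum_congr rfl fun i _ => Finset.sum_congr rfl fun j _ => by ring

lemma Ev.sq {D : ℕ} {E : IntermediateField ℚ ℝ} {s : ℝ} (hs : s ∈ E) (hs0 : s ≠ 0) :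
    Ev D E (s ^ 2) := by
  refine ⟨Unit, inferInstance, fun _ => s⁻¹, fun _ => 1, fun _ => inv_mem hs, fun _ => one_mem _,
    fun _ => one_mem _, fun _ => ?_, ?_⟩
  · have : s ^ 2 * s⁻¹ ^ 2 = 1 := by field_simp
    rw [this]; exact one_mem _
  · have : s ^ 2 * s⁻¹ ^ 2 = 1 := by field_simp
    simp only [Finset.univ_unique, Finset.sum_singleton, one_mul]
    exact this

lemma Ev.unit {D : ℕ} {E : IntermediateField ℚ ℝ} {x : ℝ} (hx : x ∈ E) (hx0 : x ≠ 0)
    (h : x ∈ DI D) (h' : x⁻¹ ∈ DI D) : Ev D E x := by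
  refine ⟨Unit, inferInstance, fun _ => 1, fun _ => x⁻¹, fun _ => one_mem _,
    fun _ => inv_mem hx, fun _ => h', fun _ => by simpa using h, ?_⟩
  simp [hx0]

lemma Ev.inv {D : ℕ} {E : IntermediateField ℚ ℝ} {x : ℝ} (hx : x ∈ E) (hx0 : x ≠ 0)
    (h : Ev D E x) : Ev D E x⁻¹ := by
  have h1 := h.mul (Ev.sq (D := D) (inv_mem hx) (inv_ne_zero hx0))
  have h2 : x * x⁻¹ ^ 2 = x⁻¹ := by field_simp
  rwa [h2] at h1

lemma Ev.ringHom {D : ℕ} {E E' : IntermediateField ℚ ℝ} (σ : E →+* E') {x : ℝ} (hx : x ∈ E)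
    (h : Ev D E x) : Ev D E' ((σ ⟨x, hx⟩ : E') : ℝ) := by
  obtain ⟨ι, hι, y, c, h1, h2, h3, h4, h5⟩ := h
  have key : ∀ i, (⟨x * y i ^ 2, mul_mem hx (pow_mem (h1 i) 2)⟩ : E) =
      ⟨x, hx⟩ * ⟨y i, h1 i⟩ ^ 2 := fun i => rfl
  refine ⟨ι, hι, fun i => ((σ ⟨y i, h1 i⟩ : E') : ℝ), fun i => ((σ ⟨c i, h2 i⟩ : E') : ℝ),
    fun i => (σ _).2, fun i => (σ _).2, fun i => DI_ringHom σ _ (h3 i), fun i => ?_, ?_⟩
  · have := DI_ringHom σ (mul_mem hx (pow_mem (h1 i) 2)) (h4 i)
    rw [key, map_mul, map_pow] at this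
    exact this
  · have h6 : (∑ i, (⟨c i, h2 i⟩ : E) * (⟨x, hx⟩ * ⟨y i, h1 i⟩ ^ 2)) = 1 := by
      apply Subtype.ext
      push_cast
      exact h5
    have h7 := congrArg σ h6
    rw [map_sum, map_one] at h7
    have h8 := congrArg (fun z : E' => (z : ℝ)) h7
    simp only [map_mul, map_pow] at h8
    push_cast at h8
    exact h8

/-- **Descent.** If `x ∈ E` is even outside `D` in the quadratic extension `E(θ)`, which is
unramified outside `D`, then it is so in `E`. -/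
theorem Ev.down {D : ℕ} {E : IntermediateField ℚ ℝ} {θ : ℝ} (hd : θ ^ 2 ∈ E) (hθ : θ ∉ E)
    (h2 : ((2 : ℕ) : ℝ)⁻¹ ∈ DI D) (hθD : θ ∈ DI D) (hθD' : (θ ^ 2)⁻¹ ∈ DI D) {x : ℝ} (hx : x ∈ E)
    (h : Ev D (ext E θ) x) : Ev D E x := by
  have hθ0 : θ ≠ 0 := by rintro rfl; exact hθ (zero_mem _)
  obtain ⟨σ, hσ⟩ := exists_conj hd hθ
  obtain ⟨ι, _, y, c, e1, e2, e3, e4, e5⟩ := h
  choose a ha b hb hab using fun i => (mem_ext_iff hd hθ).1 (e1 i)
  have hle := le_ext E θ
  have hθm := self_mem_ext E θ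
  -- σ fixes E
  have hσE : ∀ z (hz : z ∈ E), ((σ ⟨z, hle hz⟩ : ext E θ) : ℝ) = z := by
    intro z hz
    have h1 := hσ z hz 0 (zero_mem _) (by rw [zero_mul, add_zero]; exact hle hz)
    have h2 : (⟨z + 0 * θ, by rw [zero_mul, add_zero]; exact hle hz⟩ : ext E θ) =
        ⟨z, hle hz⟩ := Subtype.ext (by ring)
    rw [h2] at h1
    rw [h1]; ring
  -- the conjugates
  have f1 : ∀ i, x * (a i - b i * θ) ^ 2 ∈ DI D := by
    intro i
    have h1 := DI_ringHom σ (mul_mem (hle hx) (pow_mem (e1 i) 2)) (e4 i)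
    have h2 : (⟨x * y i ^ 2, mul_mem (hle hx) (pow_mem (e1 i) 2)⟩ : ext E θ) =
        ⟨x, hle hx⟩ * ⟨a i + b i * θ, by rw [← hab]; exact e1 i⟩ ^ 2 := by
      apply Subtype.ext
      push_cast
      rw [hab]
    rw [h2, map_mul, map_pow] at h1
    push_cast at h1
    rw [hσE x hx, hσ _ (ha i) _ (hb i)] at h1
    exact h1
  have f0 : ∀ i, x * (a i + b i * θ) ^ 2 ∈ DI D := by
    intro i; rw [← hab]; exact e4 i
  have f2 : ∀ i, x * ((a i + b i * θ) * (a i - b i * θ)) ∈ DI D := by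
    intro i
    apply DI_of_sq
    have : (x * ((a i + b i * θ) * (a i - b i * θ))) ^ 2 =
        (x * (a i + b i * θ) ^ 2) * (x * (a i - b i * θ) ^ 2) := by ring
    rw [this]
    exact mul_mem (f0 i) (f1 i)
  have h4 : ((4 : ℝ))⁻¹ ∈ DI D := by
    have h5 := mul_mem h2 h2
    have h6 : ((2 : ℕ) : ℝ)⁻¹ * ((2 : ℕ) : ℝ)⁻¹ = 4⁻¹ := by norm_num
    rwa [h6] at h5
  have h2' : (2 : ℝ) ∈ DI D := by
    have := natCast_mem (DI D) 2
    exact_mod_cast this
  have fa : ∀ i, x * a i ^ 2 ∈ DI D := by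
    intro i
    have : x * a i ^ 2 = 4⁻¹ * (x * (a i + b i * θ) ^ 2 + x * (a i - b i * θ) ^ 2 +
        2 * (x * ((a i + b i * θ) * (a i - b i * θ)))) := by ring
    rw [this]
    exact mul_mem h4 (add_mem (add_mem (f0 i) (f1 i)) (mul_mem h2' (f2 i)))
  have fb : ∀ i, x * b i ^ 2 ∈ DI D := by
    intro i
    have : x * b i ^ 2 = 4⁻¹ * (θ ^ 2)⁻¹ * (x * (a i + b i * θ) ^ 2 + x * (a i - b i * θ) ^ 2 -
        2 * (x * ((a i + b i * θ) * (a i - b i * θ)))) := by field_simp; ring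
    rw [this]
    exact mul_mem (mul_mem h4 hθD') (sub_mem (add_mem (f0 i) (f1 i)) (mul_mem h2' (f2 i)))
  have fab : ∀ i, x * (a i * b i) ∈ DI D := by
    intro i
    apply DI_of_sq
    have : (x * (a i * b i)) ^ 2 = (x * a i ^ 2) * (x * b i ^ 2) := by ring
    rw [this]; exact mul_mem (fa i) (fb i)
  -- the ring of D-integers of E(θ)
  let R : Subring ℝ := DI D ⊓ (ext E θ).toSubring
  have hxm := hle hx
  let α : ι ⊕ ι → R := Sum.elim
    (fun i => ⟨x * a i ^ 2, fa i, mul_mem hxm (pow_mem (hle (ha i)) 2)⟩)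
    (fun i => ⟨x * b i ^ 2, fb i, mul_mem hxm (pow_mem (hle (hb i)) 2)⟩)
  let I : Ideal R := Ideal.span (Set.range α)
  let γ : ι → R := fun i => ⟨x * (a i * b i), fab i,
    mul_mem hxm (mul_mem (hle (ha i)) (hle (hb i)))⟩
  let cR : ι → R := fun i => ⟨c i, e3 i, e2 i⟩
  let θR : R := ⟨θ, hθD, hθm⟩
  have hα1 : ∀ i, α (Sum.inl i) ∈ I := fun i => Ideal.subset_span ⟨_, rfl⟩
  have hα2 : ∀ i, α (Sum.inr i) ∈ I := fun i => Ideal.subset_span ⟨_, rfl⟩
  have hγ : ∀ i, γ i ∈ I.radical := by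
    intro i
    refine ⟨2, ?_⟩
    have : γ i ^ 2 = α (Sum.inl i) * α (Sum.inr i) := by
      apply Subtype.ext
      change (x * (a i * b i)) ^ 2 = (x * a i ^ 2) * (x * b i ^ 2)
      ring
    rw [this]
    exact I.mul_mem_left _ (hα2 i)
  have hone : (1 : R) = ∑ i, cR i * (α (Sum.inl i) + θR ^ 2 * α (Sum.inr i) +
      2 * θR * γ i) := by
    apply Subtype.ext
    push_cast
    rw [← e5]
    refine Finset.sum_congr rfl fun i _ => ?_
    change c i * (x * y i ^ 2) = c i * (x * a i ^ 2 + θ ^ 2 * (x * b i ^ 2) +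
      2 * θ * (x * (a i * b i)))
    rw [hab]; ring
  have htop : I.radical = ⊤ := by
    rw [Ideal.eq_top_iff_one, hone]
    refine Ideal.sum_mem _ fun i _ => Ideal.mul_mem_left _ _ ?_
    exact Ideal.add_mem _ (Ideal.add_mem _ (Ideal.le_radical (hα1 i))
      (Ideal.mul_mem_left _ _ (Ideal.le_radical (hα2 i)))) (Ideal.mul_mem_left _ _ (hγ i))
  rw [Ideal.radical_eq_top] at htop
  have h1I : (1 : R) ∈ I := by rw [htop]; exact Submodule.mem_top
  obtain ⟨r, hr⟩ := (Ideal.mem_span_range_iff_exists_fun (v := α)).1 h1I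
  -- descend the coefficients
  choose s hs t ht hst using fun j => (mem_ext_iff hd hθ).1 (r j).2.2
  have hr' : ∑ j, ((r j : ℝ)) * (α j : ℝ) = 1 := by
    have := congrArg (fun z : R => (z : ℝ)) hr
    push_cast at this
    exact this
  have hαE : ∀ j, ((α j : R) : ℝ) ∈ E := by
    rintro (i | i)
    · exact mul_mem hx (pow_mem (ha i) 2)
    · exact mul_mem hx (pow_mem (hb i) 2)
  have hsum : ∑ j, s j * (α j : ℝ) = 1 := by
    have h6 : (∑ j, s j * (α j : ℝ)) + (∑ j, t j * (α j : ℝ)) * θ = 1 + 0 * θ := by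
      rw [Finset.sum_mul, ← Finset.sum_add_distrib, zero_mul, add_zero, ← hr']
      refine Finset.sum_congr rfl fun j _ => ?_
      rw [hst]; ring
    exact (coords_unique hθ (sum_mem fun j _ => mul_mem (hs j) (hαE j))
      (sum_mem fun j _ => mul_mem (ht j) (hαE j)) (one_mem _) (zero_mem _) h6).1
  have hsD : ∀ j, s j ∈ DI D := by
    intro j
    have h7 : s j + t j * θ ∈ DI D := by rw [← hst]; exact (r j).2.1
    have h8 : s j - t j * θ ∈ DI D := by
      have h9 := DI_ringHom σ (r j).2.2 (r j).2.1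
      have h10 : (⟨(r j : ℝ), (r j).2.2⟩ : ext E θ) = ⟨s j + t j * θ, by
        rw [← hst]; exact (r j).2.2⟩ := Subtype.ext (hst j)
      rw [h10, hσ _ (hs j) _ (ht j)] at h9
      exact h9
    have : s j = ((2 : ℕ) : ℝ)⁻¹ * ((s j + t j * θ) + (s j - t j * θ)) := by
      push_cast; ring
    rw [this]
    exact mul_mem h2 (add_mem h7 h8)
  refine ⟨ι ⊕ ι, inferInstance, Sum.elim a b, s, ?_, hs, hsD, ?_, ?_⟩
  · rintro (i | i)
    · exact ha i
    · exact hb i
  · rintro (i | i)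
    · exact fa i
    · exact fb i
  · rw [← hsum]
    refine Finset.sum_congr rfl fun j _ => ?_
    rcases j with i | i <;> rfl

end Pool.Agent.STb
end

section

/-!
# Descent of classes modulo squares along 2-extensions
-/

open groupCohomology

namespace Pool.Agent.STc

section grp

variable {G : Type*} [Group G]

open Classical in
/-- The elements of odd order. -/
noncomputable def odds (G : Type*) [Group G] [Fintype G] : Finset G :=
  Finset.univ.filter fun g => Odd (orderOf g)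

variable [Fintype G]

lemma mem_odds {g : G} : g ∈ odds G ↔ Odd (orderOf g) := by
  unfold odds; simp

lemma one_mem_odds : (1 : G) ∈ odds G := by
  rw [mem_odds, orderOf_one]; exact odd_one

lemma mem_odds_iff {g : G} : g ∈ odds G ↔ ∃ n, Odd n ∧ g ^ n = 1 := by
  rw [mem_odds]
  constructor
  · intro h; exact ⟨_, h, pow_orderOf_eq_one g⟩
  · rintro ⟨n, hn, h⟩
    exact Odd.of_dvd_nat hn (orderOf_dvd_of_pow_eq_one h)

lemma mul_mem_odds (hab : ∀ a b : G, a * b = b * a) {g h : G} (hg : g ∈ odds G)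
    (hh : h ∈ odds G) : g * h ∈ odds G := by
  obtain ⟨n, hn, h1⟩ := mem_odds_iff.1 hg
  obtain ⟨m, hm, h2⟩ := mem_odds_iff.1 hh
  refine mem_odds_iff.2 ⟨n * m, hn.mul hm, ?_⟩
  have hc : Commute g h := hab g h
  rw [hc.mul_pow, pow_mul, h1, one_pow, one_mul, mul_comm n m, pow_mul, h2, one_pow]

lemma inv_mem_odds {g : G} (hg : g ∈ odds G) : g⁻¹ ∈ odds G := by
  rw [mem_odds, orderOf_inv]; exact mem_odds.1 hg

/-- the subgroup of the elements of odd order -/
noncomputable def oddSub (hab : ∀ a b : G, a * b = b * a) : Subgroup G where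
  carrier := {g | g ∈ odds G}
  one_mem' := one_mem_odds
  mul_mem' := fun ha hb => mul_mem_odds hab ha hb
  inv_mem' := fun h => inv_mem_odds h

lemma odd_card_odds (hab : ∀ a b : G, a * b = b * a) : Odd (odds G).card := by
  classical
  have h1 : (odds G).card = Nat.card (oddSub hab) := by
    have : Nat.card (oddSub hab) = Nat.card {g : G // g ∈ odds G} := rfl
    rw [this, Nat.card_eq_fintype_card, Fintype.card_coe]
  rw [h1]
  by_contra hcon
  rw [Nat.not_odd_iff_even, even_iff_two_dvd] at hcon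
  have : Fact (Nat.Prime 2) := ⟨Nat.prime_two⟩
  obtain ⟨x, hx⟩ := exists_prime_orderOf_dvd_card' 2 hcon
  have h2 : Odd (orderOf (x : G)) := mem_odds.1 x.2
  rw [← Subgroup.orderOf_coe] at hx
  rw [hx] at h2
  revert h2; decide

lemma image_mul_odds (hab : ∀ a b : G, a * b = b * a) {g : G} (hg : g ∈ odds G) {M : Type*}
    [CommMonoid M] (f : G → M) : ∏ h ∈ odds G, f (g * h) = ∏ h ∈ odds G, f h := by
  refine Finset.prod_bij (fun h _ => g * h) (fun h hh => mul_mem_odds hab hg hh) ?_ ?_ ?_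
  · intro a _ b _ h; exact mul_left_cancel h
  · intro b hb
    exact ⟨g⁻¹ * b, mul_mem_odds hab (inv_mem_odds hg) hb, by group⟩
  · intro a _; rfl

/-- The elements of odd order of a quotient by a 2-group. -/
lemma prod_odds_map {H : Type*} [Group H] [Fintype H] (hab : ∀ a b : G, a * b = b * a)
    (ρ : G →* H) (hρ : Function.Surjective ρ) (hker : ∀ g, ρ g = 1 → ∃ j : ℕ, g ^ (2 ^ j) = 1)
    {M : Type*} [CommMonoid M] (f : H → M) : ∏ g ∈ odds G, f (ρ g) = ∏ h ∈ odds H, f h := by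
  refine Finset.prod_bij (fun g _ => ρ g) ?_ ?_ ?_ (fun g _ => rfl)
  · intro g hg
    obtain ⟨n, hn, h1⟩ := mem_odds_iff.1 hg
    exact mem_odds_iff.2 ⟨n, hn, by rw [← map_pow, h1, map_one]⟩
  · intro a ha b hb h
    have h1 : ρ (a * b⁻¹) = 1 := by rw [map_mul, map_inv, h, mul_inv_cancel]
    obtain ⟨j, hj⟩ := hker _ h1
    obtain ⟨n, hn, h2⟩ := mem_odds_iff.1 (mul_mem_odds hab ha (inv_mem_odds hb))
    have h3 : a * b⁻¹ = 1 := by
      rw [← orderOf_eq_one_iff]
      have h4 := orderOf_dvd_of_pow_eq_one hj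
      have h5 := orderOf_dvd_of_pow_eq_one h2
      have hcop : Nat.Coprime (2 ^ j) n := by
        apply Nat.Coprime.pow_left
        exact (Nat.coprime_two_left).2 hn
      exact Nat.eq_one_of_dvd_coprimes hcop h4 h5
    exact mul_inv_eq_one.1 h3
  · intro h hh
    obtain ⟨n, hn, h1⟩ := mem_odds_iff.1 hh
    obtain ⟨g, rfl⟩ := hρ h
    obtain ⟨j, hj⟩ := hker (g ^ n) (by rw [map_pow, h1])
    have hcop : Nat.Coprime (2 ^ j) n := by
      apply Nat.Coprime.pow_left
      exact (Nat.coprime_two_left).2 hn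
    -- choose m with m * 2 ^ j ≡ 1 mod n
    obtain ⟨m, hm⟩ : ∃ m : ℕ, ∃ k : ℕ, 2 ^ j * m = 1 + n * k := by
      by_cases hn1 : n = 1
      · refine ⟨1, 2 ^ j - 1, ?_⟩
        have : 1 ≤ 2 ^ j := Nat.one_le_two_pow
        rw [hn1]; omega
      have hn0 : 1 < n := by
        rcases hn with ⟨k, hk⟩; omega
      obtain ⟨m, -, hm⟩ := Nat.exists_mul_mod_eq_one_of_coprime hcop hn0
      refine ⟨m, (2 ^ j * m) / n, ?_⟩
      have := Nat.mod_add_div (2 ^ j * m) n
      rw [hm] at this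
      omega
    obtain ⟨k, hk⟩ := hm
    refine ⟨g ^ (2 ^ j * m), ?_, ?_⟩
    · apply mem_odds_iff.2
      refine ⟨n, hn, ?_⟩
      have : 2 ^ j * m * n = n * 2 ^ j * m := by ring
      rw [← pow_mul, this, pow_mul, pow_mul, hj, one_pow]
    · rw [map_pow, hk, pow_add, pow_one, pow_mul, h1, one_pow, mul_one]

end grp

section desc

variable {K F : Type*} [Field K] [Field F] [Algebra K F] [FiniteDimensional K F] [IsGalois K F]

/-- Hilbert 90 without the cocycle of signs. -/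
lemma exists_desc_one (hab : ∀ σ τ : F ≃ₐ[K] F, σ * τ = τ * σ) (E : IntermediateField K F) {x : F}
    (hx : x ≠ 0) (h1 : ∀ σ : F ≃ₐ[K] F, σ ∈ E.fixingSubgroup → IsSquare (x * σ x)) (δ : F ≃ₐ[K] F) :
    ∃ e ∈ E, e ≠ 0 ∧ IsSquare (x * δ x * e) := by
  have hd : ∀ σ : F ≃ₐ[E] F, ∃ d : F, d ≠ 0 ∧ σ x = x * d ^ 2 := by
    intro σ
    have hmem : σ.restrictScalars K ∈ E.fixingSubgroup := by
      rw [IntermediateField.mem_fixingSubgroup_iff]
      intro y hy
      exact σ.commutes ⟨y, hy⟩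
    obtain ⟨s, hs⟩ := h1 _ hmem
    have hσ : (σ.restrictScalars K) x = σ x := rfl
    rw [hσ] at hs
    have hσx : σ x ≠ 0 := by simpa using hx
    have hs0 : s ≠ 0 := by
      rintro rfl
      rw [mul_zero] at hs
      exact (mul_ne_zero hx hσx) hs
    refine ⟨s / x, div_ne_zero hs0 hx, ?_⟩
    rw [div_pow, pow_two s, ← hs]
    field_simp
  choose d hd0 hd1 using hd
  -- the cocycle
  have hcomm : ∀ (σ : F ≃ₐ[E] F) (y : F), δ (σ y) = σ (δ y) := by
    intro σ y
    have := congrArg (fun τ : F ≃ₐ[K] F => τ y) (hab δ (σ.restrictScalars K))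
    exact this
  let f : (F ≃ₐ[E] F) → Fˣ := fun σ => Units.mk0 (δ (d σ) / d σ)
    (div_ne_zero (by simpa using hd0 σ) (hd0 σ))
  have hf : IsMulCocycle₁ f := by
    intro σ τ
    apply Units.ext
    have e1 : (d (σ * τ)) ^ 2 = (d σ * σ (d τ)) ^ 2 := by
      have h3 : (σ * τ) x = x * (d (σ * τ)) ^ 2 := hd1 _
      have h4 : (σ * τ) x = σ (τ x) := rfl
      rw [h4, hd1 τ, map_mul, map_pow, hd1 σ] at h3
      apply mul_left_cancel₀ hx
      rw [← h3]
      ring
    have hval : ∀ g : F ≃ₐ[E] F, ∀ y : Fˣ, ((g • y : Fˣ) : F) = g (y : F) := fun g y => rfl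
    have goal : δ (d (σ * τ)) / d (σ * τ) = σ (δ (d τ) / d τ) * (δ (d σ) / d σ) := by
      have hst : σ (d τ) ≠ 0 := by simpa using hd0 τ
      rcases sq_eq_sq_iff_eq_or_eq_neg.1 e1 with h | h
      · rw [h, map_mul, map_div₀, hcomm]
        have := hd0 σ
        field_simp
      · rw [h, map_neg, map_mul, map_div₀, hcomm]
        have := hd0 σ
        field_simp
    exact goal
  obtain ⟨c, hc⟩ := isMulCoboundary₁_of_isMulCocycle₁_of_aut_to_units f hf
  have hc' : ∀ σ : F ≃ₐ[E] F, σ (c : F) = c * (δ (d σ) / d σ) := by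
    intro σ
    have h3 := congrArg Units.val (hc σ)
    have h4 : ((σ • c / c : Fˣ) : F) = σ (c : F) / c := by
      rw [Units.val_div_eq_div_val]
      rfl
    rw [h4] at h3
    have h5 : (f σ : F) = δ (d σ) / d σ := rfl
    rw [h5] at h3
    rw [← h3]
    have := c.ne_zero
    field_simp
  have hδx : δ x ≠ 0 := by simpa using hx
  set e : F := δ x / (x * (c : F) ^ 2) with he
  have hfix : ∀ σ : F ≃ₐ[E] F, σ e = e := by
    intro σ
    have h0 := hd0 σ
    have h1' : δ (d σ) ≠ 0 := by simpa using h0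
    have h2' : (c : F) ≠ 0 := c.ne_zero
    rw [he, map_div₀, map_mul, map_pow, hc', ← hcomm, hd1, map_mul, map_pow]
    field_simp
  have hE : e ∈ E := by
    have h3 := (IsGalois.mem_bot_iff_fixed (F := E) (E := F) e).2 hfix
    rw [IntermediateField.mem_bot] at h3
    obtain ⟨y, hy⟩ := h3
    rw [← hy]
    exact y.2
  refine ⟨e, hE, div_ne_zero hδx (mul_ne_zero hx (pow_ne_zero _ c.ne_zero)), ⟨δ x / c, ?_⟩⟩
  have h2' : (c : F) ≠ 0 := c.ne_zero
  rw [he]
  field_simp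

open Classical in
/-- **Descent.** -/
theorem descent (hab : ∀ σ τ : F ≃ₐ[K] F, σ * τ = τ * σ) (E : IntermediateField K F)
    [Normal K E] {x : F} (hx : x ≠ 0)
    (h1 : ∀ σ : F ≃ₐ[K] F, σ ∈ E.fixingSubgroup → IsSquare (x * σ x))
    (h2 : IsSquare (∏ g ∈ odds (F ≃ₐ[K] F), g x)) :
    ∃ b ∈ E, b ≠ 0 ∧ IsSquare (x * b) ∧ ∃ c ∈ E, c ≠ 0 ∧
      ∏ g ∈ odds (F ≃ₐ[K] F), g b = c ^ 2 := by
  choose e heE he0 he using fun δ => exists_desc_one hab E hx h1 δ
  set Δ := odds (F ≃ₐ[K] F) with hΔ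
  have hodd : Odd Δ.card := odd_card_odds hab
  set b₁ : F := ∏ δ ∈ Δ, e δ with hb₁
  have hb₁E : b₁ ∈ E := prod_mem fun δ _ => heE δ
  have hb₁0 : b₁ ≠ 0 := Finset.prod_ne_zero_iff.2 fun δ _ => he0 δ
  have hNx0 : ∏ g ∈ Δ, g x ≠ 0 := Finset.prod_ne_zero_iff.2 fun δ _ => by simpa using hx
  have h3 : IsSquare (x ^ Δ.card * (∏ g ∈ Δ, g x) * b₁) := by
    have : x ^ Δ.card * (∏ g ∈ Δ, g x) * b₁ = ∏ δ ∈ Δ, (x * δ x * e δ) := by
      rw [Finset.prod_mul_distrib, Finset.prod_mul_distrib, Finset.prod_const]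
    rw [this]
    have h4 : ∀ S : Finset (F ≃ₐ[K] F), IsSquare (∏ δ ∈ S, (x * δ x * e δ)) := by
      intro S
      induction S using Finset.induction_on with
      | empty => rw [Finset.prod_empty]; exact IsSquare.one
      | insert a S ha ih => rw [Finset.prod_insert ha]; exact (he a).mul ih
    exact h4 Δ
  have hxb₁ : IsSquare (x * b₁) := by
    obtain ⟨k, hk⟩ := hodd
    rw [hk] at h3
    obtain ⟨s, hs⟩ := h3
    obtain ⟨t, ht⟩ := h2
    have ht0 : t ≠ 0 := by rintro rfl; exact hNx0 (by rw [ht, mul_zero])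
    refine ⟨s / (t * x ^ k), ?_⟩
    rw [div_mul_div_comm, ← hs, ht]
    field_simp
    ring
  -- the norm of b₁
  set N : F := ∏ g ∈ Δ, g b₁ with hN
  have hNE : N ∈ E := prod_mem fun g _ => by
    have hn : Normal K E := inferInstance
    rw [IntermediateField.normal_iff_forall_map_le'] at hn
    exact hn g ⟨b₁, hb₁E, rfl⟩
  have hN0 : N ≠ 0 := Finset.prod_ne_zero_iff.2 fun δ _ => by simpa using hb₁0
  have hNsq : IsSquare N := by
    obtain ⟨s, hs⟩ := hxb₁
    obtain ⟨t, ht⟩ := h2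
    have ht0 : t ≠ 0 := by rintro rfl; exact hNx0 (by rw [ht, mul_zero])
    have h5 : (∏ g ∈ Δ, g x) * N = (∏ g ∈ Δ, g s) * ∏ g ∈ Δ, g s := by
      rw [hN, ← Finset.prod_mul_distrib, ← Finset.prod_mul_distrib]
      refine Finset.prod_congr rfl fun g _ => ?_
      rw [← map_mul, hs, map_mul]
    refine ⟨(∏ g ∈ Δ, g s) / t, ?_⟩
    rw [div_mul_div_comm, ← h5, ht]
    field_simp
  have hNN : ∀ g ∈ Δ, g N = N := by
    intro g hg
    rw [hN, map_prod]
    have := image_mul_odds hab hg (fun h : F ≃ₐ[K] F => h b₁)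
    simpa using this
  obtain ⟨k, hk⟩ := hodd
  refine ⟨b₁ * N, mul_mem hb₁E hNE, mul_ne_zero hb₁0 hN0, ?_, N ^ (k + 1), pow_mem hNE _,
    pow_ne_zero _ hN0, ?_⟩
  · rw [← mul_assoc]; exact hxb₁.mul hNsq
  · have h6 : ∏ g ∈ Δ, g (b₁ * N) = N * N ^ Δ.card := by
      rw [Finset.prod_congr rfl fun g hg => by rw [map_mul, hNN g hg], Finset.prod_mul_distrib,
        Finset.prod_const]
    rw [h6, hk]
    ring

end desc

end Pool.Agent.STc
end

section

/-!
# Devissage
-/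

namespace Pool.Agent.STc

section dev

variable {R : Type*} [CommRing R] {𝔞 : Ideal R}

lemma dev_one {s : R} {k : ℕ} {Q : R → Prop} (hQ : ∀ θ, Q θ → ∀ n, Q (s ^ n * θ))
    (hnil : ∃ N, s ^ N ∈ 𝔞)
    (h : ∀ θ, Q θ → s ^ (k + 1) * θ ∈ 𝔞 → s ^ k * θ ∈ 𝔞) (θ : R) (hθ : Q θ) : s ^ k * θ ∈ 𝔞 := by
  obtain ⟨N, hN⟩ := hnil
  have key : ∀ n, s ^ (k + n) * θ ∈ 𝔞 → s ^ k * θ ∈ 𝔞 := by
    intro n
    induction n with
    | zero => intro h; exact h
    | succ n ih =>
      intro h1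
      apply ih
      have h2 := h (s ^ n * θ) (hQ θ hθ n) (by
        have : s ^ (k + 1) * (s ^ n * θ) = s ^ (k + (n + 1)) * θ := by ring
        rw [this]; exact h1)
      have : s ^ (k + n) * θ = s ^ k * (s ^ n * θ) := by ring
      rw [this]; exact h2
  apply key N
  rw [pow_add, mul_assoc]
  exact 𝔞.mul_mem_left _ (𝔞.mul_mem_right _ hN)

/-- **Devissage.** -/
theorem devissage (S : Finset R) {a : ℕ} (hS : ∀ x ∈ S, x ^ a = 0) {s : R} {k : ℕ}
    (hnil : ∃ N, s ^ N ∈ 𝔞)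
    (h : ∀ θ, (∀ x ∈ S, x * θ ∈ 𝔞) → s ^ (k + 1) * θ ∈ 𝔞 → s ^ k * θ ∈ 𝔞) :
    s ^ (k * a ^ S.card) ∈ 𝔞 := by
  classical
  have key : ∀ A : Finset R, A ⊆ S → ∀ θ, (∀ x ∈ S \ A, x * θ ∈ 𝔞) →
      s ^ (k * a ^ A.card) * θ ∈ 𝔞 := by
    intro A
    induction A using Finset.induction_on with
    | empty =>
      intro _ θ hθ
      rw [Finset.card_empty, pow_zero, mul_one]
      apply dev_one (Q := fun θ => ∀ x ∈ S, x * θ ∈ 𝔞) _ hnil h θ
      · intro x hx; exact hθ x (by simpa using hx)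
      · intro θ hθ n x hx
        have : x * (s ^ n * θ) = s ^ n * (x * θ) := by ring
        rw [this]; exact 𝔞.mul_mem_left _ (hθ x hx)
    | insert y A hy ih =>
      intro hA θ hθ
      have hyS : y ∈ S := hA (Finset.mem_insert_self _ _)
      have hA' : A ⊆ S := fun z hz => hA (Finset.mem_insert_of_mem hz)
      rw [Finset.card_insert_of_notMem hy]
      set M := k * a ^ A.card with hM
      have key2 : ∀ i ≤ a, s ^ (M * i) * (y ^ (a - i) * θ) ∈ 𝔞 := by
        intro i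
        induction i with
        | zero =>
          intro _
          rw [Nat.sub_zero, hS y hyS, zero_mul, mul_zero]; exact 𝔞.zero_mem
        | succ i ih2 =>
          intro hi
          have h1 := ih2 (by omega)
          have h2 : ∀ x ∈ S \ A, x * (s ^ (M * i) * (y ^ (a - (i + 1)) * θ)) ∈ 𝔞 := by
            intro x hx
            rw [Finset.mem_sdiff] at hx
            by_cases hxy : x = y
            · subst hxy
              have e1 : a - i = (a - (i + 1)) + 1 := by omega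
              have : x * (s ^ (M * i) * (x ^ (a - (i + 1)) * θ)) =
                  s ^ (M * i) * (x ^ (a - i) * θ) := by
                rw [e1]; ring
              rw [this]; exact h1
            · have h3 := hθ x (by
                rw [Finset.mem_sdiff, Finset.mem_insert]
                exact ⟨hx.1, fun h => h.elim hxy hx.2⟩)
              have : x * (s ^ (M * i) * (y ^ (a - (i + 1)) * θ)) =
                  (s ^ (M * i) * y ^ (a - (i + 1))) * (x * θ) := by ring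
              rw [this]; exact 𝔞.mul_mem_left _ h3
          have h4 := ih hA' _ h2
          have : s ^ (M * (i + 1)) * (y ^ (a - (i + 1)) * θ) =
              s ^ M * (s ^ (M * i) * (y ^ (a - (i + 1)) * θ)) := by ring
          rw [this]; exact h4
      have h5 := key2 a le_rfl
      rw [Nat.sub_self, pow_zero, one_mul] at h5
      have : k * a ^ (A.card + 1) = M * a := by rw [hM]; ring
      rw [this]; exact h5
  have h6 := key S subset_rfl 1 (by simp)
  rwa [mul_one] at h6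

end dev

end Pool.Agent.STc
end

section

/-!
# Devissage in group rings
-/

namespace Pool.Agent.STc

section geom

variable {R : Type*} [CommRing R] [CharP R 2]

lemma geom_two (x : R) (n : ℕ) : ∑ i ∈ Finset.range (2 ^ n), x ^ i = (1 + x) ^ (2 ^ n - 1) := by
  induction n with
  | zero => simp
  | succ n ih =>
    have h1 : 2 ^ (n + 1) = 2 ^ n + 2 ^ n := by ring
    have h2 : 2 ^ (n + 1) - 1 = (2 ^ n - 1) + 2 ^ n := by
      have : 0 < 2 ^ n := by positivity
      omega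
    rw [h1, Finset.sum_range_add, ih, ← h1, h2, pow_add]
    have h3 : ∑ i ∈ Finset.range (2 ^ n), x ^ (2 ^ n + i) =
        x ^ 2 ^ n * (1 + x) ^ (2 ^ n - 1) := by
      rw [← ih, Finset.mul_sum]
      exact Finset.sum_congr rfl fun i _ => pow_add _ _ _
    rw [h3, add_pow_char_pow, one_pow]
    ring

end geom

section grp

variable {G : Type*} [CommGroup G]

instance : CharP (MonoidAlgebra (ZMod 2) G) 2 :=
  charP_of_injective_algebraMap (algebraMap (ZMod 2) (MonoidAlgebra (ZMod 2) G)).injective 2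

/-- the element of the group ring -/
noncomputable abbrev gr (g : G) : MonoidAlgebra (ZMod 2) G := MonoidAlgebra.single g 1

lemma gr_mul (g h : G) : gr (g * h) = gr g * gr h := by
  simp [gr, MonoidAlgebra.single_mul_single]

lemma gr_one : gr (1 : G) = 1 := rfl

lemma gr_pow (g : G) (n : ℕ) : gr (g ^ n) = gr g ^ n := by
  induction n with
  | zero => rw [pow_zero, pow_zero, gr_one]
  | succ n ih => rw [pow_succ, gr_mul, ih, pow_succ]

/-- **Devissage** in a group ring. -/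
theorem grp_devissage {t zb : G} (S : Finset G) {a k N n i : ℕ} (hS : ∀ σ ∈ S, σ ^ (2 ^ a) = 1)
    (hcard : S.card ≤ 2 ^ a) (ht : t ^ (2 ^ N) = 1) (hz : ∃ σ ∈ S, zb = t ^ i * σ)
    {𝔞 : Ideal (MonoidAlgebra (ZMod 2) G)}
    (h : ∀ θ, (∀ q : ℕ, ∀ σ ∈ S, (1 + gr (t ^ (2 ^ k * q) * σ)) * θ ∈ 𝔞) →
      (∑ j ∈ Finset.range (2 ^ k), gr (t ^ j)) * θ ∈ 𝔞)
    (hn : 2 ^ a * ((2 ^ k - 1) * (2 ^ a) ^ (2 ^ a)) ≤ 2 ^ n - 1) :
    ∑ j ∈ Finset.range (2 ^ n), gr (zb ^ j) ∈ 𝔞 := by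
  classical
  set s : MonoidAlgebra (ZMod 2) G := 1 + gr t with hs
  have hspow : ∀ m : ℕ, s ^ (2 ^ m) = 1 + gr (t ^ (2 ^ m)) := by
    intro m
    rw [hs, add_pow_char_pow, one_pow, gr_pow]
  have h1 := devissage (𝔞 := 𝔞) (S.image fun σ => 1 + gr σ) (a := 2 ^ a) (s := s) (k := 2 ^ k - 1)
    (by
      intro x hx
      obtain ⟨σ, hσ, rfl⟩ := Finset.mem_image.1 hx
      rw [add_pow_char_pow, one_pow, ← gr_pow, hS σ hσ, gr_one]
      exact CharTwo.add_self_eq_zero 1)
    ⟨2 ^ N, by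
      rw [hspow, ht, gr_one, CharTwo.add_self_eq_zero]
      exact 𝔞.zero_mem⟩
    (by
      intro θ hθ hθ2
      have e1 : 2 ^ k - 1 + 1 = 2 ^ k := Nat.sub_add_cancel Nat.one_le_two_pow
      rw [e1, hspow] at hθ2
      have e2 := h θ (fun q σ hσ => by
        have f1 : (1 + gr σ) * θ ∈ 𝔞 := hθ _ (Finset.mem_image_of_mem _ hσ)
        have f2 : (1 + gr (t ^ (2 ^ k * q))) * θ ∈ 𝔞 := by
          have f3 : (gr (t ^ 2 ^ k) - 1) ∣ (gr (t ^ 2 ^ k) ^ q - 1) := sub_one_dvd_pow_sub_one_aux _ _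
          have g1 : gr (t ^ 2 ^ k) - 1 = 1 + gr (t ^ 2 ^ k) := by
            rw [CharTwo.sub_eq_add, add_comm]
          have g2 : gr (t ^ 2 ^ k) ^ q - 1 = 1 + gr (t ^ (2 ^ k * q)) := by
            rw [CharTwo.sub_eq_add, add_comm, ← gr_pow, ← pow_mul]
          rw [g1, g2] at f3
          exact Ideal.mem_of_dvd _ (mul_dvd_mul_right f3 θ) hθ2
        have f4 : (1 + gr (t ^ (2 ^ k * q) * σ)) * θ =
            (1 + gr (t ^ (2 ^ k * q))) * θ + gr (t ^ (2 ^ k * q)) * ((1 + gr σ) * θ) := by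
          have g3 : gr (t ^ (2 ^ k * q)) + gr (t ^ (2 ^ k * q)) = 0 := CharTwo.add_self_eq_zero _
          rw [gr_mul]
          linear_combination (-θ) * g3
        rw [f4]
        exact 𝔞.add_mem f2 (𝔞.mul_mem_left _ f1))
      have e3 : ∑ j ∈ Finset.range (2 ^ k), gr (t ^ j) = s ^ (2 ^ k - 1) := by
        rw [hs, ← geom_two]
        exact Finset.sum_congr rfl fun j _ => gr_pow t j
      rwa [e3] at e2)
  set M := (2 ^ k - 1) * (2 ^ a) ^ (2 ^ a) with hM
  have h2 : s ^ M ∈ 𝔞 := by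
    refine Ideal.mem_of_dvd _ (pow_dvd_pow s ?_) h1
    apply Nat.mul_le_mul_left
    exact Nat.pow_le_pow_right (by positivity) (Finset.card_image_le.trans hcard)
  obtain ⟨σ, hσ, rfl⟩ := hz
  have h3 : ∑ j ∈ Finset.range (2 ^ n), gr ((t ^ i * σ) ^ j) = (1 + gr (t ^ i * σ)) ^ (2 ^ n - 1) := by
    rw [← geom_two]
    exact Finset.sum_congr rfl fun j _ => gr_pow _ j
  rw [h3]
  have h4 : (1 + gr (t ^ i * σ)) ^ (2 ^ a) = 1 + gr t ^ (i * 2 ^ a) := by
    rw [add_pow_char_pow, one_pow, ← gr_pow, mul_pow, hS σ hσ, mul_one, ← pow_mul, gr_pow]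
  have h5 : s ∣ (1 + gr (t ^ i * σ)) ^ (2 ^ a) := by
    rw [h4]
    have h7 : (gr t - 1) ∣ (gr t ^ (i * 2 ^ a) - 1) := sub_one_dvd_pow_sub_one_aux (gr t) _
    have e1 : gr t - 1 = s := by
      rw [hs, CharTwo.sub_eq_add, add_comm]
    have e2 : gr t ^ (i * 2 ^ a) - 1 = 1 + gr t ^ (i * 2 ^ a) := by
      rw [CharTwo.sub_eq_add, add_comm]
    rwa [e1, e2] at h7
  have h6 : s ^ M ∣ (1 + gr (t ^ i * σ)) ^ (2 ^ n - 1) := by
    refine (pow_dvd_pow_of_dvd h5 M).trans ?_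
    rw [← pow_mul]
    exact pow_dvd_pow _ hn
  exact Ideal.mem_of_dvd _ h6 h2
where
  sub_one_dvd_pow_sub_one_aux {R : Type _} [CommRing R] (x : R) (n : ℕ) : (x - 1) ∣ (x ^ n - 1) := by
    have := sub_dvd_pow_sub_pow x 1 n
    rwa [one_pow] at this

end grp

end Pool.Agent.STc
end

section

/-!
# The count of the Selmer group: units
-/

open NumberField NumberField.InfinitePlace NumberField.Units NumberField.Units.dirichletUnitTheorem
  Module Finset

namespace Pool.Agent.STc.Cnt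

set_option backward.isDefEq.respectTransparency.types false in
lemma isMaxRank_of {M : Type*} [Field M] [NumberField M] (η : InfinitePlace M → (𝓞 M)ˣ)
    (hη : ∀ w w' : InfinitePlace M, w' ≠ w → Real.log (w' (η w : M)) < 0) :
    IsMaxRank (fun i => η (equivFinRank M i)) := by
  classical
  have h1 : (fun i => logEmbedding M (Additive.ofMul (η (equivFinRank M i)))) =
      (fun w : {w : InfinitePlace M // w ≠ w₀} => logEmbedding M (Additive.ofMul (η w))) ∘
        equivFinRank M := rfl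
  unfold IsMaxRank
  rw [h1, linearIndependent_equiv (equivFinRank M)]
  let B := Pi.basisFun ℝ {w : InfinitePlace M // w ≠ w₀}
  let v := fun w : { w : InfinitePlace M // w ≠ w₀ } ↦ logEmbedding M (Additive.ofMul (η w))
  suffices B.det v ≠ 0 by
    rw [← isUnit_iff_ne_zero, ← Basis.is_basis_iff_det] at this
    exact this.1
  rw [Basis.det_apply]
  refine det_ne_zero_of_sum_col_lt_diag (fun w ↦ ?_)
  simp_rw [Real.norm_eq_abs, B, Basis.coePiBasisFun.toMatrix_eq_transpose, Matrix.transpose_apply]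
  rw [← sub_pos, sum_congr rfl (fun x hx ↦ abs_of_neg ?_), sum_neg_distrib, sub_neg_eq_add,
    sum_erase_eq_sub (mem_univ _), ← add_comm_sub]
  · refine add_pos_of_nonneg_of_pos ?_ ?_
    · rw [sub_nonneg]
      exact le_abs_self _
    · rw [sum_logEmbedding_component (η w)]
      refine mul_pos_of_neg_of_neg ?_ (hη w _ w.prop.symm)
      rw [mult]; split_ifs <;> norm_num
  · refine mul_neg_of_pos_of_neg ?_ (hη w x ?_)
    · rw [mult]; split_ifs <;> norm_num
    · exact Subtype.ext_iff.not.mp (ne_of_mem_erase hx)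

lemma finiteIndex_of {M : Type*} [Field M] [NumberField M] (η : InfinitePlace M → (𝓞 M)ˣ)
    (hη : ∀ w w' : InfinitePlace M, w' ≠ w → Real.log (w' (η w : M)) < 0) :
    (Subgroup.closure (Set.range η)).FiniteIndex := by
  have h1 := isMaxRank_iff_closure_finiteIndex.1 (isMaxRank_of η hη)
  refine Subgroup.finiteIndex_of_le (H := Subgroup.closure
    (Set.range fun i => η (equivFinRank M i))) ?_
  apply Subgroup.closure_mono
  rintro _ ⟨i, rfl⟩
  exact ⟨_, rfl⟩

end Pool.Agent.STc.Cnt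
end
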