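import Pool.Agent.Lib.MP_1ef7cf_nt.Abelian
import Pool.Agent.Lib.MP_1ef7cf_nt.Fiber
import Pool.Agent.Lib.MP_1ef7cf_nt.RCG3
import Pool.Agent.Lib.MP_1ef7cf_nt.RQ
import Pool.Agent.Lib.MP_1ef7cf_nt.Theta2
import Pool.Agent.Lib.MP_1ef7cf_nt.ZetaSum
import Pool.Agent.Lib.MP_1ef7cf_nt.Unfold
import Pool.Agent.Lib.MP_1ef7cf_nt.Core2
import Pool.Agent.Lib.MP_1ef7cf_nt_c.CountB

section

/-!
The algebraic core: removing a prime from the modulus.
-/

set_option linter.style.haveILetI false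

open IntermediateField Polynomial

namespace Pool.Agent.ST

variable {K : Type*} [Field K] [Algebra K ℝ] {H L M Ω : IntermediateField K ℝ}

/-- products of an even number of square roots of conjugates lie in the base field. -/
lemma prod_sqrt_mem [FiniteDimensional K L] {u : ℝ} (hu : u ∈ L)
    (hpos : ∀ γ : L ≃ₐ[K] L, 0 < act γ u) [IsAbelianGalois K (sqrtExt L u)]
    (T : Finset (L ≃ₐ[K] L)) (hT : Even T.card) :
    ∏ γ ∈ T, Real.sqrt (act γ u) ∈ L := by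
  have hu0 : 0 < u := by have := hpos 1; rwa [act_one_left hu] at this
  have hLΩ := le_sqrtExt L u
  haveI : FiniteDimensional K (sqrtExt L u) := finiteDimensional_sqrtExt hu hu0.le
  haveI : IsAbelianGalois K L := isAbelianGalois_of_le hLΩ
  have hs := sqrt_mem_sqrtExt L u
  -- description of the square roots
  have hdesc : ∀ γ : L ≃ₐ[K] L, ∃ t : ℝ, (t = 1 ∨ t = -1) ∧ ∃ g : sqrtExt L u ≃ₐ[K] sqrtExt L u,
      Real.sqrt (act γ u) = t * act g (Real.sqrt u) := by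
    intro γ
    obtain ⟨g, hg⟩ := res_surjective hLΩ γ
    obtain ⟨t, ht, ht'⟩ := act_sqrt hs hu0.le g
    refine ⟨t, ht, g, ?_⟩
    rw [ht', ← act_res hLΩ g hu, hg, ← mul_assoc]
    have : t * t = 1 := by rcases ht with rfl | rfl <;> norm_num
    rw [this, one_mul]
  have hmem : ∀ γ : L ≃ₐ[K] L, Real.sqrt (act γ u) ∈ sqrtExt L u := by
    intro γ
    obtain ⟨t, ht, g, hg⟩ := hdesc γ
    rw [hg]
    exact mul_mem (const_mem ht _) (act_mem _ hs)
  apply mem_of_fixed hLΩ (prod_mem fun γ _ => hmem γ)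
  intro z hz
  obtain ⟨s, hs1, hs2⟩ := act_sqrt hs hu0.le z
  rw [hz u hu] at hs2
  have hzγ : ∀ γ : L ≃ₐ[K] L, act z (Real.sqrt (act γ u)) = s * Real.sqrt (act γ u) := by
    intro γ
    obtain ⟨t, ht, g, hg⟩ := hdesc γ
    rw [hg, act_mul _ (const_mem ht _) (act_mem _ hs), act_const ht, act_act_comm _ _ hs, hs2,
      act_mul _ (const_mem hs1 _) hs, act_const hs1]
    ring
  rw [act_prod z T _ (fun γ _ => hmem γ), Finset.prod_congr rfl fun γ _ => hzγ γ,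
    Finset.prod_mul_distrib, Finset.prod_const]
  rcases hs1 with rfl | rfl
  · simp
  · rw [hT.neg_one_pow, one_mul]

/-- A Stark unit for the abelian extension `H/K`: the real number `u` is a unit of `H`, all its
conjugates over `K` are positive, it has absolute value one at all embeddings of `H` over the second
embedding of `K`, and `H(√u)/K` is abelian. -/
structure IsStarkUnit (σ₂ : K →+* ℝ) (H : IntermediateField K ℝ) (u : ℝ) : Prop where
  mem : u ∈ H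
  pos : ∀ σ : H ≃ₐ[K] H, 0 < act σ u
  int : IsIntegral ℤ u
  int_inv : IsIntegral ℤ u⁻¹
  abs : ∀ g : H →+* ℂ, (∀ a : K, g (algebraMap K H a) = (σ₂ a : ℂ)) → ‖g ⟨u, mem⟩‖ = 1
  ab : IsAbelianGalois K (sqrtExt H u)

lemma IsStarkUnit.pos' {σ₂ : K →+* ℝ} {u : ℝ} (h : IsStarkUnit σ₂ H u) : 0 < u := by
  have := h.pos 1; rwa [act_one_left h.mem] at this

/-- products over fibres are fixed correctly -/
lemma fibProd_mem_base (h : H ≤ L) [FiniteDimensional K L] [Normal K H] [IsGalois K L]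
    {u : ℝ} (hu : u ∈ L) (σ : H ≃ₐ[K] H) : fibProd h u σ ∈ H := by
  apply mem_of_fixed h (fibProd_mem h hu σ)
  intro γ hγ
  rw [act_fibProd h hu, (res_eq_one_iff h γ).2 hγ, one_mul]

end Pool.Agent.ST
end

section

/-!
Norm-type products in an abelian extension and the reciprocity relation between two auxiliary
extensions.
-/

set_option linter.style.haveILetI false

open IntermediateField Polynomial

namespace Pool.Agent.ST

variable {K : Type*} [Field K] [Algebra K ℝ] {H L M Ω : IntermediateField K ℝ}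

/-- product of the images of `y` under a finite family of automorphisms. -/
noncomputable def nrm {α : Type*} (T : Finset α) (l : α → (Ω ≃ₐ[K] Ω)) (y : ℝ) : ℝ :=
  ∏ a ∈ T, act (l a) y

section nrm

variable {α β : Type*} (T : Finset α) (l : α → (Ω ≃ₐ[K] Ω)) (S : Finset β)
  (m : β → (Ω ≃ₐ[K] Ω)) {x y : ℝ}

lemma nrm_mem (hy : y ∈ Ω) : nrm T l y ∈ Ω := prod_mem fun _ _ => act_mem _ hy

lemma nrm_mul (hx : x ∈ Ω) (hy : y ∈ Ω) : nrm T l (x * y) = nrm T l x * nrm T l y := by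
  unfold nrm
  rw [← Finset.prod_mul_distrib]
  exact Finset.prod_congr rfl fun a _ => act_mul _ hx hy

lemma nrm_div (hx : x ∈ Ω) (hy : y ∈ Ω) : nrm T l (x / y) = nrm T l x / nrm T l y := by
  unfold nrm
  rw [← Finset.prod_div_distrib]
  exact Finset.prod_congr rfl fun a _ => act_div _ hx hy

lemma nrm_sq (hx : x ∈ Ω) : nrm T l (x ^ 2) = (nrm T l x) ^ 2 := by
  rw [sq, sq, nrm_mul T l hx hx]

lemma nrm_const_mul {s : ℝ} (hs : s = 1 ∨ s = -1) (hT : Even T.card) (hx : x ∈ Ω) :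
    nrm T l (s * x) = nrm T l x := by
  rw [nrm_mul T l (const_mem hs _) hx]
  have : nrm T l s = 1 := by
    unfold nrm
    rw [Finset.prod_congr rfl fun a _ => act_const hs (l a), Finset.prod_const]
    rcases hs with rfl | rfl
    · simp
    · exact hT.neg_one_pow
  rw [this, one_mul]

lemma act_nrm [IsAbelianGalois K Ω] (hx : x ∈ Ω) (δ : Ω ≃ₐ[K] Ω) :
    act δ (nrm T l x) = nrm T l (act δ x) := by
  unfold nrm
  rw [act_prod δ _ _ fun a _ => act_mem _ hx]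
  exact Finset.prod_congr rfl fun a _ => act_act_comm _ _ hx

lemma nrm_comm [IsAbelianGalois K Ω] (hx : x ∈ Ω) :
    nrm T l (nrm S m x) = nrm S m (nrm T l x) := by
  unfold nrm
  rw [Finset.prod_congr rfl fun a _ => act_prod (l a) S (fun b => act (m b) x)
      fun b _ => act_mem _ hx,
    Finset.prod_comm]
  refine Finset.prod_congr rfl fun b _ => ?_
  rw [act_prod (m b) T (fun a => act (l a) x) fun a _ => act_mem _ hx]
  exact Finset.prod_congr rfl fun a _ => act_act_comm _ _ hx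

end nrm

/-- `x ^ 2 = y ^ 2` implies `x = s * y` with `s = ± 1`. -/
lemma exists_sign {x y : ℝ} (h : x ^ 2 = y ^ 2) : ∃ s : ℝ, (s = 1 ∨ s = -1) ∧ x = s * y := by
  rcases sq_eq_sq_iff_eq_or_eq_neg.1 h with h | h
  · exact ⟨1, Or.inl rfl, by rw [h, one_mul]⟩
  · exact ⟨-1, Or.inr rfl, by rw [h]; ring⟩

/-- half of the reciprocity relation -/
lemma half_relation {α β : Type*} [IsAbelianGalois K Ω] (A : Finset α) (B : Finset β)
    (lA : α → (Ω ≃ₐ[K] Ω)) (lB : β → (Ω ≃ₐ[K] Ω)) (hA : Even A.card)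
    {X x ξ : ℝ} (hX : X ∈ Ω) (hx : x ∈ Ω) (hξ : ξ ∈ Ω)
    (Φ : Ω ≃ₐ[K] Ω)
    (h1 : nrm A lA (x ^ 2) = ξ ^ 2)
    (h2 : nrm B lB (X ^ 2) = x ^ 2 / act Φ⁻¹ (x ^ 2)) :
    ξ / act Φ⁻¹ ξ = nrm A lA (nrm B lB X) := by
  rw [nrm_sq A lA hx] at h1
  obtain ⟨s, hs, hs'⟩ := exists_sign h1.symm
  rw [nrm_sq B lB hX, act_pow _ hx, ← div_pow] at h2
  obtain ⟨t, ht, ht'⟩ := exists_sign h2.symm
  have hxi : act Φ⁻¹ x ∈ Ω := act_mem _ hx
  have hs0 : s ≠ 0 := by rcases hs with rfl | rfl <;> norm_num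
  rw [hs', act_mul _ (const_mem hs _) (nrm_mem A lA hx), act_const hs, act_nrm A lA hx,
    mul_div_mul_left _ _ hs0, ← nrm_div A lA hx hxi, ht',
    nrm_const_mul A lA ht hA (nrm_mem B lB hX)]

/-- The reciprocity relation between two auxiliary extensions. -/
lemma pair_relation {L₁ L₂ : IntermediateField K ℝ} (hH₁ : H ≤ L₁) (hH₂ : H ≤ L₂)
    (h₁ : L₁ ≤ M) (h₂ : L₂ ≤ M) (hM : M ≤ L₁ ⊔ L₂) (hinf : L₁ ⊓ L₂ ≤ H)
    [FiniteDimensional K L₁] [FiniteDimensional K L₂] [FiniteDimensional K M]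
    [Normal K H] [Normal K L₁] [Normal K L₂]
    {u₁ u₂ U : ℝ} (hu₁ : u₁ ∈ L₁) (hu₂ : u₂ ∈ L₂) (hU : U ∈ M)
    (p₁ : 0 ≤ u₁) (p₂ : 0 ≤ u₂) (pU : 0 ≤ U)
    [IsAbelianGalois K (sqrtExt L₁ u₁)] [IsAbelianGalois K (sqrtExt L₂ u₂)]
    [IsAbelianGalois K (sqrtExt M U)]
    {ξ₁ ξ₂ : ℝ} (hξ₁ : ξ₁ ∈ H) (hξ₂ : ξ₂ ∈ H)
    (e₁ : fibProd hH₁ u₁ 1 = ξ₁ ^ 2) (e₂ : fibProd hH₂ u₂ 1 = ξ₂ ^ 2)
    (even₁ : Even (fib hH₁ (1 : H ≃ₐ[K] H)).card) (even₂ : Even (fib hH₂ (1 : H ≃ₐ[K] H)).card)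
    (Φ₂ : L₁ ≃ₐ[K] L₁) (Φ₁ : L₂ ≃ₐ[K] L₂)
    (n₁ : fibProd h₁ U 1 = u₁ / act Φ₂⁻¹ u₁) (n₂ : fibProd h₂ U 1 = u₂ / act Φ₁⁻¹ u₂) :
    ξ₁ / act (res hH₁ Φ₂)⁻¹ ξ₁ = ξ₂ / act (res hH₂ Φ₁)⁻¹ ξ₂ := by
  classical
  set Ω : IntermediateField K ℝ := sqrtExt M U ⊔ (sqrtExt L₁ u₁ ⊔ sqrtExt L₂ u₂) with hΩ
  haveI : IsAbelianGalois K (sqrtExt L₁ u₁ ⊔ sqrtExt L₂ u₂ : IntermediateField K ℝ) :=
    isAbelianGalois_sup
  haveI : IsAbelianGalois K Ω := isAbelianGalois_sup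
  haveI : IsAbelianGalois K M := isAbelianGalois_of_le (le_sqrtExt M U)
  have hMΩ : M ≤ Ω := (le_sqrtExt M U).trans le_sup_left
  have h1Ω : L₁ ≤ Ω := h₁.trans hMΩ
  have h2Ω : L₂ ≤ Ω := h₂.trans hMΩ
  have hHΩ : H ≤ Ω := hH₁.trans h1Ω
  have hXΩ : Real.sqrt U ∈ Ω := (le_sup_left : sqrtExt M U ≤ Ω) (sqrt_mem_sqrtExt M U)
  have hx1Ω : Real.sqrt u₁ ∈ Ω :=
    ((le_sup_left : sqrtExt L₁ u₁ ≤ _).trans (le_sup_right : _ ≤ Ω)) (sqrt_mem_sqrtExt L₁ u₁)
  have hx2Ω : Real.sqrt u₂ ∈ Ω :=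
    ((le_sup_right : sqrtExt L₂ u₂ ≤ _).trans (le_sup_right : _ ≤ Ω)) (sqrt_mem_sqrtExt L₂ u₂)
  -- lifts
  have hsurj : Function.Surjective (res hMΩ) := res_surjective hMΩ
  set l : (M ≃ₐ[K] M) → (Ω ≃ₐ[K] Ω) := Function.surjInv hsurj with hl
  have hl' : ∀ γ, res hMΩ (l γ) = γ := Function.surjInv_eq hsurj
  have hlact : ∀ γ : M ≃ₐ[K] M, ∀ x ∈ M, act (l γ) x = act γ x := by
    intro γ x hx
    rw [← act_res hMΩ (l γ) hx, hl']
  obtain ⟨Ψ₂, hΨ₂⟩ := res_surjective h1Ω Φ₂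
  obtain ⟨Ψ₁, hΨ₁⟩ := res_surjective h2Ω Φ₁
  set A := fib h₂ (1 : L₂ ≃ₐ[K] L₂) with hA
  set B := fib h₁ (1 : L₁ ≃ₐ[K] L₁) with hB
  have hM' : M ≤ L₂ ⊔ L₁ := by rw [sup_comm]; exact hM
  have hinf' : L₂ ⊓ L₁ ≤ H := by rw [inf_comm]; exact hinf
  have cardA : Even A.card := by rw [hA, card_fib_pair h₁ h₂ hM hH₁ hH₂ hinf]; exact even₁
  have cardB : Even B.card := by rw [hB, card_fib_pair h₂ h₁ hM' hH₂ hH₁ hinf']; exact even₂
  -- norms
  have f1 : nrm A l (Real.sqrt u₁ ^ 2) = ξ₁ ^ 2 := by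
    rw [Real.sq_sqrt p₁, ← e₁, fibProd, ← prod_fib_pair h₁ h₂ hM hH₁ hH₂ hinf, nrm]
    refine Finset.prod_congr rfl fun a _ => ?_
    rw [act_res h₁ a hu₁, hlact a _ (h₁ hu₁)]
  have f2 : nrm B l (Real.sqrt u₂ ^ 2) = ξ₂ ^ 2 := by
    rw [Real.sq_sqrt p₂, ← e₂, fibProd, ← prod_fib_pair h₂ h₁ hM' hH₂ hH₁ hinf', nrm]
    refine Finset.prod_congr rfl fun a _ => ?_
    rw [act_res h₂ a hu₂, hlact a _ (h₂ hu₂)]
  have g1 : nrm B l (Real.sqrt U ^ 2) = Real.sqrt u₁ ^ 2 / act Ψ₂⁻¹ (Real.sqrt u₁ ^ 2) := by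
    rw [Real.sq_sqrt pU, Real.sq_sqrt p₁, ← act_res h1Ω Ψ₂⁻¹ hu₁, map_inv, hΨ₂, ← n₁, fibProd, nrm]
    exact Finset.prod_congr rfl fun a _ => hlact a _ hU
  have g2 : nrm A l (Real.sqrt U ^ 2) = Real.sqrt u₂ ^ 2 / act Ψ₁⁻¹ (Real.sqrt u₂ ^ 2) := by
    rw [Real.sq_sqrt pU, Real.sq_sqrt p₂, ← act_res h2Ω Ψ₁⁻¹ hu₂, map_inv, hΨ₁, ← n₂, fibProd, nrm]
    exact Finset.prod_congr rfl fun a _ => hlact a _ hU
  have r1 := half_relation A B l l cardA hXΩ hx1Ω (hHΩ hξ₁) Ψ₂ f1 g1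
  have r2 := half_relation B A l l cardB hXΩ hx2Ω (hHΩ hξ₂) Ψ₁ f2 g2
  have t1 : act (res hH₁ Φ₂)⁻¹ ξ₁ = act Ψ₂⁻¹ ξ₁ := by
    rw [← map_inv, ← hΨ₂, ← map_inv, act_res hH₁ _ hξ₁, act_res h1Ω _ (hH₁ hξ₁)]
  have t2 : act (res hH₂ Φ₁)⁻¹ ξ₂ = act Ψ₁⁻¹ ξ₂ := by
    rw [← map_inv, ← hΨ₁, ← map_inv, act_res hH₂ _ hξ₂, act_res h2Ω _ (hH₂ hξ₂)]
  rw [t1, t2, r1, r2, nrm_comm A l B l hXΩ]

end Pool.Agent.ST
end

section

/-!
# Ideals of a ray class and elements congruent to one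
-/

open NumberField IsDedekindDomain nonZeroDivisors

namespace Pool.Agent.ST

section cls

variable {K : Type*} [Field K] [NumberField K] {σ₂ : K →+* ℝ}

lemma int_of_coe_eq {m : Ideal (𝓞 K)} {I : Ideal (𝓞 K)} {β : K} (hβ : OneMod m β)
    (h : (I : FI K) = FractionalIdeal.spanSingleton (𝓞 K)⁰ β) :
    ∃ x : 𝓞 K, (x : K) = β ∧ x - 1 ∈ m ∧ I = Ideal.span {x} := by
  have h1 : β ∈ (I : FI K) := by rw [h]; exact FractionalIdeal.mem_spanSingleton_self _ _
  rw [FractionalIdeal.mem_coeIdeal] at h1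
  obtain ⟨x, hxI, hx⟩ := h1
  refine ⟨x, hx, ?_, ?_⟩
  · obtain ⟨a, b, hb, hab, hβ'⟩ := hβ
    by_cases hb0 : b = 0
    · subst hb0
      rw [Ideal.isCoprime_iff_sup_eq] at hb
      have : m = ⊤ := by simpa using hb
      rw [this]; exact Submodule.mem_top
    have hb0' : (b : K) ≠ 0 := coe_ne_zero' hb0
    have h2 : x * b = a := by
      apply RingOfIntegers.coe_injective
      rw [map_mul]
      rw [← hx, eq_div_iff hb0'] at hβ'
      exact hβ'
    have h3 : (x - 1) * b ∈ m := by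
      have : (x - 1) * b = a - b := by rw [← h2]; ring
      rw [this]; exact hab
    obtain ⟨u, hu, v, hv, huv⟩ := Ideal.isCoprime_iff_exists.1 hb
    obtain ⟨c, rfl⟩ := Ideal.mem_span_singleton'.1 hu
    have h4 : x - 1 = c * ((x - 1) * b) + (x - 1) * v := by
      linear_combination (x - 1) * (-huv)
    rw [h4]
    exact m.add_mem (m.mul_mem_left _ h3) (m.mul_mem_left _ hv)
  · rw [← hx] at h
    have h5 : (I : FI K) = ((Ideal.span {x} : Ideal (𝓞 K)) : FI K) := by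
      rw [coe_span_singleton]; exact h
    exact FractionalIdeal.coeIdeal_injective h5

/-- ideals in a ray class and generators -/
lemma mem_idealsOf_iff {m b : Ideal (𝓞 K)} {B C : primeTo (K := K) m}
    (hB : ((B : (FI K)ˣ) : FI K) = (b : FI K)) {z : 𝓞 K} (hz : z - 1 ∈ m) (hz0 : σ₂ (z : K) ≠ 0)
    (hC : ((C : (FI K)ˣ) : FI K) = ((Ideal.span {z} : Ideal (𝓞 K)) : FI K)) {I : Ideal (𝓞 K)} :
    I ∈ idealsOf σ₂ m ((cls σ₂ m B)⁻¹ * cls σ₂ m C) ↔
      ∃ x : 𝓞 K, I * b = Ideal.span {x} ∧ x - 1 ∈ m ∧ 0 < σ₂ (x : K) * σ₂ (z : K) := by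
  have hzK : (z : K) ≠ 0 := by
    intro h; rw [h, map_zero] at hz0; exact hz0 rfl
  have hb0 : b ≠ ⊥ := by
    rintro rfl
    apply (B : (FI K)ˣ).ne_zero
    rw [hB, FractionalIdeal.coeIdeal_bot]
  constructor
  · rintro ⟨J, hJ, hJA⟩
    have h1 : cls σ₂ m (C⁻¹ * (J * B)) = 1 := by
      rw [map_mul, map_mul, map_inv, hJA, inv_mul_cancel_comm, inv_mul_cancel]
    rw [cls_eq_one_iff] at h1
    obtain ⟨α, hα1, hα2, hα3⟩ := h1
    have h2 : ((J : (FI K)ˣ) : FI K) * ((B : (FI K)ˣ) : FI K) =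
        FractionalIdeal.spanSingleton (𝓞 K)⁰ ((z : K) * α) := by
      rw [← FractionalIdeal.spanSingleton_mul_spanSingleton, ← hα3, ← coe_span_singleton, ← hC]
      rw [← Units.val_mul, ← Units.val_mul]
      congr 1
      rw [← Subgroup.coe_mul, ← Subgroup.coe_mul]
      congr 1
      group
    rw [hJ, hB, ← FractionalIdeal.coeIdeal_mul] at h2
    obtain ⟨x, hx1, hx2, hx3⟩ := int_of_coe_eq ((oneMod_of_sub_one_mem hz).mul hα1) h2
    refine ⟨x, hx3, hx2, ?_⟩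
    rw [hx1, map_mul]
    have : 0 < σ₂ (z : K) * σ₂ (z : K) := mul_self_pos.2 hz0
    nlinarith
  · rintro ⟨x, hx1, hx2, hx3⟩
    have hx0 : (x : K) ≠ 0 := by
      intro h; rw [h, map_zero, zero_mul] at hx3; exact lt_irrefl _ hx3
    have hx0' : x ≠ 0 := by rintro rfl; exact hx0 (map_zero _)
    have hI0 : I ≠ ⊥ := by
      rintro rfl
      rw [Ideal.bot_mul] at hx1
      exact span_ne_bot hx0' hx1.symm
    have hIm : IsCoprime I m := by
      have h1 := coprime_span_of_sub_one_mem hx2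
      rw [← hx1] at h1
      exact h1.of_mul_left_left
    let J : primeTo (K := K) m := ⟨uI I hI0, coe_mem_primeTo (by rw [coe_uI]) hIm⟩
    have hJ : ((J : (FI K)ˣ) : FI K) = I := rfl
    refine ⟨J, hJ, ?_⟩
    rw [eq_inv_mul_iff_mul_eq, ← map_mul, cls_eq_iff]
    refine ⟨(z : K) * (x : K)⁻¹, (oneMod_of_sub_one_mem hz).mul (oneMod_of_sub_one_mem hx2).inv,
      ?_, ?_⟩
    · rw [map_mul, map_inv₀]
      have hσx : σ₂ (x : K) ≠ 0 := by
        intro h; rw [h, zero_mul] at hx3; exact lt_irrefl _ hx3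
      have : σ₂ (z : K) * (σ₂ (x : K))⁻¹ = (σ₂ (x : K) * σ₂ (z : K)) / (σ₂ (x : K)) ^ 2 := by
        field_simp
      rw [this]
      positivity
    · rw [Subgroup.coe_mul, mul_inv, Units.val_mul, Units.val_mul, Units.val_inv_eq_inv_val,
        Units.val_inv_eq_inv_val, hB, hJ, hC]
      rw [← mul_inv, ← FractionalIdeal.coeIdeal_mul, mul_comm b I, hx1, coe_span_singleton,
        coe_span_singleton, FractionalIdeal.spanSingleton_inv,
        FractionalIdeal.spanSingleton_mul_spanSingleton, mul_comm]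

end cls

end Pool.Agent.ST
end

section

/-!
# Orbit data from ray classes of real quadratic fields
-/

open NumberField IsDedekindDomain nonZeroDivisors Module

namespace Pool.Agent.ST

section basis

variable {K : Type*} [Field K] [NumberField K]

lemma exists_ideal_basis (h2 : Module.finrank ℚ K = 2) {Λ : Ideal (𝓞 K)} (hΛ : Λ ≠ ⊥) :
    ∃ u v : 𝓞 K, u ∈ Λ ∧ v ∈ Λ ∧
      (∀ x ∈ Λ, ∃ n : ℤ × ℤ, x = (n.1 : 𝓞 K) * v + (n.2 : 𝓞 K) * u) ∧
      (∀ p q : ℤ, (p : 𝓞 K) * u + (q : 𝓞 K) * v = 0 → p = 0 ∧ q = 0) := by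
  have hf : Module.finrank ℤ (𝓞 K) = 2 := by rw [RingOfIntegers.rank, h2]
  have b0 : Basis (Fin 2) ℤ (𝓞 K) := Module.finBasisOfFinrankEq ℤ (𝓞 K) hf
  let b := Ideal.selfBasis b0 Λ hΛ
  refine ⟨(b 0 : 𝓞 K), (b 1 : 𝓞 K), (b 0).2, (b 1).2, ?_, ?_⟩
  · intro x hx
    refine ⟨(b.repr ⟨x, hx⟩ 1, b.repr ⟨x, hx⟩ 0), ?_⟩
    have h1 := b.sum_repr ⟨x, hx⟩
    rw [Fin.sum_univ_two] at h1
    have h3 := congrArg (fun y : Λ => (y : 𝓞 K)) h1
    simp only [Submodule.coe_add, Submodule.coe_smul_of_tower, zsmul_eq_mul] at h3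
    rw [add_comm]
    exact h3.symm
  · intro p q hpq
    have h1 : p • b 0 + q • b 1 = 0 := by
      apply Subtype.ext
      simp only [Submodule.coe_add, Submodule.coe_smul_of_tower, zsmul_eq_mul,
        ZeroMemClass.coe_zero]
      exact hpq
    have h3 := Fintype.linearIndependent_iff.1 b.linearIndependent ![p, q] (by
      rw [Fin.sum_univ_two]; exact h1)
    exact ⟨h3 0, h3 1⟩

end basis

section det

variable {K : Type*} [Field K] [NumberField K] [Algebra K ℝ] {σ₂ : K →+* ℝ}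

lemma det_ne_zero_int (h2 : Module.finrank ℚ K = 2) (hσ : σ₂ ≠ sg1 K) {x y : 𝓞 K}
    (h : ∀ p q : ℤ, (p : 𝓞 K) * x + (q : 𝓞 K) * y = 0 → p = 0 ∧ q = 0) :
    sg1 K (x : K) * σ₂ (y : K) - σ₂ (x : K) * sg1 K (y : K) ≠ 0 := by
  intro h0
  have hx : x ≠ 0 := by
    rintro rfl
    have := h 1 0 (by simp)
    exact one_ne_zero this.1
  have hxK : (x : K) ≠ 0 := coe_ne_zero' hx
  have h3 : sg1 K ((y : K) / x) = σ₂ ((y : K) / x) := by
    have hx1 : sg1 K (x : K) ≠ 0 := (map_ne_zero _).2 hxK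
    have hx2 : σ₂ (x : K) ≠ 0 := (map_ne_zero _).2 hxK
    rw [map_div₀, map_div₀, div_eq_div_iff hx1 hx2]
    linarith
  obtain ⟨r, hr⟩ := exists_rat_of_eq h2 hσ h3
  rw [div_eq_iff hxK] at hr
  have hden : (r.den : K) ≠ 0 := Nat.cast_ne_zero.2 r.den_ne_zero
  have hr' : (r.den : K) * (y : K) = (r.num : K) * (x : K) := by
    rw [hr, ← mul_assoc]
    congr 1
    have h5 := congrArg (algebraMap ℚ K) (Rat.mul_den_eq_num r)
    rw [map_mul, map_natCast, map_intCast] at h5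
    rw [mul_comm, h5]
  have hr2 : ((-r.num : ℤ) : 𝓞 K) * x + ((r.den : ℤ) : 𝓞 K) * y = 0 := by
    apply RingOfIntegers.coe_injective
    rw [map_add, map_mul, map_mul, map_intCast, map_intCast, map_zero]
    push_cast
    have h6 : (r.den : K) * (algebraMap (𝓞 K) K) y = (r.num : K) * (algebraMap (𝓞 K) K) x := hr'
    rw [h6]
    ring
  have := (h _ _ hr2).2
  exact r.den_ne_zero (by exact_mod_cast this)

end det

section orb

variable {K : Type*} [Field K] [NumberField K] [Algebra K ℝ] {σ₂ : K →+* ℝ}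

omit [Algebra K ℝ] in
lemma idealsOf_ne_bot {m : Ideal (𝓞 K)} {A : RayClassGroup σ₂ m} {I : Ideal (𝓞 K)}
    (hI : I ∈ idealsOf σ₂ m A) : I ≠ ⊥ := by
  obtain ⟨J, hJ, -⟩ := hI
  intro h0
  apply (J : (FI K)ˣ).ne_zero
  rw [hJ, h0, FractionalIdeal.coeIdeal_bot]

/-- inclusion in the nonzero ideals -/
def clsNz {m : Ideal (𝓞 K)} (A : RayClassGroup σ₂ m) (I : idealsOf σ₂ m A) : NzI K :=
  ⟨I.1, idealsOf_ne_bot I.2⟩

omit [Algebra K ℝ] in
lemma clsNz_inj {m : Ideal (𝓞 K)} (A : RayClassGroup σ₂ m) : Function.Injective (clsNz A) := by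
  intro a b hab
  have := congrArg Subtype.val hab
  exact Subtype.ext this

omit [Algebra K ℝ] in
lemma summable_idealsOf {m : Ideal (𝓞 K)} (A : RayClassGroup σ₂ m) {s : ℝ} (hs : 1 < s) :
    Summable (fun I : idealsOf σ₂ m A => (Ideal.absNorm I.1 : ℝ) ^ (-s)) := by
  have h := summable_ideal K hs
  have h2 := h.comp_injective (clsNz_inj A)
  exact h2

/-- the coset of elements of `b` congruent to `1` modulo `m` -/
def Xs (m b : Ideal (𝓞 K)) : Set (𝓞 K) := {x | x ∈ b ∧ x - 1 ∈ m}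

/-- lattice coordinates on the coset -/
lemma exists_coords (h2 : Module.finrank ℚ K = 2) (hσ : σ₂ ≠ sg1 K) {m b : Ideal (𝓞 K)}
    (hm : m ≠ ⊥) (hb : b ≠ ⊥) (hbm : IsCoprime b m) :
    ∃ (L : Lat) (f : Xs m b ≃ ℤ × ℤ), (∀ x, L.x1 (f x) = sg1 K (x.1 : K)) ∧
      (∀ x, L.x2 (f x) = σ₂ (x.1 : K)) := by
  have hΛ : b ⊓ m ≠ ⊥ := by
    intro h
    have h3 : b * m ≤ ⊥ := by rw [← h]; exact Ideal.mul_le_inf
    exact mul_ne_bot' hb hm (le_bot_iff.1 h3)
  obtain ⟨u, v, hu, hv, hspan, hind⟩ := exists_ideal_basis h2 hΛ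
  obtain ⟨y, hy1, hy2⟩ := exists_crt hbm 0 1
  rw [sub_zero] at hy1
  let L : Lat :=
    { a1 := sg1 K (u : K)
      a2 := σ₂ (u : K)
      b1 := sg1 K (v : K)
      b2 := σ₂ (v : K)
      c1 := sg1 K (y : K)
      c2 := σ₂ (y : K)
      det_ne := det_ne_zero_int h2 hσ hind }
  have hmem : ∀ n : ℤ × ℤ, y + ((n.1 : 𝓞 K) * v + (n.2 : 𝓞 K) * u) ∈ Xs m b := by
    intro n
    have h3 : (n.1 : 𝓞 K) * v + (n.2 : 𝓞 K) * u ∈ b ⊓ m :=
      (b ⊓ m).add_mem ((b ⊓ m).mul_mem_left _ hv) ((b ⊓ m).mul_mem_left _ hu)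
    refine ⟨b.add_mem hy1 h3.1, ?_⟩
    have : y + ((n.1 : 𝓞 K) * v + (n.2 : 𝓞 K) * u) - 1 =
      (y - 1) + ((n.1 : 𝓞 K) * v + (n.2 : 𝓞 K) * u) := by ring
    rw [this]
    exact m.add_mem hy2 h3.2
  let φ : ℤ × ℤ → Xs m b := fun n => ⟨_, hmem n⟩
  have hφ : Function.Bijective φ := by
    constructor
    · intro n n' hnn
      have h3 : y + ((n.1 : 𝓞 K) * v + (n.2 : 𝓞 K) * u) =
        y + ((n'.1 : 𝓞 K) * v + (n'.2 : 𝓞 K) * u) := congrArg Subtype.val hnn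
      have h4 : ((n.2 - n'.2 : ℤ) : 𝓞 K) * u + ((n.1 - n'.1 : ℤ) : 𝓞 K) * v = 0 := by
        push_cast
        linear_combination h3
      obtain ⟨h5, h6⟩ := hind _ _ h4
      exact Prod.ext (by omega) (by omega)
    · rintro ⟨x, hx1, hx2⟩
      have h3 : x - y ∈ b ⊓ m := by
        refine ⟨b.sub_mem hx1 hy1, ?_⟩
        have : x - y = (x - 1) - (y - 1) := by ring
        rw [this]
        exact m.sub_mem hx2 hy2
      obtain ⟨n, hn⟩ := hspan _ h3
      refine ⟨n, Subtype.ext ?_⟩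
      change y + ((n.1 : 𝓞 K) * v + (n.2 : 𝓞 K) * u) = x
      rw [← hn]; ring
  refine ⟨L, (Equiv.ofBijective φ hφ).symm, ?_, ?_⟩
  · intro x
    obtain ⟨n, rfl⟩ := hφ.2 x
    have h3 : (Equiv.ofBijective φ hφ).symm (φ n) = n :=
      (Equiv.ofBijective φ hφ).symm_apply_apply n
    rw [h3]
    change sg1 K (y : K) + n.1 * sg1 K (v : K) + n.2 * sg1 K (u : K) =
      sg1 K (algebraMap (𝓞 K) K (y + ((n.1 : 𝓞 K) * v + (n.2 : 𝓞 K) * u)))
    simp only [map_add, map_mul, map_intCast]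
    ring
  · intro x
    obtain ⟨n, rfl⟩ := hφ.2 x
    have h3 : (Equiv.ofBijective φ hφ).symm (φ n) = n :=
      (Equiv.ofBijective φ hφ).symm_apply_apply n
    rw [h3]
    change σ₂ (y : K) + n.1 * σ₂ (v : K) + n.2 * σ₂ (u : K) =
      σ₂ (algebraMap (𝓞 K) K (y + ((n.1 : 𝓞 K) * v + (n.2 : 𝓞 K) * u)))
    simp only [map_add, map_mul, map_intCast]
    ring

end orb

end Pool.Agent.ST
end

section

/-!
# Orbit data from ray classes of real quadratic fields, II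
-/

open NumberField IsDedekindDomain nonZeroDivisors Module

namespace Pool.Agent.ST

section orb

variable {K : Type*} [Field K] [NumberField K] [Algebra K ℝ] {σ₂ : K →+* ℝ}

omit [NumberField K] [Algebra K ℝ] in
lemma unit_val_zpow_coe (φ : K →+* ℝ) (η : (𝓞 K)ˣ) (j : ℤ) :
    φ (((η ^ j : (𝓞 K)ˣ) : 𝓞 K) : K) = (φ ((η : 𝓞 K) : K)) ^ j := by
  have h := map_zpow (Units.map ((φ.comp (algebraMap (𝓞 K) K) : 𝓞 K →+* ℝ) : 𝓞 K →* ℝ)) η j
  have h3 := congrArg Units.val h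
  rw [Units.val_zpow_eq_zpow_val] at h3
  exact h3

/-- Orbit data. -/
theorem exists_orb (h2 : Module.finrank ℚ K = 2) (hσ : σ₂ ≠ sg1 K) {m b : Ideal (𝓞 K)}
    (hm : m ≠ ⊥) (hm1 : m ≠ ⊤) (hb : b ≠ ⊥) (hbm : IsCoprime b m) {A₀ A₁ : RayClassGroup σ₂ m}
    (hA₀ : ∀ I, I ∈ idealsOf σ₂ m A₀ ↔
      ∃ x : 𝓞 K, I * b = Ideal.span {x} ∧ x - 1 ∈ m ∧ 0 < σ₂ (x : K))
    (hA₁ : ∀ I, I ∈ idealsOf σ₂ m A₁ ↔
      ∃ x : 𝓞 K, I * b = Ideal.span {x} ∧ x - 1 ∈ m ∧ σ₂ (x : K) < 0) :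
    ∃ O : Orb (idealsOf σ₂ m A₀ ⊕ idealsOf σ₂ m A₁),
      (∀ I, O.nu (Sum.inl I) = (Ideal.absNorm I.1 : ℝ) * Ideal.absNorm b) ∧
      (∀ I, O.nu (Sum.inr I) = (Ideal.absNorm I.1 : ℝ) * Ideal.absNorm b) ∧
      (∀ I, 0 < O.p2 (Sum.inl I)) ∧ (∀ I, O.p2 (Sum.inr I) < 0) := by
  obtain ⟨η, hη, hη1, hη2⟩ := exists_gen σ₂ h2 hm
  obtain ⟨L, f, hf1, hf2⟩ := exists_coords h2 hσ hm hb hbm
  choose g₀ hg₀ using fun I : idealsOf σ₂ m A₀ => (hA₀ I.1).1 I.2
  choose g₁ hg₁ using fun I : idealsOf σ₂ m A₁ => (hA₁ I.1).1 I.2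
  -- the ideal and the generator
  let idl : idealsOf σ₂ m A₀ ⊕ idealsOf σ₂ m A₁ → Ideal (𝓞 K) := Sum.elim (·.1) (·.1)
  let g : idealsOf σ₂ m A₀ ⊕ idealsOf σ₂ m A₁ → 𝓞 K := Sum.elim g₀ g₁
  have hg1 : ∀ d, idl d * b = Ideal.span {g d} := by
    rintro (I | I)
    · exact (hg₀ I).1
    · exact (hg₁ I).1
  have hg2 : ∀ d, g d - 1 ∈ m := by
    rintro (I | I)
    · exact (hg₀ I).2.1
    · exact (hg₁ I).2.1
  have hgl : ∀ I, 0 < σ₂ (g (Sum.inl I) : K) := fun I => (hg₀ I).2.2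
  have hgr : ∀ I, σ₂ (g (Sum.inr I) : K) < 0 := fun I => (hg₁ I).2.2
  have hgs : ∀ d, σ₂ (g d : K) ≠ 0 := by
    rintro (I | I)
    · exact (hgl I).ne'
    · exact (hgr I).ne
  have hg0 : ∀ d, g d ≠ 0 := by
    intro d h
    apply hgs d
    rw [h]
    exact (congrArg σ₂ (map_zero (algebraMap (𝓞 K) K))).trans (map_zero _)
  have hgb : ∀ d, g d ∈ b := by
    intro d
    have h3 : Ideal.span {g d} ≤ b := by
      rw [← hg1]; exact (Ideal.mul_le_right : idl d * b ≤ b)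
    exact h3 (Ideal.mem_span_singleton_self _)
  have hηs : 0 < σ₂ ((η : 𝓞 K) : K) := hη.2
  have hηj : ∀ j : ℤ, 0 < σ₂ (((η ^ j : (𝓞 K)ˣ) : 𝓞 K) : K) := fun j => (hη.zpow j).2
  have hηjm : ∀ j : ℤ, ((η ^ j : (𝓞 K)ˣ) : 𝓞 K) - 1 ∈ m := fun j => (hη.zpow j).1
  have hσmul : ∀ (j : ℤ) (x : 𝓞 K), σ₂ (((((η ^ j : (𝓞 K)ˣ) : 𝓞 K) * x : 𝓞 K)) : K) =
      (σ₂ ((η : 𝓞 K) : K)) ^ j * σ₂ (x : K) := by
    intro j x
    rw [← unit_val_zpow_coe σ₂ η j, ← map_mul]
    rfl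
  have hσmul1 : ∀ (j : ℤ) (x : 𝓞 K), sg1 K (((((η ^ j : (𝓞 K)ˣ) : 𝓞 K) * x : 𝓞 K)) : K) =
      (sg1 K ((η : 𝓞 K) : K)) ^ j * sg1 K (x : K) := by
    intro j x
    rw [← unit_val_zpow_coe (sg1 K) η j, ← map_mul]
    rfl
  have hmem : ∀ p : (idealsOf σ₂ m A₀ ⊕ idealsOf σ₂ m A₁) × ℤ,
      ((η ^ p.2 : (𝓞 K)ˣ) : 𝓞 K) * g p.1 ∈ Xs m b := by
    rintro ⟨d, j⟩
    refine ⟨b.mul_mem_left _ (hgb d), ?_⟩
    have : ((η ^ j : (𝓞 K)ˣ) : 𝓞 K) * g d - 1 =
      ((η ^ j : (𝓞 K)ˣ) : 𝓞 K) * (g d - 1) + (((η ^ j : (𝓞 K)ˣ) : 𝓞 K) - 1) := by ring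
    rw [this]
    exact m.add_mem (m.mul_mem_left _ (hg2 d)) (hηjm j)
  let F : (idealsOf σ₂ m A₀ ⊕ idealsOf σ₂ m A₁) × ℤ → Xs m b := fun p => ⟨_, hmem p⟩
  have hspan : ∀ p : (idealsOf σ₂ m A₀ ⊕ idealsOf σ₂ m A₁) × ℤ,
      Ideal.span {((η ^ p.2 : (𝓞 K)ˣ) : 𝓞 K) * g p.1} = idl p.1 * b := by
    rintro ⟨d, j⟩
    rw [hg1, Ideal.span_singleton_mul_left_unit (η ^ j).isUnit]
  have hcancel : ∀ {I I' : Ideal (𝓞 K)}, I * b = I' * b → I = I' := by
    intro I I' h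
    have hb' : b ≠ 0 := by rwa [Ideal.zero_eq_bot]
    exact mul_right_cancel₀ hb' h
  have hF : Function.Bijective F := by
    constructor
    · rintro ⟨d, j⟩ ⟨d', j'⟩ hdd
      have h3 : ((η ^ j : (𝓞 K)ˣ) : 𝓞 K) * g d = ((η ^ j' : (𝓞 K)ˣ) : 𝓞 K) * g d' :=
        congrArg Subtype.val hdd
      have h4 : idl d = idl d' := by
        apply hcancel
        rw [← hspan (d, j), ← hspan (d', j')]
        simp only
        rw [h3]
      have h5 := congrArg (fun x : 𝓞 K => σ₂ (x : K)) h3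
      simp only [hσmul] at h5
      have h6 : d = d' := by
        rcases d with I | I <;> rcases d' with I' | I'
        · exact congrArg _ (Subtype.ext h4)
        · exfalso
          have p1 : 0 < σ₂ ((η : 𝓞 K) : K) ^ j * σ₂ (g (Sum.inl I) : K) :=
            mul_pos (zpow_pos hηs _) (hgl I)
          have p2 : σ₂ ((η : 𝓞 K) : K) ^ j' * σ₂ (g (Sum.inr I') : K) < 0 :=
            mul_neg_of_pos_of_neg (zpow_pos hηs _) (hgr I')
          linarith
        · exfalso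
          have p1 : 0 < σ₂ ((η : 𝓞 K) : K) ^ j' * σ₂ (g (Sum.inl I') : K) :=
            mul_pos (zpow_pos hηs _) (hgl I')
          have p2 : σ₂ ((η : 𝓞 K) : K) ^ j * σ₂ (g (Sum.inr I) : K) < 0 :=
            mul_neg_of_pos_of_neg (zpow_pos hηs _) (hgr I)
          linarith
        · exact congrArg _ (Subtype.ext h4)
      subst h6
      have h7 := mul_right_cancel₀ (hg0 d) h3
      have h8 := congrArg (fun x : 𝓞 K => |sg1 K (x : K)|) h7
      simp only [unit_val_zpow_coe, abs_zpow] at h8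
      have h9 := zpow_right_injective₀ (zero_lt_one.trans hη1) hη1.ne' h8
      rw [h9]
    · rintro ⟨x, hx1, hx2⟩
      have hx0 : x ≠ 0 := by
        rintro rfl
        apply hm1
        rw [Ideal.eq_top_iff_one]
        have := m.neg_mem hx2
        simpa using this
      have hxs : σ₂ (x : K) ≠ 0 := (map_ne_zero _).2 (coe_ne_zero' hx0)
      obtain ⟨I, hI⟩ : ∃ I, I * b = Ideal.span {x} := by
        have h3 : b ∣ Ideal.span {x} := by
          rw [Ideal.dvd_span_singleton]; exact hx1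
        obtain ⟨I, hI⟩ := h3
        exact ⟨I, by rw [hI, mul_comm]⟩
      -- find the class
      obtain ⟨d, hd1, hd2⟩ : ∃ d, idl d = I ∧ 0 < σ₂ (g d : K) * σ₂ (x : K) := by
        rcases lt_or_gt_of_ne hxs with h | h
        · refine ⟨Sum.inr ⟨I, (hA₁ I).2 ⟨x, hI, hx2, h⟩⟩, rfl, ?_⟩
          exact mul_pos_of_neg_of_neg (hgr _) h
        · refine ⟨Sum.inl ⟨I, (hA₀ I).2 ⟨x, hI, hx2, h⟩⟩, rfl, ?_⟩
          exact mul_pos (hgl _) h
      have h3 : Ideal.span {g d} = Ideal.span {x} := by rw [← hg1, hd1, hI]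
      rw [Ideal.span_singleton_eq_span_singleton] at h3
      obtain ⟨u, hu⟩ := h3
      have hu1 : (u : 𝓞 K) - 1 ∈ m := by
        have : (u : 𝓞 K) - 1 = (x - 1) - (u : 𝓞 K) * (g d - 1) := by
          rw [← hu]; ring
        rw [this]
        exact m.sub_mem hx2 (m.mul_mem_left _ (hg2 d))
      have hu2 : 0 < σ₂ ((u : 𝓞 K) : K) := by
        have h4 : σ₂ (x : K) = σ₂ (g d : K) * σ₂ ((u : 𝓞 K) : K) := by
          rw [← map_mul, ← hu]
          rfl
        rw [h4] at hd2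
        have h5 : σ₂ (g d : K) * (σ₂ (g d : K) * σ₂ ((u : 𝓞 K) : K)) =
          (σ₂ (g d : K)) ^ 2 * σ₂ ((u : 𝓞 K) : K) := by ring
        rw [h5] at hd2
        exact (pos_iff_pos_of_mul_pos hd2).1 (by have := hgs d; positivity)
      obtain ⟨j, hj⟩ := hη2 u ⟨hu1, hu2⟩
      refine ⟨(d, j), Subtype.ext ?_⟩
      change ((η ^ j : (𝓞 K)ˣ) : 𝓞 K) * g d = x
      rw [← hj, mul_comm, hu]
  let e := (Equiv.ofBijective F hF).trans f
  have he : ∀ p, e p = f (F p) := fun p => rfl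
  have hηabs : σ₂ ((η : 𝓞 K) : K) = |sg1 K ((η : 𝓞 K) : K)|⁻¹ := by
    have h3 := unit_abs h2 hσ η
    rw [abs_mul, abs_of_pos hηs] at h3
    exact eq_inv_of_mul_eq_one_right h3
  have hnorm : ∀ d, |sg1 K (g d : K) * σ₂ (g d : K)| =
      (Ideal.absNorm (idl d) : ℝ) * Ideal.absNorm b := by
    intro d
    rw [← absNorm_eq h2 hσ, ← hg1, map_mul]
    push_cast
    rfl
  have hbpos : 0 < (Ideal.absNorm b : ℝ) := by
    have : Ideal.absNorm b ≠ 0 := by rwa [Ne, Ideal.absNorm_eq_zero_iff]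
    exact_mod_cast Nat.pos_of_ne_zero this
  have hη0 : sg1 K ((η : 𝓞 K) : K) ≠ 0 := (map_ne_zero _).2 (coe_ne_zero' η.ne_zero)
  let O : Orb (idealsOf σ₂ m A₀ ⊕ idealsOf σ₂ m A₁) :=
    { L := L
      lam := |sg1 K ((η : 𝓞 K) : K)|
      lam_gt := hη1
      sg := Real.sign (sg1 K ((η : 𝓞 K) : K))
      sg_sq := sign_sq hη0
      p1 := fun d => sg1 K (g d : K)
      p2 := fun d => σ₂ (g d : K)
      p1_ne := fun d => (map_ne_zero _).2 (coe_ne_zero' (hg0 d))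
      p2_ne := hgs
      e := e
      h1 := by
        intro d j
        rw [he, hf1]
        change sg1 K ((((η ^ j : (𝓞 K)ˣ) : 𝓞 K) * g d : 𝓞 K) : K) = _
        rw [hσmul1, sign_abs]
      h2 := by
        intro d j
        rw [he, hf2]
        change σ₂ ((((η ^ j : (𝓞 K)ˣ) : 𝓞 K) * g d : 𝓞 K) : K) = _
        rw [hσmul, hηabs]
      summ := by
        intro s hs
        have h3 : ∀ d, |sg1 K (g d : K) * σ₂ (g d : K)| ^ (-s) =
            (Ideal.absNorm (idl d) : ℝ) ^ (-s) * (Ideal.absNorm b : ℝ) ^ (-s) := by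
          intro d
          rw [hnorm, Real.mul_rpow (Nat.cast_nonneg _) (Nat.cast_nonneg _)]
        simp only [h3]
        apply Summable.mul_right
        apply Summable.sum
        · exact summable_idealsOf A₀ hs
        · exact summable_idealsOf A₁ hs }
  refine ⟨O, fun I => hnorm (Sum.inl I), fun I => hnorm (Sum.inr I), fun I => hgl I,
    fun I => hgr I⟩

end orb

end Pool.Agent.ST
end

section

/-!
The algebraic core: removing a prime from the modulus (main theorem).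
-/

set_option linter.style.haveILetI false

open IntermediateField Polynomial

namespace Pool.Agent.ST

variable {K : Type*} [Field K] [Algebra K ℝ] {H L M Ω : IntermediateField K ℝ}

section pairing

variable [FiniteDimensional K H] [IsAbelianGalois K H]

/-- the pairing measuring the failure of commutativity. -/
noncomputable def pairing (c : (H ≃ₐ[K] H) → ℝ) (σ τ : H ≃ₐ[K] H) : ℝ :=
  act τ (c σ) * c τ / (act σ (c τ) * c σ)

omit [FiniteDimensional K H] in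
/-- The pairing is multiplicative in the first variable when `c` is a cocycle up to sign. -/
lemma pairing_mul (c : (H ≃ₐ[K] H) → ℝ) (hc : ∀ σ, c σ ∈ H) (h0 : ∀ σ, c σ ≠ 0)
    (hcoc : ∀ σ σ', ∃ s : ℝ, (s = 1 ∨ s = -1) ∧ c (σ * σ') = s * (c σ * act σ (c σ')))
    (σ σ' τ : H ≃ₐ[K] H) :
    pairing c (σ * σ') τ = pairing c σ τ * act σ (pairing c σ' τ) := by
  obtain ⟨s, hs, hs'⟩ := hcoc σ σ'
  have hs0 : s ≠ 0 := by rcases hs with rfl | rfl <;> norm_num
  unfold pairing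
  have m1 := act_mem τ (hc σ')
  have m2 := act_mem σ' (hc τ)
  have m3 := act_mem σ (hc σ')
  rw [hs', act_mul τ (const_mem hs _) (mul_mem (hc σ) m3), act_const hs,
    act_mul τ (hc σ) m3, act_act_comm τ σ (hc σ'), act_comp _ _ (hc τ),
    act_div σ (mul_mem m1 (hc τ)) (mul_mem m2 (hc σ')), act_mul σ m1 (hc τ),
    act_mul σ m2 (hc σ')]
  have n1 := act_ne_zero σ (hc τ) (h0 τ)
  have n2 := act_ne_zero σ (hc σ') (h0 σ')
  have n3 := act_ne_zero σ m2 (act_ne_zero σ' (hc τ) (h0 τ))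
  have n4 := h0 σ
  field_simp

omit [FiniteDimensional K H] [IsAbelianGalois K H] in
lemma pairing_swap (c : (H ≃ₐ[K] H) → ℝ) (σ τ : H ≃ₐ[K] H) :
    pairing c τ σ = (pairing c σ τ)⁻¹ := by
  unfold pairing
  rw [inv_div]

omit [FiniteDimensional K H] in
/-- If the pairing is trivial on a generating set then it is trivial. -/
lemma pairing_eq_one (c : (H ≃ₐ[K] H) → ℝ) (hc : ∀ σ, c σ ∈ H) (h0 : ∀ σ, c σ ≠ 0)
    (hcoc : ∀ σ σ', ∃ s : ℝ, (s = 1 ∨ s = -1) ∧ c (σ * σ') = s * (c σ * act σ (c σ')))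
    (h1 : c 1 = 1) (S : Set (H ≃ₐ[K] H)) (hS : Subgroup.closure S = ⊤)
    (h : ∀ a ∈ S, ∀ b ∈ S, pairing c a b = 1) (σ τ : H ≃ₐ[K] H) : pairing c σ τ = 1 := by
  have key : ∀ τ : H ≃ₐ[K] H, (∀ a ∈ S, pairing c a τ = 1) → ∀ σ, pairing c σ τ = 1 := by
    intro τ hτ
    let T : Subgroup (H ≃ₐ[K] H) :=
      { carrier := {σ | pairing c σ τ = 1}
        mul_mem' := by
          intro a b ha hb
          change pairing c (a * b) τ = 1
          rw [pairing_mul c hc h0 hcoc, show pairing c a τ = 1 from ha,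
            show pairing c b τ = 1 from hb, act_one_right, one_mul]
        one_mem' := by
          change pairing c 1 τ = 1
          unfold pairing
          rw [h1, act_one_right, act_one_left (hc τ), one_mul, mul_one, div_self (h0 τ)]
        inv_mem' := by
          intro a ha
          change pairing c a⁻¹ τ = 1
          have e1 : pairing c (a⁻¹ * a) τ = pairing c a⁻¹ τ * act a⁻¹ (pairing c a τ) :=
            pairing_mul c hc h0 hcoc _ _ _
          rw [show pairing c a τ = 1 from ha, act_one_right, mul_one, inv_mul_cancel] at e1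
          rw [← e1]
          unfold pairing
          rw [h1, act_one_right, act_one_left (hc τ), one_mul, mul_one, div_self (h0 τ)] }
    have hT' : Subgroup.closure S ≤ T := (Subgroup.closure_le T).2 hτ
    rw [hS] at hT'
    intro σ
    exact hT' (Subgroup.mem_top σ)
  apply key τ
  intro a ha
  rw [pairing_swap, inv_eq_one]
  apply key a
  intro b hb
  exact h b hb a ha

end pairing

/-- **Algebraic core theorem.** -/
theorem core (σ₂ : K →+* ℝ) [FiniteDimensional K H] [IsAbelianGalois K H]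
    (e : (H ≃ₐ[K] H) → ℝ) (epos : ∀ σ, 0 < e σ) (eprod : ∏ σ, e σ = 1)
    {ι : Type*} (φ : ι → (H ≃ₐ[K] H)) (F : ι → IntermediateField K ℝ)
    [hfin : ∀ i, FiniteDimensional K (F i)] [hab : ∀ i, IsAbelianGalois K (F i)]
    (hF : ∀ i, H ≤ F i) (u : ι → ℝ)
    (hu : ∀ i, IsStarkUnit σ₂ (F i) (u i))
    (heven : ∀ i, Even (fib (hF i) (1 : H ≃ₐ[K] H)).card)
    (hnorm : ∀ i σ, fibProd (hF i) (u i) σ = e σ / e (σ * (φ i)⁻¹))
    (hinf : ∀ i j, i ≠ j → F i ⊓ F j ≤ H)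
    (hgen : Subgroup.closure {σ | ∃ i j, i ≠ j ∧ φ i = σ ∧ φ j = σ} = ⊤)
    (hpair : ∀ i j, i ≠ j → ∃ U : ℝ, U ∈ (F i ⊔ F j : IntermediateField K ℝ) ∧ 0 ≤ U ∧
      IsAbelianGalois K (sqrtExt (F i ⊔ F j) U) ∧
      (∃ Φj : F i ≃ₐ[K] F i, res (hF i) Φj = φ j ∧
        fibProd (le_sup_left : F i ≤ F i ⊔ F j) U 1 = u i / act Φj⁻¹ (u i)) ∧
      (∃ Φi : F j ≃ₐ[K] F j, res (hF j) Φi = φ i ∧
        fibProd (le_sup_right : F j ≤ F i ⊔ F j) U 1 = u j / act Φi⁻¹ (u j))) :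
    IsStarkUnit σ₂ H (e 1) ∧ ∀ τ, act τ (e 1) = e τ := by
  classical
  set S : Set (H ≃ₐ[K] H) := {σ | ∃ i j, i ≠ j ∧ φ i = σ ∧ φ j = σ} with hS
  set r : (H ≃ₐ[K] H) → ℝ := fun σ => Real.sqrt (e σ) with hr
  have r0 : ∀ σ, r σ ≠ 0 := fun σ => (Real.sqrt_pos.2 (epos σ)).ne'
  have rpos : ∀ σ, 0 < r σ := fun σ => Real.sqrt_pos.2 (epos σ)
  have rsq : ∀ σ, r σ ^ 2 = e σ := fun σ => Real.sq_sqrt (epos σ).le
  have e0 : ∀ σ, e σ ≠ 0 := fun σ => (epos σ).ne'
  -- Step A, B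
  have stepA : ∀ i σ, r σ / r (σ * (φ i)⁻¹) ∈ F i := by
    intro i σ
    haveI := (hu i).ab
    have h1 : r σ / r (σ * (φ i)⁻¹) = ∏ γ ∈ fib (hF i) σ, Real.sqrt (act γ (u i)) := by
      rw [hr]
      simp only
      rw [← Real.sqrt_div (epos σ).le, ← hnorm i σ, fibProd,
        Real.sqrt_prod _ (fun γ _ => ((hu i).pos γ).le)]
    rw [h1]
    apply prod_sqrt_mem (hu i).mem (hu i).pos
    rw [card_fib]; exact heven i
  have stepB : ∀ φ₀ ∈ S, ∀ σ, r σ / r (σ * φ₀⁻¹) ∈ H := by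
    rintro φ₀ ⟨i, j, hij, hi, hj⟩ σ
    apply hinf i j hij
    constructor
    · have := stepA i σ; rwa [hi] at this
    · have := stepA j σ; rwa [hj] at this
  have Q1 : ∀ σ τ, r σ / r τ ∈ H := by
    apply rel_all (fun σ τ => r σ / r τ ∈ H) _ _ _ S hgen stepB
    · intro a; rw [div_self (r0 a)]; exact one_mem _
    · intro a b hab
      have := inv_mem hab
      rwa [inv_div] at this
    · intro a b c h1 h2
      have := mul_mem h1 h2
      rwa [div_mul_div_cancel₀ (r0 b)] at this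
  -- Step D
  have Q2 : ∀ σ τ, (e σ / e τ ∈ H ∧ ∀ ρ : H ≃ₐ[K] H, act ρ (e σ / e τ) = e (ρ * σ) / e (ρ * τ)) := by
    apply rel_all (fun σ τ => (e σ / e τ ∈ H ∧
      ∀ ρ : H ≃ₐ[K] H, act ρ (e σ / e τ) = e (ρ * σ) / e (ρ * τ))) _ _ _ S hgen
    · rintro φ₀ ⟨i, j, hij, hi, hj⟩ σ
      have hmem : e σ / e (σ * φ₀⁻¹) ∈ H := by
        rw [← hi, ← hnorm i σ]
        exact fibProd_mem_base (hF i) (hu i).mem σ
      refine ⟨hmem, ?_⟩
      intro ρ
      obtain ⟨ρ', hρ'⟩ := res_surjective (hF i) ρ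
      rw [← hρ', act_res (hF i) ρ' hmem, ← hi, ← hnorm i σ, act_fibProd (hF i) (hu i).mem,
        hnorm i, mul_assoc]
    · intro a
      refine ⟨by rw [div_self (e0 a)]; exact one_mem _, fun ρ => ?_⟩
      rw [div_self (e0 a), act_one_right, div_self (e0 _)]
    · intro a b ⟨h1, h2⟩
      refine ⟨by have := inv_mem h1; rwa [inv_div] at this, fun ρ => ?_⟩
      rw [← inv_div (e a) (e b), act_inv _ h1, h2 ρ, inv_div]
    · intro a b c ⟨h1, h2⟩ ⟨h3, h4⟩
      refine ⟨by have := mul_mem h1 h3; rwa [div_mul_div_cancel₀ (e0 b)] at this, fun ρ => ?_⟩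
      rw [← div_mul_div_cancel₀ (c := e c) (e0 b), act_mul _ h1 h3, h2 ρ, h4 ρ,
        div_mul_div_cancel₀ (e0 _)]
  -- absolute values
  have Q3 : ∀ g : H →+* ℂ, Over σ₂ g → ∀ σ τ, ‖emb g (e σ / e τ)‖ = 1 := by
    intro g hg
    apply rel_all (fun σ τ => ‖emb g (e σ / e τ)‖ = 1) _ _ _ S hgen
    · rintro φ₀ ⟨i, j, hij, hi, hj⟩ σ
      obtain ⟨g', hg'⟩ := exists_extend g (hF i)
      have hmem : e σ / e (σ * φ₀⁻¹) ∈ H := (Q2 _ _).1
      rw [← hg' _ hmem, ← hi, ← hnorm i σ, fibProd, emb_prod g' _ _ fun γ _ => act_mem γ (hu i).mem,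
        norm_prod]
      apply Finset.prod_eq_one
      intro γ _
      have h1 := (hu i).abs (g'.comp (γ : F i →+* F i)) (by
        intro a
        simp only [RingHom.comp_apply]
        have : (γ : F i →+* F i) (algebraMap K (F i) a) = algebraMap K (F i) a := γ.commutes a
        rw [this, ← hg a]
        have h3 := hg' (algebraMap K ℝ a) (H.algebraMap_mem a)
        rw [emb_of_mem _ (H.algebraMap_mem a), emb_of_mem _ ((F i).algebraMap_mem a)] at h3
        exact h3)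
      rw [act_of_mem γ (hu i).mem, emb_coe]
      exact h1
    · intro a
      rw [div_self (e0 a), emb_one, norm_one]
    · intro a b h
      rw [← inv_div (e a) (e b), emb_inv _ (Q2 a b).1, norm_inv, h, inv_one]
    · intro a b c h1 h2
      rw [← div_mul_div_cancel₀ (c := e c) (e0 b), emb_mul _ (Q2 a b).1 (Q2 b c).1, norm_mul, h1, h2,
        one_mul]
  -- integrality
  have Q4 : ∀ σ τ, (IsIntegral ℤ (e σ / e τ) ∧ IsIntegral ℤ (e τ / e σ)) := by
    apply rel_all (fun σ τ => (IsIntegral ℤ (e σ / e τ) ∧ IsIntegral ℤ (e τ / e σ))) _ _ _ S hgen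
    · rintro φ₀ ⟨i, j, hij, hi, hj⟩ σ
      constructor
      · rw [← hi, ← hnorm i σ]
        apply IsIntegral.prod
        intro γ _
        rw [act_of_mem γ (hu i).mem]
        have h1 : IsIntegral ℤ (⟨u i, (hu i).mem⟩ : F i) := by
          have := (hu i).int
          exact (isIntegral_algebraMap_iff (algebraMap (F i) ℝ).injective).1 this
        have h2 := h1.map ((γ : F i →+* F i).toIntAlgHom)
        exact h2.map (algebraMap (F i) ℝ).toIntAlgHom
      · rw [← hi, ← inv_div, ← hnorm i σ, fibProd, ← Finset.prod_inv_distrib]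
        apply IsIntegral.prod
        intro γ _
        rw [← act_inv _ (hu i).mem, act_of_mem γ (inv_mem (hu i).mem)]
        have h1 : IsIntegral ℤ (⟨(u i)⁻¹, inv_mem (hu i).mem⟩ : F i) := by
          have := (hu i).int_inv
          exact (isIntegral_algebraMap_iff (algebraMap (F i) ℝ).injective).1 this
        have h2 := h1.map ((γ : F i →+* F i).toIntAlgHom)
        exact h2.map (algebraMap (F i) ℝ).toIntAlgHom
    · intro a
      rw [div_self (e0 a)]; exact ⟨isIntegral_one, isIntegral_one⟩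
    · intro a b h; exact ⟨h.2, h.1⟩
    · intro a b c h1 h2
      constructor
      · rw [← div_mul_div_cancel₀ (c := e c) (e0 b)]; exact h1.1.mul h2.1
      · rw [← div_mul_div_cancel₀ (c := e a) (e0 b)]; exact h2.2.mul h1.2
  -- the cocycle c
  set c : (H ≃ₐ[K] H) → ℝ := fun σ => r σ / r 1 with hc
  have cH : ∀ σ, c σ ∈ H := fun σ => Q1 σ 1
  have cpos : ∀ σ, 0 < c σ := fun σ => div_pos (rpos σ) (rpos 1)
  have c0 : ∀ σ, c σ ≠ 0 := fun σ => (cpos σ).ne'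
  have c1 : c 1 = 1 := div_self (r0 1)
  have csq : ∀ σ, c σ ^ 2 = e σ / e 1 := by
    intro σ
    rw [hc]; simp only
    rw [div_pow, rsq, rsq]
  have ccoc : ∀ σ σ', ∃ s : ℝ, (s = 1 ∨ s = -1) ∧ c (σ * σ') = s * (c σ * act σ (c σ')) := by
    intro σ σ'
    apply exists_sign
    rw [mul_pow, ← act_pow _ (cH σ'), csq, csq, csq, (Q2 σ' 1).2 σ, mul_one, mul_comm,
      div_mul_div_cancel₀ (e0 σ)]
  -- the set of inverses
  set S' : Set (H ≃ₐ[K] H) := {a | a⁻¹ ∈ S} with hS'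
  have hgen' : Subgroup.closure S' = ⊤ := by
    rw [eq_top_iff, ← hgen, Subgroup.closure_le]
    intro a ha
    have : a⁻¹ ∈ Subgroup.closure S' := Subgroup.subset_closure (by rw [hS']; simpa using ha)
    simpa using inv_mem this
  have hpairing : ∀ a ∈ S', ∀ b ∈ S', pairing c a b = 1 := by
    rintro a ⟨i, i', hii', hi, hi'⟩ b ⟨j, j', hjj', hj, hj'⟩
    -- choose distinct indices
    obtain ⟨k, hk, hik⟩ : ∃ k, φ k = b⁻¹ ∧ i ≠ k := by
      by_cases h : i = j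
      · exact ⟨j', hj', by rw [h]; exact hjj'⟩
      · exact ⟨j, hj, h⟩
    obtain ⟨U, hUm, hU0, hUab, ⟨Φj, hΦj, hΦj'⟩, ⟨Φi, hΦi, hΦi'⟩⟩ := hpair i k hik
    haveI := (hu i).ab
    haveI := (hu k).ab
    have hξ : ∀ l, fibProd (hF l) (u l) 1 = (r 1 / r (φ l)⁻¹) ^ 2 := by
      intro l
      rw [hnorm l 1, one_mul, div_pow, rsq, rsq]
    have key := pair_relation (hF i) (hF k) (le_sup_left : F i ≤ F i ⊔ F k)
      (le_sup_right : F k ≤ F i ⊔ F k) le_rfl (hinf i k hik) (hu i).mem (hu k).mem hUm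
      (hu i).pos'.le (hu k).pos'.le hU0 (Q1 1 (φ i)⁻¹) (Q1 1 (φ k)⁻¹) (hξ i) (hξ k)
      (heven i) (heven k) Φj Φi hΦj' hΦi'
    rw [hΦj, hΦi, hi, hk, inv_inv, inv_inv] at key
    have hca : r 1 / r a = (c a)⁻¹ := by rw [hc]; simp only; rw [inv_div]
    have hcb : r 1 / r b = (c b)⁻¹ := by rw [hc]; simp only; rw [inv_div]
    rw [hca, hcb, act_inv _ (cH a), act_inv _ (cH b)] at key
    have na := act_ne_zero b (cH a) (c0 a)
    have nb := act_ne_zero a (cH b) (c0 b)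
    unfold pairing
    have ca := c0 a
    have cb := c0 b
    rw [div_eq_one_iff_eq (mul_ne_zero nb ca)]
    field_simp at key
    linarith
  have hP := pairing_eq_one c cH c0 ccoc c1 S' hgen' hpairing
  have hcomm : ∀ σ τ, act τ (c σ) * c τ = act σ (c τ) * c σ := by
    intro σ τ
    have := hP σ τ
    unfold pairing at this
    rwa [div_eq_one_iff_eq (mul_ne_zero (act_ne_zero σ (cH τ) (c0 τ)) (c0 σ))] at this
  -- complex conjugation
  obtain ⟨g, hg⟩ := exists_over (H := H) σ₂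
  obtain ⟨C, hC⟩ := exists_conj hg
  have habs : ∀ x ∈ H, ‖emb g x‖ = 1 → x * act C x = 1 := by
    intro x hx h
    apply emb_inj g (mul_mem hx (act_mem C hx)) (one_mem _)
    rw [emb_mul g hx (act_mem C hx), hC x hx, Complex.mul_conj, Complex.normSq_eq_norm_sq, h,
      emb_one]
    simp
  have hκ : ∀ σ, e σ * e (C * σ) = e 1 * e C := by
    intro σ
    have h1 := habs _ (Q2 σ 1).1 (Q3 g hg σ 1)
    rw [(Q2 σ 1).2 C, mul_one] at h1
    have h2 := e0 1
    have h3 := e0 C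
    field_simp at h1
    linarith
  have hκ1 : e 1 * e C = 1 := by
    have h1 : ∏ σ : H ≃ₐ[K] H, (e σ * e (C * σ)) = 1 := by
      rw [Finset.prod_mul_distrib, eprod, one_mul]
      rw [← eprod]
      exact Fintype.prod_equiv (Equiv.mulLeft C) _ _ (fun σ => rfl)
    rw [Finset.prod_congr rfl fun σ _ => hκ σ, Finset.prod_const] at h1
    have h2 : (0 : ℝ) ≤ e 1 * e C := (mul_pos (epos 1) (epos C)).le
    exact (pow_eq_one_iff_of_nonneg h2 (by
      rw [Finset.card_univ]; exact Fintype.card_ne_zero)).1 h1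
  have heC : e C = (e 1)⁻¹ := eq_inv_of_mul_eq_one_right hκ1
  have hcC : c C = (e 1)⁻¹ := by
    have h1 : c C ^ 2 = ((e 1)⁻¹) ^ 2 := by
      rw [csq, heC]; field_simp
    exact (sq_eq_sq₀ (cpos C).le (inv_pos.2 (epos 1)).le).1 h1
  have he1 : e 1 = (c C)⁻¹ := by rw [hcC, inv_inv]
  have he1H : e 1 ∈ H := by rw [he1]; exact inv_mem (cH C)
  have hact : ∀ τ, act τ (e 1) = e τ := by
    intro τ
    have h1 := hcomm C τ
    have h2 : c τ * act C (c τ) = 1 := by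
      apply habs _ (cH τ)
      have h3 : ‖emb g (c τ)‖ ^ 2 = 1 := by
        rw [← norm_pow, sq, ← emb_mul g (cH τ) (cH τ), ← sq, csq]
        exact Q3 g hg τ 1
      exact (pow_eq_one_iff_of_nonneg (norm_nonneg _) two_ne_zero).1 h3
    have h5 : act C (c τ) = (c τ)⁻¹ := eq_inv_of_mul_eq_one_right h2
    have h4 : act τ (c C) = (e τ)⁻¹ := by
      rw [h5] at h1
      have h6 : act τ (c C) = (c τ)⁻¹ * c C / c τ := eq_div_of_mul_eq (c0 τ) h1
      have h7 : (c τ)⁻¹ * c C / c τ = c C / c τ ^ 2 := by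
        have := c0 τ
        field_simp
      rw [h6, h7, csq, hcC]
      have h8 := e0 1
      have h9 := e0 τ
      field_simp
    rw [he1, act_inv _ (cH C), h4, inv_inv]
  refine ⟨⟨he1H, fun σ => by rw [hact]; exact epos σ, ?_, ?_, ?_, ?_⟩, hact⟩
  · apply IsIntegral.of_pow (n := 2) (by norm_num)
    have : e 1 ^ 2 = e 1 / e C := by rw [heC]; field_simp
    rw [this]; exact (Q4 1 C).1
  · apply IsIntegral.of_pow (n := 2) (by norm_num)
    have : (e 1)⁻¹ ^ 2 = e C / e 1 := by rw [heC]; field_simp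
    rw [this]; exact (Q4 1 C).2
  · intro g' hg'
    have h1 := Q3 g' hg' 1 C
    have h2 : e 1 / e C = e 1 * e 1 := by rw [heC]; field_simp
    rw [h2, emb_mul g' he1H he1H, norm_mul, ← sq] at h1
    have h3 := (pow_eq_one_iff_of_nonneg (norm_nonneg _) two_ne_zero).1 h1
    rwa [emb_of_mem _ he1H] at h3
  · apply isAbelianGalois_sqrtExt he1H
    · intro σ; rw [hact]; exact epos σ
    · intro σ; rw [hact]; exact cH σ
    · intro σ τ
      rw [hact, hact]; exact hcomm σ τ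

end Pool.Agent.ST
end

section

/-!
# A class without trivial odd powers, for the modulus multiplied with an ideal
-/

open NumberField IsDedekindDomain nonZeroDivisors IntermediateField

namespace Pool.Agent.ST

section ray

variable {K : Type*} [Field K] [NumberField K] {σ₂ : K →+* ℝ}

lemma inRay_pow_aux {m : Ideal (𝓞 K)} {J : (FI K)ˣ} (h : InRay σ₂ m J) (f : ℕ) :
    InRay σ₂ m (J ^ (f + 1)) := by
  induction f with
  | zero => rw [zero_add, pow_one]; exact h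
  | succ f ih => rw [pow_succ]; exact ih.mul h

/-- The class with nontrivial odd powers, for the modulus multiplied with an ideal. -/
theorem ray_elt_mul {n N 𝔞 : Ideal (𝓞 K)} (hle : N ≤ n) (hN : N ≠ ⊥) (h𝔞 : 𝔞 ≠ ⊥)
    (hcop : IsCoprime N 𝔞) {J : (FI K)ˣ} (hJ : J ∈ primeTo (K := K) N) (hray : InRay σ₂ n J)
    (hodd : ∀ f : ℕ, Odd f → ¬ InRay σ₂ N (J ^ f)) :
    ∃ J' : (FI K)ˣ, J' ∈ primeTo (K := K) (N * 𝔞) ∧ InRay σ₂ (n * 𝔞) J' ∧
      ∀ f : ℕ, Odd f → ¬ InRay σ₂ (N * 𝔞) (J' ^ f) := by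
  obtain ⟨a, b, ha, hb, hab, ha0, hb0, hpos, hJe⟩ := rep hN hJ hray
  obtain ⟨x, hx, y, hy, hxy⟩ := Ideal.isCoprime_iff_exists.1 hb
  obtain ⟨b', rfl⟩ := Ideal.mem_span_singleton'.1 hx
  obtain ⟨c₀, h1, h2⟩ := exists_crt hcop (b' * a) 1
  obtain ⟨c, h3, h4⟩ := exists_pos σ₂ (mul_ne_bot' hN h𝔞) c₀
  have hcn : IsCoprime n 𝔞 := by
    rw [isCoprime_comm] at hcop ⊢
    exact isCoprime_of_le hcop hle
  have h5 : c * b - a ∈ N := by
    have : c * b - a = (c - c₀) * b + (c₀ - b' * a) * b - a * y := by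
      linear_combination a * hxy
    rw [this]
    exact N.sub_mem (N.add_mem (N.mul_mem_right _ (Ideal.mul_le_left h3)) (N.mul_mem_right _ h1))
      (N.mul_mem_left _ hy)
  have h6 : c - 1 ∈ 𝔞 := by
    have : c - 1 = (c - c₀) + (c₀ - 1) := by ring
    rw [this]
    exact 𝔞.add_mem (Ideal.mul_le_right h3) h2
  have h7 : c - 1 ∈ n := by
    have : c - 1 = b' * ((c * b - a) + (a - b)) + (c - 1) * y := by
      linear_combination (-(c - 1)) * hxy
    rw [this]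
    exact n.add_mem (n.mul_mem_left _ (n.add_mem (hle h5) hab)) (n.mul_mem_left _ (hle hy))
  have hc0 : c ≠ 0 := ne_zero_of_pos h4
  have hc0' : (c : K) ≠ 0 := coe_ne_zero' hc0
  have hb0' : (b : K) ≠ 0 := coe_ne_zero' hb0
  have hcbN : IsCoprime (Ideal.span {c * b}) N := coprime_of_sub_mem ha h5
  have hcN : IsCoprime (Ideal.span {c}) N := by
    rw [← Ideal.span_singleton_mul_span_singleton] at hcbN
    exact hcbN.of_mul_left_left
  have hcc : IsCoprime (Ideal.span {c}) (N * 𝔞) := hcN.mul_right (coprime_span_of_sub_one_mem h6)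
  have hJ' : uP (c : K) hc0' ∈ primeTo (K := K) (N * 𝔞) :=
    coe_mem_primeTo (I := Ideal.span {c}) (by rw [coe_uP, coe_span_singleton]) hcc
  refine ⟨uP (c : K) hc0', hJ', ⟨c, oneMod_of_sub_one_mem ?_, h4, coe_uP _ _⟩, ?_⟩
  · rw [Ideal.mul_eq_inf_of_isCoprime hcn]
    exact ⟨h7, h6⟩
  · rintro f hf hcon
    obtain ⟨i, rfl⟩ : ∃ i, f = i + 1 := ⟨f - 1, by have := hf.pos; omega⟩
    have h8 : InRay σ₂ N (uP (c : K) hc0' ^ (i + 1)) := hcon.mono Ideal.mul_le_left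
    have h9 : InRay σ₂ N (J * (uP (c : K) hc0')⁻¹) := by
      refine ⟨(a : K) / ((c * b : 𝓞 K) : K), ⟨a, c * b, hcbN, ?_, rfl⟩, ?_, ?_⟩
      · have : a - c * b = -(c * b - a) := by ring
        rw [this]; exact N.neg_mem h5
      · have : (a : K) / ((c * b : 𝓞 K) : K) = ((a : K) / (b : K)) / (c : K) := by
          simp only [RingOfIntegers.coe_eq_algebraMap, map_mul]
          rw [div_div, mul_comm]
        rw [this, map_div₀]
        exact div_pos hpos h4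
      · rw [Units.val_mul, Units.val_inv_eq_inv_val, coe_uP, hJe,
          FractionalIdeal.spanSingleton_inv, FractionalIdeal.spanSingleton_mul_spanSingleton]
        congr 1
        simp only [RingOfIntegers.coe_eq_algebraMap, map_mul]
        rw [← div_eq_mul_inv, div_div, mul_comm]
    apply hodd (i + 1) hf
    have h10 := (inRay_pow_aux h9 i).mul h8
    rwa [← mul_pow, inv_mul_cancel_right] at h10

end ray

end Pool.Agent.ST
end

section

/-!
# The count of the Selmer group: 2-groups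
-/

namespace Pool.Agent.STc.Cnt

open Subgroup

section tcount

variable {A : Type*} [CommGroup A] {G : Type*} [Group G] [MulDistribMulAction G A]
  (T : Subgroup G) [Fintype T]

/-- the product of the conjugates by a subset of `T` -/
def tp (v : A) (z : T → ZMod 2) : A := ∏ t : T, ((t : G) • v) ^ (z t).val

variable {T}

lemma tp_zero (v : A) : tp T v 0 = 1 := by simp [tp]

lemma tp_add (v : A) (z z' : T → ZMod 2) : ∃ s, tp T v z * tp T v z' = tp T v (z + z') * s ^ 2 := by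
  have h : ∀ t : T, ∃ m : ℕ, (z t).val + (z' t).val = ((z + z') t).val + m * 2 := by
    intro t
    refine ⟨((z t).val + (z' t).val) / 2, ?_⟩
    rw [Pi.add_apply, ZMod.val_add]
    omega
  choose m hm using h
  refine ⟨∏ t : T, ((t : G) • v) ^ m t, ?_⟩
  unfold tp
  rw [← Finset.prod_mul_distrib, ← Finset.prod_pow, ← Finset.prod_mul_distrib]
  refine Finset.prod_congr rfl fun t _ => ?_
  rw [← pow_add, hm, pow_add, pow_mul]

lemma tp_trans (v : A) (z : T → ZMod 2) (s : T) :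
    tp T v (fun t => z (s⁻¹ * t)) = (s : G) • tp T v z := by
  unfold tp
  rw [Finset.smul_prod', ← Equiv.prod_comp (Equiv.mulLeft s)]
  refine Finset.prod_congr rfl fun t _ => ?_
  rw [Equiv.coe_mulLeft]
  change ((s * t : T) • v) ^ (z (s⁻¹ * (s * t))).val = _
  rw [inv_mul_cancel_left, smul_pow', ← mul_smul]
  rfl

lemma isSquare_smul {g : G} {x : A} (h : IsSquare x) : IsSquare (g • x) := by
  obtain ⟨y, rfl⟩ := h
  exact ⟨g • y, by rw [smul_mul']⟩

lemma ff_tp (Z : Finset G) (hab : ∀ g h : G, g * h = h * g) (v : A) (z : T → ZMod 2) :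
    tp T (ff Z v) z = ff Z (tp T v z) := by
  unfold tp
  rw [map_prod]
  refine Finset.prod_congr rfl fun t _ => ?_
  rw [map_pow, ff_smul Z hab]

lemma tp_mem {X : Subgroup A} (hX : ∀ (g : G), ∀ x ∈ X, g • x ∈ X) {v : A} (hv : v ∈ X)
    (z : T → ZMod 2) : tp T v z ∈ X := prod_mem fun t _ => pow_mem (hX _ _ hv) _

/-- the elements `z` with `z v` a square -/
def tJ (v : A) : AddSubgroup (T → ZMod 2) where
  carrier := {z | IsSquare (tp T v z)}
  zero_mem' := by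
    change IsSquare _
    rw [tp_zero]
    exact IsSquare.one
  add_mem' := by
    intro z z' hz hz'
    obtain ⟨s, hs⟩ := tp_add v z z'
    have h1 : tp T v (z + z') = tp T v z * tp T v z' / s ^ 2 := by
      rw [hs, mul_div_cancel_right]
    change IsSquare _
    rw [h1]
    exact (hz.mul hz').div (IsSquare.sq s)
  neg_mem' := by
    intro z hz
    have h1 : -z = z := by
      ext t
      have : ∀ a : ZMod 2, -a = a := by decide
      exact this _
    rw [h1]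
    exact hz

lemma mem_tJ {v : A} {z : T → ZMod 2} : z ∈ tJ v ↔ IsSquare (tp T v z) := Iff.rfl

/-- the action of `T` -/
@[instance_reducible] def tAct (v : A) : MulAction T (tJ (T := T) v) where
  smul s z := ⟨fun t => z.1 (s⁻¹ * t), by
    rw [mem_tJ, tp_trans]
    exact isSquare_smul z.2⟩
  one_smul z := by
    apply Subtype.ext
    ext t
    change z.1 (1⁻¹ * t) = z.1 t
    rw [inv_one, one_mul]
  mul_smul s s' z := by
    apply Subtype.ext
    ext t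
    change z.1 ((s * s')⁻¹ * t) = z.1 (s'⁻¹ * (s⁻¹ * t))
    rw [mul_inv_rev, mul_assoc]

/-- if `N_T v` is not a square then the elements `z v` are different modulo squares. -/
theorem tcount (hT : IsPGroup 2 T) (v : A) (hv : ¬ IsSquare (∏ t : T, (t : G) • v))
    (z z' : T → ZMod 2) (h : IsSquare ((tp T v z)⁻¹ * tp T v z')) : z = z' := by
  classical
  by_contra hne
  have h2 : ∀ a : ZMod 2, a + a = 0 := by decide
  have h0 : z + z' ≠ 0 := by
    intro h0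
    apply hne
    ext t
    have h3 := congrFun h0 t
    rw [Pi.add_apply, Pi.zero_apply] at h3
    have : ∀ a b : ZMod 2, a + b = 0 → a = b := by decide
    exact this _ _ h3
  have hJ : z + z' ∈ tJ (T := T) v := by
    rw [mem_tJ]
    obtain ⟨s, hs⟩ := tp_add v z z'
    have h1 : tp T v (z + z') = ((tp T v z)⁻¹ * tp T v z') * (tp T v z / s) ^ 2 := by
      have h3 : tp T v (z + z') = tp T v z * tp T v z' / s ^ 2 := by
        rw [hs, mul_div_cancel_right]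
      rw [h3, div_pow, pow_two (tp T v z), mul_comm (tp T v z)⁻¹, mul_assoc, ← mul_div_assoc,
        inv_mul_cancel_left, ← mul_div_assoc, mul_comm (tp T v z)]
    rw [h1]
    exact h.mul (IsSquare.sq _)
  let _ := tAct (T := T) v
  have hcard : 2 ∣ Nat.card (tJ (T := T) v) := by
    have h3 : addOrderOf (⟨z + z', hJ⟩ : tJ (T := T) v) = 2 := by
      apply addOrderOf_eq_prime
      · apply Subtype.ext
        ext t
        change (2 • (z + z')) t = 0
        rw [Pi.smul_apply, two_nsmul]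
        rw [h2]
      · intro h4
        exact h0 (congrArg Subtype.val h4)
    have h4 := addOrderOf_dvd_natCard (⟨z + z', hJ⟩ : tJ (T := T) v)
    rwa [h3] at h4
  have hfix0 : (0 : tJ (T := T) v) ∈ MulAction.fixedPoints T (tJ (T := T) v) := by
    intro s
    apply Subtype.ext
    ext t
    rfl
  have : Fact (Nat.Prime 2) := ⟨Nat.prime_two⟩
  obtain ⟨b, hb, hb0⟩ := hT.exists_fixed_point_of_prime_dvd_card_of_fixed_point _ hcard hfix0
  have hconst : ∀ t : T, b.1 t = b.1 1 := by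
    intro t
    have h4 := congrArg Subtype.val (hb t)
    have h5 := congrFun h4 t
    have h6 : b.1 (t⁻¹ * t) = b.1 t := h5
    rw [← h6, inv_mul_cancel]
  have hb1 : b.1 1 = 1 := by
    rcases zmod2_cases (b.1 1) with h4 | h4
    · exfalso
      apply hb0
      apply Subtype.ext
      ext t
      rw [hconst, h4]
      rfl
    · exact h4
  apply hv
  have h5 := b.2
  rw [mem_tJ] at h5
  have h6 : tp T v b.1 = ∏ t : T, (t : G) • v := by
    unfold tp
    refine Finset.prod_congr rfl fun t _ => ?_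
    rw [hconst, hb1]
    simp [ZMod.val_one]
  rwa [h6] at h5

end tcount

end Pool.Agent.STc.Cnt
end

section

/-!
# The count of the Selmer group: abstract form
-/

namespace Pool.Agent.STc.Cnt

open Subgroup

/-- the abstract form of the count -/
theorem count_abs {A : Type*} [CommGroup A] {G : Type*} [Group G] [Finite G]
    [MulDistribMulAction G A] (hab : ∀ g h : G, g * h = h * g) {Z : Finset G} (hZ : IsIdem Z)
    {ι κ : Type*} [Fintype ι] [Fintype κ] [MulAction G ι] [MulAction G κ]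
    (S : A →* Multiplicative (ι → ZMod 2))
    (hSsurj : ∀ a : ι → ZMod 2, ∃ x, S x = Multiplicative.ofAdd a)
    (hSeq : ∀ (g : G) (x : A) (i : ι), (S (g • x)).toAdd i = (S x).toAdd (g⁻¹ • i))
    {U : Subgroup A} (hUG : ∀ (g : G), ∀ x ∈ U, g • x ∈ U)
    {c : A} (hc : ∀ g : G, g • c = c) (hcZ : ff Z c = 1) (h2 : ∀ x : A, x ^ 2 = 1 → x = 1 ∨ x = c)
    {π : ι ⊕ κ → A} (hπ : ∀ (g : G) i, g • π i = π (g • i)) (hgen : gen c π ≤ U)
    {N : ℕ} (hN : 0 < N) (hUN : ∀ x ∈ U, x ^ N ∈ gen c π)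
    (hS : ∀ y : A, ∃ u ∈ U, S (ff Z y) = S u)
    {u : A} (hu : u ∈ U) (hSu : S u = 1) (T : Subgroup G) [Fintype T] (hT : IsPGroup 2 T)
    (hu' : ¬ IsSquare (∏ t : T, (t : G) • ff Z u)) :
    Nat.card T ≤ Nat.card κ := by
  classical
  obtain ⟨w, hw, hwX⟩ := exists_w hZ A
  set f : A →* A := ff Z with hf
  set U₁ : Subgroup A := U ⊓ S.ker with hU₁
  have hSf : ∀ x, S (f x) = Multiplicative.ofAdd (fz Z (S x).toAdd) := by
    intro x
    rw [hf, ff_apply, map_prod]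
    apply Multiplicative.toAdd.injective
    rw [toAdd_prod, toAdd_ofAdd]
    ext i
    rw [Finset.sum_apply, fz_apply]
    exact Finset.sum_congr rfl fun g _ => hSeq g x i
  have hker : ∀ (g : G), ∀ x ∈ S.ker, g • x ∈ S.ker := by
    intro g x hx
    rw [MonoidHom.mem_ker] at hx ⊢
    apply Multiplicative.toAdd.injective
    ext i
    rw [hSeq, hx]
    rfl
  have hU₁G : ∀ (g : G), ∀ x ∈ U₁, g • x ∈ U₁ := fun g x hx => ⟨hUG g x hx.1, hker g x hx.2⟩
  have hgG : ∀ (g : G), ∀ x ∈ gen c π, g • x ∈ gen c π := fun g x hx => gen_smul hc hπ g hx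
  have hsqker : ∀ x : A, x ^ 2 ∈ S.ker := by
    intro x
    rw [MonoidHom.mem_ker, map_pow]
    apply Multiplicative.toAdd.injective
    ext i
    rw [toAdd_pow, Pi.smul_apply, two_nsmul]
    have : ∀ a : ZMod 2, a + a = 0 := by decide
    exact this _
  -- the upper bound
  have e1 : cc f U (sq U) = cc f (gen c π) (sq (gen c π)) := by
    refine cc_sq_eq hw ?_ (ff_mem Z hgG) (hwX _ hgG) N hN U hgen hUN (ff_mem Z hUG) (hwX _ hUG)
    intro x hx
    rcases h2 x hx with rfl | rfl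
    · exact one_mem _
    · exact self_mem_gen _ _
  obtain ⟨e2, e3⟩ := cc_gen_le Z hcZ hπ
  have e4 : cc f U (sq U) = cc f U U₁ * cc f U₁ (sq U) := by
    refine cc_mul hw inf_le_left ?_ (fun x hx => mem_sq.2 ⟨x, hx, rfl⟩) (ff_mem Z hU₁G) (hwX _ hUG)
    intro x hx
    refine ⟨sq_le hx, ?_⟩
    obtain ⟨y, _, rfl⟩ := mem_sq.1 hx
    exact hsqker y
  have e5 : Nat.card (fz Z (ι := ι) (B := ZMod 2)).range ≤ cc f U U₁ := by
    unfold cc
    have h1 : U₁.relIndex (U.map f) = S.ker.relIndex (U.map f) := by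
      rw [← inf_relIndex_right U₁, ← inf_relIndex_right S.ker]
      congr 1
      apply le_antisymm
      · exact inf_le_inf_right _ inf_le_right
      · rintro x ⟨hx1, hx2⟩
        obtain ⟨y, hy, rfl⟩ := hx2
        exact ⟨⟨ff_mem Z hUG y hy, hx1⟩, mem_map_of_mem f hy⟩
    rw [h1, relIndex_ker]
    have hfin : Finite ((U.map f).map S) := by
      have : Finite (Multiplicative (ι → ZMod 2)) := inferInstanceAs (Finite (ι → ZMod 2))
      infer_instance
    refine Nat.card_le_card_of_injective (fun b => (⟨Multiplicative.ofAdd b.1, ?_⟩ :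
      (U.map f).map S)) ?_
    · obtain ⟨b, a, rfl⟩ := b
      obtain ⟨x, hx⟩ := hSsurj a
      obtain ⟨v, hv, hSv⟩ := hS x
      refine ⟨f v, mem_map_of_mem f hv, ?_⟩
      rw [hSf, ← hSv]
      change Multiplicative.ofAdd (fz Z (S (f x)).toAdd) = _
      rw [hSf, toAdd_ofAdd, hx, toAdd_ofAdd, fz_fz hZ]
    · intro b b' hb
      apply Subtype.ext
      exact congrArg (fun x => Multiplicative.toAdd x.1) hb
  have e6 := card_range_sum_le Z ι κ
  have e7 : cc f U₁ (sq U) ≠ 0 := by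
    intro h
    rw [h, mul_zero, e1] at e4
    exact e2 e4
  have e8 : 0 < Nat.card (fz Z (ι := ι) (B := ZMod 2)).range := Nat.card_pos
  have e9 : cc f U₁ (sq U) ≤ 2 ^ Nat.card κ := by
    have h1 : cc f U U₁ * cc f U₁ (sq U) ≤
        Nat.card (fz Z (ι := ι) (B := ZMod 2)).range * 2 ^ Nat.card κ := by
      rw [← e4, e1]
      exact e3.trans e6
    have h2 : Nat.card (fz Z (ι := ι) (B := ZMod 2)).range * cc f U₁ (sq U) ≤
        Nat.card (fz Z (ι := ι) (B := ZMod 2)).range * 2 ^ Nat.card κ :=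
      (Nat.mul_le_mul_right _ e5).trans h1
    exact Nat.le_of_mul_le_mul_left h2 e8
  -- the lower bound
  have e10 : Nat.card (T → ZMod 2) ≤ cc f U₁ (sq U) := by
    refine card_le_relIndex (fun z => tp T (f u) z) ?_ ?_ e7
    · intro z
      change tp T (ff Z u) z ∈ _
      rw [ff_tp Z hab]
      exact mem_map_of_mem f (tp_mem hU₁G ⟨hu, hSu⟩ z)
    · intro z z' h
      obtain ⟨y, _, hy⟩ := mem_sq.1 h
      exact tcount hT (f u) hu' z z' ⟨y, by rw [← hy, pow_two]⟩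
  have e11 : Nat.card (T → ZMod 2) = 2 ^ Nat.card T := by
    rw [Nat.card_fun]; simp
  rw [e11] at e10
  exact (Nat.pow_le_pow_iff_right (by norm_num)).1 (e10.trans e9)

end Pool.Agent.STc.Cnt
end
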