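import Pool.Agent.Lib.MP_1ef7cf_nt.TwoLevel
import Pool.Agent.Lib.MP_1ef7cf_nt.EvenCore
import Pool.Agent.Lib.MP_1ef7cf_nt.Inf
import Pool.Agent.Lib.MP_1ef7cf_nt.Final
import Pool.Agent.Lib.MP_1ef7cf_nt.Inf2
import Pool.Agent.Lib.MP_1ef7cf_nt.MidCore

section

/-!
# Removing a prime from the modulus, for moduli divisible by all primes above two
-/

open NumberField IsDedekindDomain nonZeroDivisors IntermediateField

namespace Pool.Agent.ST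

variable {K : Type*} [Field K] [NumberField K] [Algebra K ℝ] {σ₂ : K →+* ℝ}

/-- The ray class field of a divisor of the modulus with the same prime divisors. -/
lemma rcf_same {N n : Ideal (𝓞 K)} (hle : N ≤ n)
    (hdvd : ∀ v : HeightOneSpectrum (𝓞 K), v.asIdeal ∣ N → v.asIdeal ∣ n)
    {H' : IntermediateField K ℝ} {Art' : RayClassGroup σ₂ N ≃* (H' ≃ₐ[K] H')}
    (h' : IsRayClassField σ₂ N H' Art') :
    ∃ (H : IntermediateField K ℝ) (Art : RayClassGroup σ₂ n ≃* (H ≃ₐ[K] H)),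
      IsRayClassField σ₂ n H Art ∧ H ≤ H' := by
  have hprime : ∀ J : (FI K)ˣ, J ∈ primeTo n → J ∈ primeTo N := fun J hJ v hv => hJ v (hdvd v hv)
  have hsurj : Function.Surjective (pr σ₂ hle) := by
    intro A
    obtain ⟨J, rfl⟩ := cls_surjective n A
    exact ⟨cls σ₂ N ⟨J, hprime J J.2⟩, rfl⟩
  obtain ⟨H, Art, hr, hHH⟩ := exists_down hle hsurj h'.isRCF
  refine ⟨H, Art, ⟨hr.finite, hr.galois, ?_⟩, hHH⟩
  intro v J hJ P hP hPv
  refine hr.frob v J ?_ hJ P hPv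
  rintro (hb | hb)
  · exact hb
  · have h3 := coprime_of_mem_primeTo hJ J.2
    exact coprime_prime_iff.1 h3 (hdvd v hb)

/-- The numbers `exp (-2 ζ'(0, A))` for two moduli with the same prime divisors. -/
lemma prod_fib_same (h2 : Module.finrank ℚ K = 2) (hσ : σ₂ ≠ sg1 K) {N n : Ideal (𝓞 K)}
    (hle : N ≤ n) (hN : N ≠ ⊥) (hn : n ≠ ⊥) (hn1 : n ≠ ⊤)
    (hdvd : ∀ v : HeightOneSpectrum (𝓞 K), v.asIdeal ∣ N → v.asIdeal ∣ n)
    {H H' : IntermediateField K ℝ} {Art : RayClassGroup σ₂ n ≃* (H ≃ₐ[K] H)}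
    {Art' : RayClassGroup σ₂ N ≃* (H' ≃ₐ[K] H')}
    (h : IsRayClassField σ₂ n H Art) (h' : IsRayClassField σ₂ N H' Art')
    [Normal K H] [FiniteDimensional K H'] (hHH : H ≤ H') (σ : H ≃ₐ[K] H) :
    Real.exp (-2 * zd σ₂ n (Art.symm σ)) =
      ∏ γ ∈ fib hHH σ, Real.exp (-2 * zd σ₂ N (Art'.symm γ)) := by
  have hprime : ∀ J : (FI K)ˣ, J ∈ primeTo n → J ∈ primeTo N := fun J hJ v hv => hJ v (hdvd v hv)
  have hcop : ∀ I : Ideal (𝓞 K), IsCoprime I n → IsCoprime I N := by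
    intro I hI
    have hI0 : I ≠ ⊥ := ne_bot_of_coprime_ne hI hn1
    exact coprime_of_mem_primeTo (J := uI I hI0) (coe_uI I hI0)
      (hprime _ (coe_mem_primeTo (coe_uI I hI0) hI))
  obtain ⟨A, rfl⟩ := Art.surjective σ
  rw [MulEquiv.symm_apply_apply,
    ← zd_relation_same h2 hσ hle hN hn hn1 hcop (mem_ovCls hle hN h h' hHH A)]
  unfold ovCls
  rw [Finset.sum_map, Finset.mul_sum, Real.exp_sum]
  rfl

lemma prod_exp_zd (h2 : Module.finrank ℚ K = 2) (hσ : σ₂ ≠ sg1 K) {n : Ideal (𝓞 K)}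
    (hn : n ≠ ⊥) (hn1 : n ≠ ⊤) {H : IntermediateField K ℝ}
    (Art : RayClassGroup σ₂ n ≃* (H ≃ₐ[K] H)) [FiniteDimensional K H] :
    ∏ σ, Real.exp (-2 * zd σ₂ n (Art.symm σ)) = 1 := by
  let _ : Fintype (RayClassGroup σ₂ n) := Fintype.ofEquiv _ Art.symm.toEquiv
  rw [← Real.exp_sum, ← Finset.mul_sum]
  have h3 : ∑ σ, zd σ₂ n (Art.symm σ) = ∑ A, zd σ₂ n A := Equiv.sum_comp Art.symm.toEquiv _
  rw [h3, sum_zd h2 hσ hn hn1, mul_zero, Real.exp_zero]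

/-- A subgroup of the Galois group as a subgroup of the ray class group. -/
lemma exists_subgroup {n : Ideal (𝓞 K)} {H : IntermediateField K ℝ}
    (Art : RayClassGroup σ₂ n ≃* (H ≃ₐ[K] H)) {T : Subgroup (H ≃ₐ[K] H)} (hT : T ≠ ⊤) :
    ∃ T₀ : Subgroup (RayClassGroup σ₂ n), T₀ ≠ ⊤ ∧ ∀ A, A ∈ T₀ ↔ Art A ∈ T := by
  refine ⟨T.comap (Art : RayClassGroup σ₂ n →* (H ≃ₐ[K] H)), ?_, fun A => Iff.rfl⟩
  intro htop
  apply hT
  rw [eq_top_iff]
  intro σ _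
  obtain ⟨A, rfl⟩ := Art.surjective σ
  have : A ∈ T.comap (Art : RayClassGroup σ₂ n →* (H ≃ₐ[K] H)) := by
    rw [htop]; exact Subgroup.mem_top A
  exact this

/-- **Descent of the Stark-Tate assertion** from `N q` (`q` in a generating set of primes, each class
occuring twice) to `n`, where `[H_N : H_n]` is even. -/
theorem step_even (h2 : Module.finrank ℚ K = 2) (hσ : σ₂ ≠ sg1 K) {N n : Ideal (𝓞 K)}
    (hle : N ≤ n) (hN : N ≠ ⊥) (hn : n ≠ ⊥) (hn1 : n ≠ ⊤)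
    (hdvd : ∀ v : HeightOneSpectrum (𝓞 K), v.asIdeal ∣ N → v.asIdeal ∣ n)
    (htwo : ∀ v : HeightOneSpectrum (𝓞 K), (2 : 𝓞 K) ∈ v.asIdeal → v.asIdeal ∣ N)
    (hsq : ∀ u : (𝓞 K)ˣ, EU σ₂ N u → IsSquare u)
    {J : (FI K)ˣ} (hJ : J ∈ primeTo (K := K) N) (hray : InRay σ₂ n J)
    (hodd : ∀ f : ℕ, Odd f → ¬ InRay σ₂ N (J ^ f))
    (hst : ∀ T : Subgroup (RayClassGroup σ₂ N), T ≠ ⊤ →
      ∃ (q₁ q₂ : HeightOneSpectrum (𝓞 K)) (h₁ : ¬ q₁.asIdeal ∣ N) (h₂ : ¬ q₂.asIdeal ∣ N),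
        q₁ ≠ q₂ ∧ cls σ₂ N (prJ N q₁ h₁) = cls σ₂ N (prJ N q₂ h₂) ∧
        cls σ₂ N (prJ N q₁ h₁) ∉ T ∧
        StarkTate σ₂ (N * q₁.asIdeal) ∧ StarkTate σ₂ (N * q₂.asIdeal)) : StarkTate σ₂ n := by
  classical
  have hN1 : N ≠ ⊤ := ne_top_of_le hle hn1
  -- the ray class field
  have hbot : (⊥ : Subgroup (RayClassGroup σ₂ N)) ≠ ⊤ := by
    intro hbt
    apply hodd 1 odd_one
    rw [pow_one]
    have h3 : cls σ₂ N ⟨J, hJ⟩ ∈ (⊥ : Subgroup (RayClassGroup σ₂ N)) := by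
      rw [hbt]; exact Subgroup.mem_top _
    rw [Subgroup.mem_bot, cls_eq_one_iff] at h3
    exact h3
  obtain ⟨q₀, q₁, hq₀, hq₁, hq, -, -, hs₀, hs₁⟩ := hst ⊥ hbot
  obtain ⟨_, _, _, d₀⟩ := hs₀.data
  obtain ⟨_, _, _, d₁⟩ := hs₁.data
  obtain ⟨H', Art', hr'⟩ := exists_rcf hN hq hq₀ hq₁ rfl rfl d₀.rcf d₁.rcf
  have hfdH' := hr'.finite
  have habH' := hr'.isRCF.abelian
  obtain ⟨H, Art, hr, hHH⟩ := rcf_same hle hdvd hr'
  have hfdH := hr.finite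
  have habH := hr.isRCF.abelian
  -- data for the primes
  let ι := {q : HeightOneSpectrum (𝓞 K) // ¬ q.asIdeal ∣ N ∧ StarkTate σ₂ (N * q.asIdeal)}
  choose F Art1 u hd using fun i : ι => (i.2.2).data
  have hne : ∀ i : ι, N * i.1.asIdeal ≠ ⊥ := fun i => mul_ne_bot' hN i.1.ne_bot
  have hlei : ∀ i : ι, N * i.1.asIdeal ≤ N := fun i => Ideal.mul_le_left
  have hfd : ∀ i, FiniteDimensional K (F i) := fun i => (hd i).rcf.finite
  have hab : ∀ i, IsAbelianGalois K (F i) := fun i => (hd i).rcf.isRCF.abelian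
  have hF : ∀ i, H' ≤ F i := fun i => IsRCF.le (hlei i) (hne i) Set.finite_empty Set.finite_empty
    (hd i).rcf.isRCF hr'.isRCF
  let φ : ι → (H' ≃ₐ[K] H') := fun i => Art' (cls σ₂ N (prJ N i.1 i.2.1))
  let e' : (H' ≃ₐ[K] H') → ℝ := fun σ => Real.exp (-2 * zd σ₂ N (Art'.symm σ))
  have epos : ∀ σ, 0 < e' σ := fun σ => Real.exp_pos _
  have eprod : ∏ σ, e' σ = 1 := prod_exp_zd h2 hσ hN hN1 Art'
  have heven : ∀ i, Even (fib (hF i) (1 : H' ≃ₐ[K] H')).card := by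
    intro i
    refine even_fib hN i.2.1 rfl (fun h => i.2.1 (htwo _ h)) ?_ hr' (hd i).rcf (hF i)
    intro w hw1 hw2
    obtain ⟨v, hv⟩ := hsq w ⟨hw1, hw2⟩
    rw [hv, Units.val_mul, map_mul]
    exact IsSquare.mul_self _
  have hnorm : ∀ i σ, fibProd (hF i) (u i) σ = e' σ / e' (σ * (φ i)⁻¹) := by
    intro i σ
    obtain ⟨A, rfl⟩ := Art'.surjective σ
    rw [fibProd_prime h2 hσ hN hN1 rfl hr' (hd i).rcf (hF i) A (hd i).act (coe_prJ N i.1 i.2.1)]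
    have h3 : Art'.symm (Art' A * (φ i)⁻¹) = A * (cls σ₂ N (prJ N i.1 i.2.1))⁻¹ := by
      rw [MulEquiv.symm_apply_eq, map_mul, map_inv]
    simp only [e']
    rw [h3, MulEquiv.symm_apply_apply]
  have hinf : ∀ i j, i ≠ j → F i ⊓ F j ≤ H' := by
    intro i j hij
    have hij' : i.1 ≠ j.1 := fun h => hij (Subtype.ext h)
    exact inf_le' hN hij' j.2.1 rfl rfl hr' (hd i).rcf (hd j).rcf
  have hgn : Subgroup.closure {σ | ∃ i j, i ≠ j ∧ φ i = σ ∧ φ j = σ} = ⊤ := by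
    by_contra hne
    obtain ⟨T₀, hT₀, hT₀'⟩ := exists_subgroup Art' hne
    obtain ⟨p₁, p₂, hp₁, hp₂, hp, hcl, hnot, s₁, s₂⟩ := hst T₀ hT₀
    apply hnot
    rw [hT₀']
    apply Subgroup.subset_closure
    refine ⟨⟨p₁, hp₁, s₁⟩, ⟨p₂, hp₂, s₂⟩, fun h => hp (congrArg Subtype.val h), rfl, ?_⟩
    change Art' _ = Art' _
    rw [hcl]
  have hgr : Subgroup.closure (Set.range φ) = ⊤ := by
    rw [eq_top_iff, ← hgn]
    apply Subgroup.closure_mono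
    rintro σ ⟨i, -, -, rfl, -⟩
    exact ⟨i, rfl⟩
  have hR : Ratio σ₂ H' e' := ratio_core σ₂ e' epos φ F hF u (fun i => (hd i).stark.isSU) hnorm hgr
  have hS := sqrt_core σ₂ e' epos φ F hF u (fun i => (hd i).stark) heven hnorm hinf hgn
  have hev := even_fib_of_ray hle hN hJ hray hodd hr hr' hHH
  obtain ⟨hs, hact⟩ := even_core_sqrt σ₂ hHH hR eprod hS
    (e := fun σ => Real.exp (-2 * zd σ₂ n (Art.symm σ)))
    (fun σ => prod_fib_same h2 hσ hle hN hn hn1 hdvd hr hr' hHH σ) hev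
  have hdn : STData σ₂ n H Art (Real.exp (-2 * zd σ₂ n (Art.symm 1))) := by
    refine ⟨hr, hs, fun A => ?_⟩
    rw [hact, MulEquiv.symm_apply_apply]
  exact hdn.starkTate h2 hσ hn hn1

end Pool.Agent.ST
end

section

/-!
# The Stark-Tate conjecture for moduli divisible by all primes above two: sharp descent
-/

open NumberField IsDedekindDomain nonZeroDivisors IntermediateField

namespace Pool.Agent.ST

section

variable {K : Type*} [Field K] [NumberField K]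

lemma exists_prime_two (K : Type*) [Field K] [NumberField K] :
    ∃ v : HeightOneSpectrum (𝓞 K), (2 : 𝓞 K) ∈ v.asIdeal := by
  have hne : Ideal.span {(2 : 𝓞 K)} ≠ ⊤ := by
    rw [Ne, Ideal.span_singleton_eq_top]
    intro hu
    have h1 := hu.map (Algebra.norm ℤ)
    have h2 : Algebra.norm ℤ (2 : 𝓞 K) = 2 ^ Module.finrank ℤ (𝓞 K) := by
      have : (2 : 𝓞 K) = algebraMap ℤ (𝓞 K) 2 := by simp
      rw [this, Algebra.norm_algebraMap]
    rw [h2, Int.isUnit_iff] at h1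
    have h3 : 0 < Module.finrank ℤ (𝓞 K) := by
      rw [RingOfIntegers.rank]; exact Module.finrank_pos
    rcases h1 with h1 | h1
    · have h4 : (2 : ℤ) ∣ 1 := by rw [← h1]; exact dvd_pow_self 2 h3.ne'
      norm_num at h4
    · have h4 : (2 : ℤ) ∣ -1 := by rw [← h1]; exact dvd_pow_self 2 h3.ne'
      norm_num at h4
  obtain ⟨M, hM, hM2⟩ := Ideal.exists_le_maximal _ hne
  have h2 : (2 : 𝓞 K) ∈ M := hM2 (Ideal.mem_span_singleton_self _)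
  refine ⟨⟨M, hM.isPrime, ?_⟩, h2⟩
  rintro rfl
  rw [Ideal.mem_bot] at h2
  exact two_ne_zero h2

lemma pow_ne_bot' {I : Ideal (𝓞 K)} (hI : I ≠ ⊥) (k : ℕ) : I ^ k ≠ ⊥ := by
  rw [← Ideal.zero_eq_bot] at hI ⊢
  exact pow_ne_zero _ hI

lemma span_two_ne_bot : Ideal.span {(2 : 𝓞 K)} ≠ ⊥ := by
  rw [Ne, Ideal.span_singleton_eq_bot]; exact two_ne_zero

lemma dvd_level {m : Ideal (𝓞 K)} (htwo : ∀ v : HeightOneSpectrum (𝓞 K), (2 : 𝓞 K) ∈ v.asIdeal →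
    v.asIdeal ∣ m) {j : ℕ} {v : HeightOneSpectrum (𝓞 K)}
    (hv : v.asIdeal ∣ m * Ideal.span {(2 : 𝓞 K)} ^ j) : v.asIdeal ∣ m := by
  rcases v.prime.dvd_or_dvd hv with h | h
  · exact h
  · have h3 := v.prime.dvd_of_dvd_pow h
    rw [Ideal.dvd_span_singleton] at h3
    exact htwo v h3

end

variable {K : Type*} [Field K] [NumberField K] [Algebra K ℝ] {σ₂ : K →+* ℝ}

/-- **Main theorem**, sharp version for moduli divisible by all primes above `2`. -/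
theorem main_sharp (h2 : Module.finrank ℚ K = 2) (hσ : σ₂ ≠ sg1 K) {n : Ideal (𝓞 K)}
    (hn1 : n ≠ ⊤)
    (htwo : ∀ v : HeightOneSpectrum (𝓞 K), (2 : 𝓞 K) ∈ v.asIdeal → v.asIdeal ∣ n) (k : ℕ)
    (hst : ∀ m : Ideal (𝓞 K), m ≠ ⊥ → n ∣ m → k ≤ numPrimes m →
      (∀ v : HeightOneSpectrum (𝓞 K), v.asIdeal ∣ m → v.asIdeal ^ k ∣ m) →
      ∀ T : Subgroup (RayClassGroup σ₂ m), T ≠ ⊤ →
      ∃ (q₁ q₂ : HeightOneSpectrum (𝓞 K)) (h₁ : ¬ q₁.asIdeal ∣ m) (h₂ : ¬ q₂.asIdeal ∣ m),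
        q₁ ≠ q₂ ∧ cls σ₂ m (prJ m q₁ h₁) = cls σ₂ m (prJ m q₂ h₂) ∧
        cls σ₂ m (prJ m q₁ h₁) ∉ T ∧
        StarkTate σ₂ (m * q₁.asIdeal ^ k) ∧ StarkTate σ₂ (m * q₂.asIdeal ^ k)) :
    ∀ m : Ideal (𝓞 K), m ≠ ⊥ → n ∣ m → StarkTate σ₂ m := by
  obtain ⟨p, hp2⟩ := exists_prime_two K
  apply main h2 hσ hn1 (Or.inl ⟨p, hp2, htwo p hp2⟩) k
  intro m hm hnm hk hmv
  have hm1 : m ≠ ⊤ := by
    rintro rfl
    apply hn1
    exact top_le_iff.1 (Ideal.dvd_iff_le.1 hnm)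
  have htwom : ∀ v : HeightOneSpectrum (𝓞 K), (2 : 𝓞 K) ∈ v.asIdeal → v.asIdeal ∣ m :=
    fun v hv => (htwo v hv).trans hnm
  obtain ⟨j₀, hj₀⟩ := exists_ray_elt (σ₂ := σ₂) h2 hm
  obtain ⟨j₁, hj₁⟩ := exists_sq_level (σ₂ := σ₂) h2 hm hp2 (htwom p hp2)
  set j := max j₀ j₁ with hj
  set N : Ideal (𝓞 K) := m * Ideal.span {(2 : 𝓞 K)} ^ j with hN
  have hNb : N ≠ ⊥ := mul_ne_bot' hm (pow_ne_bot' span_two_ne_bot _)
  have hle : N ≤ m := Ideal.mul_le_left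
  have hdvd : ∀ v : HeightOneSpectrum (𝓞 K), v.asIdeal ∣ N → v.asIdeal ∣ m :=
    fun v hv => dvd_level htwom hv
  have hkN : k ≤ numPrimes N := by
    refine hk.trans (le_of_eq ?_)
    unfold numPrimes
    congr 1
    ext v
    exact ⟨fun h => dvd_mul_of_dvd_left h _, hdvd v⟩
  have hvN : ∀ v : HeightOneSpectrum (𝓞 K), v.asIdeal ∣ N → v.asIdeal ^ k ∣ N :=
    fun v hv => dvd_mul_of_dvd_left (hmv v (hdvd v hv)) _
  have hsq : ∀ u : (𝓞 K)ˣ, EU σ₂ N u → IsSquare u := by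
    intro u hu
    apply hj₁ u
    refine ⟨?_, hu.2⟩
    have h3 : N ≤ m * p.asIdeal ^ j₁ := by
      apply Ideal.mul_mono_right
      have h4 : Ideal.span {(2 : 𝓞 K)} ≤ p.asIdeal := by
        rw [Ideal.span_singleton_le_iff_mem]; exact hp2
      exact (Ideal.pow_right_mono h4 j).trans (Ideal.pow_le_pow_right (le_max_right _ _))
    exact h3 hu.1
  obtain ⟨J, hJ, hray, hodd⟩ := hj₀ j (le_max_left _ _)
  have hbot : (⊥ : Subgroup (RayClassGroup σ₂ N)) ≠ ⊤ := by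
    intro hbt
    apply hodd 1 odd_one
    rw [pow_one]
    have h3 : cls σ₂ N ⟨J, hJ⟩ ∈ (⊥ : Subgroup (RayClassGroup σ₂ N)) := by
      rw [hbt]; exact Subgroup.mem_top _
    rw [Subgroup.mem_bot, cls_eq_one_iff] at h3
    exact h3
  rcases Nat.eq_zero_or_pos k with rfl | hkpos
  · obtain ⟨q₁, _, _, _, _, _, _, hs, _⟩ := hst N hNb (hnm.trans (dvd_mul_right _ _)) hkN hvN ⊥ hbot
    rw [pow_zero, mul_one] at hs
    exact starkTate_same h2 hσ hle hNb hm hm1 hdvd hs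
  · apply step_even h2 hσ hle hNb hm hm1 hdvd (fun v hv => dvd_mul_of_dvd_left (htwom v hv) _) hsq
      hJ hray hodd
    intro T hT
    obtain ⟨q₁, q₂, hq₁, hq₂, hq, hcl, hnot, hs₁, hs₂⟩ :=
      hst N hNb (hnm.trans (dvd_mul_right _ _)) hkN hvN T hT
    have hsame : ∀ q : HeightOneSpectrum (𝓞 K), StarkTate σ₂ (N * q.asIdeal ^ k) →
        StarkTate σ₂ (N * q.asIdeal) := by
      intro q hs
      have hle' : N * q.asIdeal ^ k ≤ N * q.asIdeal :=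
        Ideal.mul_mono_right (Ideal.pow_le_self hkpos.ne')
      apply starkTate_same h2 hσ hle' (mul_ne_bot' hNb (pow_ne_bot' q.ne_bot _))
        (mul_ne_bot' hNb q.ne_bot) (ne_top_of_le Ideal.mul_le_left (ne_top_of_le hle hm1)) _ hs
      intro v hv
      rcases v.prime.dvd_or_dvd hv with h | h
      · exact dvd_mul_of_dvd_left h _
      · exact dvd_mul_of_dvd_right (v.prime.dvd_of_dvd_pow h) _
    exact ⟨q₁, q₂, hq₁, hq₂, hq, hcl, hnot, hsame q₁ hs₁, hsame q₂ hs₂⟩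

end Pool.Agent.ST
end

section

/-!
# Removing a prime from the modulus, with one prime for each class of a generating set
-/

open NumberField IsDedekindDomain nonZeroDivisors IntermediateField

namespace Pool.Agent.ST

variable {K : Type*} [Field K] [NumberField K] [Algebra K ℝ] {σ₂ : K →+* ℝ}

/-- Descent of the data to a modulus with the same prime divisors. -/
theorem STData.same (h2 : Module.finrank ℚ K = 2) (hσ : σ₂ ≠ sg1 K) {N n : Ideal (𝓞 K)}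
    (hle : N ≤ n) (hN : N ≠ ⊥) (hn : n ≠ ⊥) (hn1 : n ≠ ⊤)
    (hdvd : ∀ v : HeightOneSpectrum (𝓞 K), v.asIdeal ∣ N → v.asIdeal ∣ n)
    {H' : IntermediateField K ℝ} {Art' : RayClassGroup σ₂ N ≃* (H' ≃ₐ[K] H')} {u : ℝ}
    (hd : STData σ₂ N H' Art' u) :
    ∃ (H : IntermediateField K ℝ) (Art : RayClassGroup σ₂ n ≃* (H ≃ₐ[K] H)) (v : ℝ) (hHH : H ≤ H'),
      STData σ₂ n H Art v ∧ ∀ [Normal K H] [FiniteDimensional K H'], v = fibProd hHH u 1 := by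
  obtain ⟨H, Art, hr, hHH⟩ := rcf_same hle hdvd hd.rcf
  have hprime : ∀ J : (FI K)ˣ, J ∈ primeTo n → J ∈ primeTo N := fun J hJ v hv => hJ v (hdvd v hv)
  have hcop : ∀ I : Ideal (𝓞 K), IsCoprime I n → IsCoprime I N := by
    intro I hI
    have hI0 : I ≠ ⊥ := ne_bot_of_coprime_ne hI hn1
    exact coprime_of_mem_primeTo (J := uI I hI0) (coe_uI I hI0)
      (hprime _ (coe_mem_primeTo (coe_uI I hI0) hI))
  have := hr.finite
  have := hr.galois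
  have := hd.rcf.finite
  have := hd.rcf.galois
  refine ⟨H, Art, fibProd hHH u 1, hHH, ⟨hr, hd.stark.fibProd hHH, fun A => ?_⟩, ?_⟩
  · rw [act_fibProd_one hHH hd.stark.mem, fibProd_eq Art Art' hHH A hd.act,
      zd_relation_same h2 hσ hle hN hn hn1 hcop (mem_ovCls hle hN hr hd.rcf hHH A)]
  · intros
    rfl

/-- The ratios and their square roots at level `N`, from the Stark-Tate assertion at the levels
`N' q`, `q` in a generating set of primes. -/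
theorem level_core (h2 : Module.finrank ℚ K = 2) (hσ : σ₂ ≠ sg1 K) {N' N : Ideal (𝓞 K)}
    (hle : N' ≤ N) (hN' : N' ≠ ⊥) (hN : N ≠ ⊥) (hN1 : N ≠ ⊤)
    (hdvd : ∀ v : HeightOneSpectrum (𝓞 K), v.asIdeal ∣ N' → v.asIdeal ∣ N)
    (htwo : ∀ v : HeightOneSpectrum (𝓞 K), (2 : 𝓞 K) ∈ v.asIdeal → v.asIdeal ∣ N')
    (hsq : ∀ u : (𝓞 K)ˣ, EU σ₂ N u → IsSquare u)
    {J : (FI K)ˣ} (hJ : J ∈ primeTo (K := K) N') (hray : InRay σ₂ N J)
    (hodd : ∀ f : ℕ, Odd f → ¬ InRay σ₂ N' (J ^ f))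
    {q₀ q₁ : HeightOneSpectrum (𝓞 K)} (hq₀ : ¬ q₀.asIdeal ∣ N') (hq₁ : ¬ q₁.asIdeal ∣ N')
    (hq : q₀ ≠ q₁) (hs₀ : StarkTate σ₂ (N' * q₀.asIdeal)) (hs₁ : StarkTate σ₂ (N' * q₁.asIdeal))
    (hgen : Subgroup.closure {A : RayClassGroup σ₂ N' | ∃ (q : HeightOneSpectrum (𝓞 K))
      (h : ¬ q.asIdeal ∣ N'), cls σ₂ N' (prJ N' q h) = A ∧ StarkTate σ₂ (N' * q.asIdeal)} = ⊤) :
    ∃ (H : IntermediateField K ℝ) (Art : RayClassGroup σ₂ N ≃* (H ≃ₐ[K] H)),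
      IsRayClassField σ₂ N H Art ∧
      Ratio σ₂ H (fun σ => Real.exp (-2 * zd σ₂ N (Art.symm σ))) ∧
      ∀ σ τ : H ≃ₐ[K] H, Real.sqrt (Real.exp (-2 * zd σ₂ N (Art.symm σ))) /
        Real.sqrt (Real.exp (-2 * zd σ₂ N (Art.symm τ))) ∈ H := by
  classical
  -- the ray class fields
  obtain ⟨_, _, _, d₀⟩ := hs₀.data
  obtain ⟨_, _, _, d₁⟩ := hs₁.data
  obtain ⟨H', Art', hr'⟩ := exists_rcf hN' hq hq₀ hq₁ rfl rfl d₀.rcf d₁.rcf
  have hfdH' := hr'.finite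
  have habH' := hr'.isRCF.abelian
  obtain ⟨H, Art, hr, hHH⟩ := rcf_same hle hdvd hr'
  have hfdH := hr.finite
  have habH := hr.isRCF.abelian
  refine ⟨H, Art, hr, ?_⟩
  -- data for the primes
  let ι := {q : HeightOneSpectrum (𝓞 K) // ¬ q.asIdeal ∣ N' ∧ StarkTate σ₂ (N' * q.asIdeal)}
  have hnd : ∀ i : ι, ¬ i.1.asIdeal ∣ N := fun i h => i.2.1 (h.trans (Ideal.dvd_iff_le.2 hle))
  have hne' : ∀ i : ι, N' * i.1.asIdeal ≠ ⊥ := fun i => mul_ne_bot' hN' i.1.ne_bot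
  have hne : ∀ i : ι, N * i.1.asIdeal ≠ ⊥ := fun i => mul_ne_bot' hN i.1.ne_bot
  have hlei : ∀ i : ι, N * i.1.asIdeal ≤ N := fun i => Ideal.mul_le_left
  have hlei' : ∀ i : ι, N' * i.1.asIdeal ≤ N' := fun i => Ideal.mul_le_left
  have hlem : ∀ i : ι, N' * i.1.asIdeal ≤ N * i.1.asIdeal := fun i => Ideal.mul_mono_left hle
  have hdvdi : ∀ i : ι, ∀ v : HeightOneSpectrum (𝓞 K), v.asIdeal ∣ N' * i.1.asIdeal →
      v.asIdeal ∣ N * i.1.asIdeal := by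
    intro i v hv
    rcases v.prime.dvd_or_dvd hv with h | h
    · exact dvd_mul_of_dvd_left (hdvd v h) _
    · exact dvd_mul_of_dvd_right h _
  choose F Art1 u hd using fun i : ι => (i.2.2).data
  have hsame := fun i : ι => (hd i).same h2 hσ (hlem i) (hne' i) (hne i)
    (ne_top_of_le (hlei i) hN1) (hdvdi i)
  choose G Art2 w hGF hdG hw using hsame
  have hfdF : ∀ i, FiniteDimensional K (F i) := fun i => (hd i).rcf.finite
  have habF : ∀ i, IsAbelianGalois K (F i) := fun i => (hd i).rcf.isRCF.abelian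
  have hfdG : ∀ i, FiniteDimensional K (G i) := fun i => (hdG i).rcf.finite
  have habG : ∀ i, IsAbelianGalois K (G i) := fun i => (hdG i).rcf.isRCF.abelian
  have hHG : ∀ i, H ≤ G i := fun i => IsRCF.le (hlei i) (hne i) Set.finite_empty Set.finite_empty
    (hdG i).rcf.isRCF hr.isRCF
  have hH'F : ∀ i, H' ≤ F i := fun i => IsRCF.le (hlei' i) (hne' i) Set.finite_empty
    Set.finite_empty (hd i).rcf.isRCF hr'.isRCF
  let φ : ι → (H ≃ₐ[K] H) := fun i => Art (cls σ₂ N (prJ N i.1 (hnd i)))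
  let e : (H ≃ₐ[K] H) → ℝ := fun σ => Real.exp (-2 * zd σ₂ N (Art.symm σ))
  have epos : ∀ σ, 0 < e σ := fun σ => Real.exp_pos _
  have hnorm : ∀ i σ, fibProd (hHG i) (w i) σ = e σ / e (σ * (φ i)⁻¹) := by
    intro i σ
    obtain ⟨A, rfl⟩ := Art.surjective σ
    rw [fibProd_prime h2 hσ hN hN1 rfl hr (hdG i).rcf (hHG i) A (hdG i).act (coe_prJ N i.1 (hnd i))]
    have h3 : Art.symm (Art A * (φ i)⁻¹) = A * (cls σ₂ N (prJ N i.1 (hnd i)))⁻¹ := by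
      rw [MulEquiv.symm_apply_eq, map_mul, map_inv]
    simp only [e]
    rw [h3, MulEquiv.symm_apply_apply]
  -- generation
  have hgr : Subgroup.closure (Set.range φ) = ⊤ := by
    have h3 : (Subgroup.closure {A : RayClassGroup σ₂ N' | ∃ (q : HeightOneSpectrum (𝓞 K))
        (h : ¬ q.asIdeal ∣ N'), cls σ₂ N' (prJ N' q h) = A ∧ StarkTate σ₂ (N' * q.asIdeal)}) ≤
        (Subgroup.closure (Set.range φ)).comap
          ((Art : RayClassGroup σ₂ N →* (H ≃ₐ[K] H)).comp (pr σ₂ hle)) := by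
      rw [Subgroup.closure_le]
      rintro A ⟨q, hqN, rfl, hs⟩
      apply Subgroup.subset_closure
      exact ⟨⟨q, hqN, hs⟩, rfl⟩
    rw [hgen] at h3
    rw [eq_top_iff]
    intro σ _
    obtain ⟨A, rfl⟩ := Art.surjective σ
    have hsurj : Function.Surjective (pr σ₂ hle) := by
      intro A
      obtain ⟨J₁, rfl⟩ := cls_surjective N A
      exact ⟨cls σ₂ N' ⟨J₁, fun v hv => J₁.2 v (hdvd v hv)⟩, rfl⟩
    obtain ⟨A', rfl⟩ := hsurj A
    exact h3 (Subgroup.mem_top A')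
  have hR : Ratio σ₂ H e := ratio_core σ₂ e epos φ G hHG w (fun i => (hdG i).stark.isSU) hnorm hgr
  refine ⟨hR, ?_⟩
  -- square roots
  have hevH' := even_fib_of_ray hle hN' hJ hray hodd hr hr' hHH
  have hevG : ∀ i, Even (fib (hHG i) (1 : H ≃ₐ[K] H)).card := by
    intro i
    refine even_fib hN (hnd i) rfl (fun h => i.2.1 (htwo _ h)) ?_ hr (hdG i).rcf (hHG i)
    intro x hx1 hx2
    obtain ⟨v, hv⟩ := hsq x ⟨hx1, hx2⟩
    rw [hv, Units.val_mul, map_mul]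
    exact IsSquare.mul_self _
  set r : (H ≃ₐ[K] H) → ℝ := fun σ => Real.sqrt (e σ) with hrr
  have r0 : ∀ σ, r σ ≠ 0 := fun σ => (Real.sqrt_pos.2 (epos σ)).ne'
  have stepA : ∀ i σ, r σ / r (σ * (φ i)⁻¹) ∈ H := by
    intro i σ
    have := (hd i).stark.ab
    have hu := (hd i).stark.mem
    have hpos := (hd i).stark.pos
    have h3 : r σ / r (σ * (φ i)⁻¹) = Real.sqrt (fibProd (hHG i) (w i) σ) := by
      rw [hnorm, Real.sqrt_div (epos σ).le]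
    have h4 : fibProd (hHG i) (w i) σ = fibProd ((hHG i).trans (hGF i)) (u i) σ := by
      rw [hw i, fibProd_trans (hHG i) (hGF i) hu]
    rw [h3, h4]
    apply inf_same hle hN' i.2.1 rfl hr hr' (hdG i).rcf
    constructor
    · exact sqrt_fibProd_mem_mid hHH (hH'F i) hu hpos hevH' σ
    · exact sqrt_fibProd_mem_mid (hHG i) (hGF i) hu hpos (hevG i) σ
  intro σ τ
  refine rel_all (fun σ τ => r σ / r τ ∈ H) ?_ ?_ ?_ _ hgr ?_ σ τ
  · intro a; rw [div_self (r0 a)]; exact one_mem _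
  · intro a b hab
    have := inv_mem hab
    rwa [inv_div] at this
  · intro a b c h1 h2
    have := mul_mem h1 h2
    rwa [div_mul_div_cancel₀ (r0 b)] at this
  · rintro φ₀ ⟨i, rfl⟩ σ
    exact stepA i σ

/-- **Descent of the Stark-Tate assertion** from `N' q` (`q` in a generating set of primes) to `n`. -/
theorem step_even2 (h2 : Module.finrank ℚ K = 2) (hσ : σ₂ ≠ sg1 K) {N' N n : Ideal (𝓞 K)}
    (hle' : N' ≤ N) (hle : N ≤ n) (hN' : N' ≠ ⊥) (hN : N ≠ ⊥) (hn : n ≠ ⊥) (hn1 : n ≠ ⊤)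
    (hdvd' : ∀ v : HeightOneSpectrum (𝓞 K), v.asIdeal ∣ N' → v.asIdeal ∣ N)
    (hdvd : ∀ v : HeightOneSpectrum (𝓞 K), v.asIdeal ∣ N → v.asIdeal ∣ n)
    (htwo : ∀ v : HeightOneSpectrum (𝓞 K), (2 : 𝓞 K) ∈ v.asIdeal → v.asIdeal ∣ N')
    (hsq : ∀ u : (𝓞 K)ˣ, EU σ₂ N u → IsSquare u)
    {J' : (FI K)ˣ} (hJ' : J' ∈ primeTo (K := K) N') (hray' : InRay σ₂ N J')
    (hodd' : ∀ f : ℕ, Odd f → ¬ InRay σ₂ N' (J' ^ f))
    {J : (FI K)ˣ} (hJ : J ∈ primeTo (K := K) N) (hray : InRay σ₂ n J)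
    (hodd : ∀ f : ℕ, Odd f → ¬ InRay σ₂ N (J ^ f))
    {q₀ q₁ : HeightOneSpectrum (𝓞 K)} (hq₀ : ¬ q₀.asIdeal ∣ N') (hq₁ : ¬ q₁.asIdeal ∣ N')
    (hq : q₀ ≠ q₁) (hs₀ : StarkTate σ₂ (N' * q₀.asIdeal)) (hs₁ : StarkTate σ₂ (N' * q₁.asIdeal))
    (hgen : Subgroup.closure {A : RayClassGroup σ₂ N' | ∃ (q : HeightOneSpectrum (𝓞 K))
      (h : ¬ q.asIdeal ∣ N'), cls σ₂ N' (prJ N' q h) = A ∧ StarkTate σ₂ (N' * q.asIdeal)} = ⊤) :
    StarkTate σ₂ n := by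
  have hN1 : N ≠ ⊤ := ne_top_of_le hle hn1
  obtain ⟨HN, ArtN, hrN, hR, hS⟩ := level_core h2 hσ hle' hN' hN hN1 hdvd' htwo hsq hJ' hray'
    hodd' hq₀ hq₁ hq hs₀ hs₁ hgen
  have hfdN := hrN.finite
  have habN := hrN.isRCF.abelian
  obtain ⟨H, Art, hr, hHH⟩ := rcf_same hle hdvd hrN
  have hfdH := hr.finite
  have habH := hr.isRCF.abelian
  have hev := even_fib_of_ray hle hN hJ hray hodd hr hrN hHH
  obtain ⟨hs, hact⟩ := even_core_sqrt σ₂ hHH hR (prod_exp_zd h2 hσ hN hN1 ArtN) hS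
    (e := fun σ => Real.exp (-2 * zd σ₂ n (Art.symm σ)))
    (fun σ => prod_fib_same h2 hσ hle hN hn hn1 hdvd hr hrN hHH σ) hev
  have hdn : STData σ₂ n H Art (Real.exp (-2 * zd σ₂ n (Art.symm 1))) := by
    refine ⟨hr, hs, fun A => ?_⟩
    rw [hact, MulEquiv.symm_apply_apply]
  exact hdn.starkTate h2 hσ hn hn1

end Pool.Agent.ST
end
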