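import Pool.Agent.Lib.MP_1ef7cf_nt.Mg.G002
import Pool.Agent.Lib.MP_1ef7cf_nt.Weak

section

/-!
# Descent from the assertions for the ratios: local and global theorems
-/

open NumberField IsDedekindDomain nonZeroDivisors IntermediateField

namespace Pool.Agent.ST

section gen

variable {K : Type*} [Field K] [NumberField K] {σ₂ : K →+* ℝ}

/-- Transfer of the condition `GenP` to a divisor of the modulus with the same prime divisors. -/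
lemma GenP.down [Algebra K ℝ] {N n : Ideal (𝓞 K)} (hle : N ≤ n)
    (hdvd : ∀ v : HeightOneSpectrum (𝓞 K), v.asIdeal ∣ N → v.asIdeal ∣ n)
    {P P' : Ideal (𝓞 K) → Prop} {k i : ℕ}
    (hP : ∀ q : HeightOneSpectrum (𝓞 K), ¬ q.asIdeal ∣ N → P (N * q.asIdeal ^ k) →
      P' (n * q.asIdeal ^ i)) (hG : GenP σ₂ P N k) : GenP σ₂ P' n i := by
  have hdvd' : ∀ q : HeightOneSpectrum (𝓞 K), ¬ q.asIdeal ∣ N → ¬ q.asIdeal ∣ n :=
    fun q hq h => hq (h.trans (Ideal.dvd_iff_le.2 hle))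
  obtain ⟨⟨q₁, q₂, hq, hq₁, hq₂, h₁, h₂⟩, hgen⟩ := hG
  refine ⟨⟨q₁, q₂, hq, hdvd' q₁ hq₁, hdvd' q₂ hq₂, hP q₁ hq₁ h₁, hP q₂ hq₂ h₂⟩, ?_⟩
  have hsurj : Function.Surjective (pr σ₂ hle) := by
    intro A
    obtain ⟨J, rfl⟩ := cls_surjective n A
    exact ⟨cls σ₂ N ⟨J, fun v hv => J.2 v (hdvd v hv)⟩, rfl⟩
  have h3 : (Subgroup.closure {A : RayClassGroup σ₂ N | ∃ (q : HeightOneSpectrum (𝓞 K))
      (h : ¬ q.asIdeal ∣ N), cls σ₂ N (prJ N q h) = A ∧ P (N * q.asIdeal ^ k)}) ≤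
      (Subgroup.closure {A : RayClassGroup σ₂ n | ∃ (q : HeightOneSpectrum (𝓞 K))
        (h : ¬ q.asIdeal ∣ n), cls σ₂ n (prJ n q h) = A ∧ P' (n * q.asIdeal ^ i)}).comap
        (pr σ₂ hle) := by
    rw [Subgroup.closure_le]
    rintro A ⟨q, hqN, rfl, hs⟩
    apply Subgroup.subset_closure
    exact ⟨q, hdvd' q hqN, rfl, hP q hqN hs⟩
  rw [hgen] at h3
  rw [eq_top_iff]
  intro A _
  obtain ⟨A', rfl⟩ := hsurj A
  exact h3 (Subgroup.mem_top A')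

/-- If the assertion holds for all primes then `GenP` holds. -/
lemma genP_of_all [Algebra K ℝ] {n : Ideal (𝓞 K)} (hn : n ≠ ⊥) {P : Ideal (𝓞 K) → Prop} {k : ℕ}
    (hP : ∀ q : HeightOneSpectrum (𝓞 K), ¬ q.asIdeal ∣ n → P (n * q.asIdeal ^ k)) :
    GenP σ₂ P n k := by
  obtain ⟨q₁, hq₁⟩ := exists_prime_notMem (finite_dvd hn)
  obtain ⟨q₂, hq₂⟩ := exists_prime_notMem ((finite_dvd hn).union (Set.finite_singleton q₁))
  have h₂ : ¬ q₂.asIdeal ∣ n := fun h => hq₂ (Or.inl h)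
  refine ⟨⟨q₁, q₂, fun h => hq₂ (Or.inr h.symm), hq₁, h₂, hP q₁ hq₁, hP q₂ h₂⟩, ?_⟩
  set C := Subgroup.closure {A : RayClassGroup σ₂ n | ∃ (q : HeightOneSpectrum (𝓞 K))
    (h : ¬ q.asIdeal ∣ n), cls σ₂ n (prJ n q h) = A ∧ P (n * q.asIdeal ^ k)} with hC
  have h3 : C.comap (cls σ₂ n) = ⊤ := by
    apply eq_top_of_primes
    intro v J hJ
    have hv : ¬ v.asIdeal ∣ n := coprime_prime_iff.1 (coprime_of_mem_primeTo hJ J.2)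
    have h4 : J = prJ n v hv := by
      apply Subtype.ext
      apply Units.ext
      rw [hJ, coe_prJ]
    rw [Subgroup.mem_comap, h4]
    exact Subgroup.subset_closure ⟨v, hv, rfl, hP v hv⟩
  rw [eq_top_iff]
  intro A _
  obtain ⟨J, rfl⟩ := cls_surjective n A
  have h5 : J ∈ C.comap (cls σ₂ n) := by rw [h3]; exact Subgroup.mem_top J
  exact h5

end gen

variable {K : Type*} [Field K] [NumberField K] [Algebra K ℝ] {σ₂ : K →+* ℝ}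

omit [Algebra K ℝ] in
lemma isCoprime_level {n : Ideal (𝓞 K)} {q : HeightOneSpectrum (𝓞 K)} (hq : ¬ q.asIdeal ∣ n)
    (k : ℕ) : IsCoprime n (q.asIdeal ^ k) := by
  apply IsCoprime.pow_right
  rw [isCoprime_comm]
  exact coprime_prime_iff.2 hq

/-- For `j' ≤ j` far apart the assertion for the square roots of the ratios for `n 2 ^ j q ^ k`
implies the Stark-Tate assertion for `n 2 ^ j' q`. -/
lemma exists_gap (h2 : Module.finrank ℚ K = 2) (hσ : σ₂ ≠ sg1 K) {n : Ideal (𝓞 K)}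
    (hn : n ≠ ⊥) (hn1 : n ≠ ⊤)
    (htwo : ∀ v : HeightOneSpectrum (𝓞 K), (2 : 𝓞 K) ∈ v.asIdeal → v.asIdeal ∣ n) :
    ∃ b₀ : ℕ, ∀ j ≥ b₀, ∀ k : ℕ,
      (∀ q : HeightOneSpectrum (𝓞 K), ¬ q.asIdeal ∣ n →
        RatioP σ₂ (n * Ideal.span {(2 : 𝓞 K)} ^ j * q.asIdeal ^ (k + 1)) →
          Stark σ₂ (n * q.asIdeal)) ∧
      (∀ q : HeightOneSpectrum (𝓞 K), ¬ q.asIdeal ∣ n →
        SqrtP σ₂ (n * Ideal.span {(2 : 𝓞 K)} ^ j * q.asIdeal ^ (k + 1)) →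
          StarkTate σ₂ (n * q.asIdeal)) ∧
      (RatioP σ₂ (n * Ideal.span {(2 : 𝓞 K)} ^ j) → Stark σ₂ n) ∧
      (SqrtP σ₂ (n * Ideal.span {(2 : 𝓞 K)} ^ j) → StarkTate σ₂ n) := by
  obtain ⟨b₀, hb₀⟩ := exists_ray_elt (σ₂ := σ₂) h2 hn
  refine ⟨b₀, fun j hj k => ?_⟩
  obtain ⟨J, hJ, hray, hodd⟩ := hb₀ j hj
  set N : Ideal (𝓞 K) := n * Ideal.span {(2 : 𝓞 K)} ^ j with hN
  have hNb : N ≠ ⊥ := mul_ne_bot' hn (pow_ne_bot' span_two_ne_bot _)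
  have hle : N ≤ n := Ideal.mul_le_left
  have hdvd : ∀ v : HeightOneSpectrum (𝓞 K), v.asIdeal ∣ N → v.asIdeal ∣ n :=
    fun v hv => dvd_level htwo hv
  have aux : ∀ q : HeightOneSpectrum (𝓞 K), ¬ q.asIdeal ∣ n →
      N * q.asIdeal ^ (k + 1) ≤ n * q.asIdeal ∧ N * q.asIdeal ^ (k + 1) ≠ ⊥ ∧
      n * q.asIdeal ≠ ⊥ ∧ n * q.asIdeal ≠ ⊤ ∧
      (∀ v : HeightOneSpectrum (𝓞 K), v.asIdeal ∣ N * q.asIdeal ^ (k + 1) →
        v.asIdeal ∣ n * q.asIdeal) ∧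
      ∃ J' : (FI K)ˣ, J' ∈ primeTo (K := K) (N * q.asIdeal ^ (k + 1)) ∧
        InRay σ₂ (n * q.asIdeal) J' ∧
        ∀ f : ℕ, Odd f → ¬ InRay σ₂ (N * q.asIdeal ^ (k + 1)) (J' ^ f) := by
    intro q hq
    have hqN : ¬ q.asIdeal ∣ N := fun h => hq (hdvd q h)
    have hqk : q.asIdeal ^ (k + 1) ≤ q.asIdeal := Ideal.pow_le_self (Nat.succ_ne_zero k)
    refine ⟨Ideal.mul_mono hle hqk, mul_ne_bot' hNb (pow_ne_bot' q.ne_bot _),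
      mul_ne_bot' hn q.ne_bot, ne_top_of_le Ideal.mul_le_left hn1, ?_, ?_⟩
    · intro v hv
      rcases v.prime.dvd_or_dvd hv with h | h
      · exact dvd_mul_of_dvd_left (hdvd v h) _
      · exact dvd_mul_of_dvd_right (v.prime.dvd_of_dvd_pow h) _
    · obtain ⟨J', h1, h2, h3⟩ := ray_elt_mul hle hNb (pow_ne_bot' q.ne_bot (k + 1))
        (isCoprime_level hqN (k + 1)) hJ hray hodd
      exact ⟨J', h1, h2.mono (Ideal.mul_mono_right hqk), h3⟩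
  refine ⟨?_, ?_, ?_, ?_⟩
  · intro q hq hR
    obtain ⟨a1, a2, a3, a4, a5, J', a6, a7, a8⟩ := aux q hq
    exact stark_of_ratioP h2 hσ a1 a2 a3 a4 a5 a6 a7 a8 hR
  · intro q hq hR
    obtain ⟨a1, a2, a3, a4, a5, J', a6, a7, a8⟩ := aux q hq
    exact starkTate_of_sqrtP h2 hσ a1 a2 a3 a4 a5 a6 a7 a8 hR
  · intro hR
    exact stark_of_ratioP h2 hσ hle hNb hn hn1 hdvd hJ hray hodd hR
  · intro hR
    exact starkTate_of_sqrtP h2 hσ hle hNb hn hn1 hdvd hJ hray hodd hR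

/-- **Local theorem**, for the square roots of the ratios. -/
theorem local_weak (h2 : Module.finrank ℚ K = 2) (hσ : σ₂ ≠ sg1 K) {n : Ideal (𝓞 K)}
    (hn : n ≠ ⊥) (hn1 : n ≠ ⊤)
    (htwo : ∀ v : HeightOneSpectrum (𝓞 K), (2 : 𝓞 K) ∈ v.asIdeal → v.asIdeal ∣ n) :
    ∃ j₀ : ℕ, ∀ j ≥ j₀, ∀ k : ℕ,
      GenP σ₂ (SqrtP σ₂) (n * Ideal.span {(2 : 𝓞 K)} ^ j) k → StarkTate σ₂ n := by
  obtain ⟨a, ha⟩ := local_sharp (σ₂ := σ₂) h2 hσ hn hn1 htwo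
  set N : Ideal (𝓞 K) := n * Ideal.span {(2 : 𝓞 K)} ^ a with hN
  have hNb : N ≠ ⊥ := mul_ne_bot' hn (pow_ne_bot' span_two_ne_bot _)
  have hN1 : N ≠ ⊤ := ne_top_of_le Ideal.mul_le_left hn1
  have htwoN : ∀ v : HeightOneSpectrum (𝓞 K), (2 : 𝓞 K) ∈ v.asIdeal → v.asIdeal ∣ N :=
    fun v hv => dvd_mul_of_dvd_left (htwo v hv) _
  obtain ⟨b, hb⟩ := exists_gap (σ₂ := σ₂) h2 hσ hNb hN1 htwoN
  obtain ⟨b', hb'⟩ := exists_gap (σ₂ := σ₂) h2 hσ hn hn1 htwo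
  refine ⟨a + b + b', fun j hj k hG => ?_⟩
  obtain ⟨i, rfl⟩ := Nat.exists_eq_add_of_le hj
  rcases k with _ | k
  · obtain ⟨⟨q₁, -, -, -, -, h₁, -⟩, -⟩ := hG
    rw [pow_zero, mul_one] at h₁
    exact (hb' _ (by omega) 0).2.2.2 h₁
  · have hN' : n * Ideal.span {(2 : 𝓞 K)} ^ (a + b + b' + i) =
        N * Ideal.span {(2 : 𝓞 K)} ^ (b + b' + i) := by
      rw [hN, mul_assoc, ← pow_add]
      congr 2
      omega
    rw [hN'] at hG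
    apply ha a le_rfl
    refine hG.down Ideal.mul_le_left (fun v hv => dvd_level htwoN hv) (fun q hq hs => ?_)
    rw [pow_one]
    exact (hb (b + b' + i) (by omega) k).2.1 q
      (fun h => hq (dvd_mul_of_dvd_left h _)) hs

/-- **Local theorem**, for the ratios. -/
theorem local_weak_stark (h2 : Module.finrank ℚ K = 2) (hσ : σ₂ ≠ sg1 K) {n : Ideal (𝓞 K)}
    (hn : n ≠ ⊥) (hn1 : n ≠ ⊤)
    (htwo : ∀ v : HeightOneSpectrum (𝓞 K), (2 : 𝓞 K) ∈ v.asIdeal → v.asIdeal ∣ n) :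
    ∃ j₀ : ℕ, ∀ j ≥ j₀, ∀ k : ℕ,
      GenP σ₂ (RatioP σ₂) (n * Ideal.span {(2 : 𝓞 K)} ^ j) k → Stark σ₂ n := by
  obtain ⟨a, ha⟩ := local_stark (σ₂ := σ₂) h2 hσ hn hn1 htwo
  set N : Ideal (𝓞 K) := n * Ideal.span {(2 : 𝓞 K)} ^ a with hN
  have hNb : N ≠ ⊥ := mul_ne_bot' hn (pow_ne_bot' span_two_ne_bot _)
  have hN1 : N ≠ ⊤ := ne_top_of_le Ideal.mul_le_left hn1
  have htwoN : ∀ v : HeightOneSpectrum (𝓞 K), (2 : 𝓞 K) ∈ v.asIdeal → v.asIdeal ∣ N :=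
    fun v hv => dvd_mul_of_dvd_left (htwo v hv) _
  obtain ⟨b, hb⟩ := exists_gap (σ₂ := σ₂) h2 hσ hNb hN1 htwoN
  obtain ⟨b', hb'⟩ := exists_gap (σ₂ := σ₂) h2 hσ hn hn1 htwo
  refine ⟨a + b + b', fun j hj k hG => ?_⟩
  obtain ⟨i, rfl⟩ := Nat.exists_eq_add_of_le hj
  rcases k with _ | k
  · obtain ⟨⟨q₁, -, -, -, -, h₁, -⟩, -⟩ := hG
    rw [pow_zero, mul_one] at h₁
    exact (hb' _ (by omega) 0).2.2.1 h₁
  · have hN' : n * Ideal.span {(2 : 𝓞 K)} ^ (a + b + b' + i) =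
        N * Ideal.span {(2 : 𝓞 K)} ^ (b + b' + i) := by
      rw [hN, mul_assoc, ← pow_add]
      congr 2
      omega
    rw [hN'] at hG
    apply ha a le_rfl
    refine hG.down Ideal.mul_le_left (fun v hv => dvd_level htwoN hv) (fun q hq hs => ?_)
    rw [pow_one]
    exact (hb (b + b' + i) (by omega) k).1 q
      (fun h => hq (dvd_mul_of_dvd_left h _)) hs

omit [Algebra K ℝ] in
lemma numPrimes_level {m : Ideal (𝓞 K)}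
    (htwo : ∀ v : HeightOneSpectrum (𝓞 K), (2 : 𝓞 K) ∈ v.asIdeal → v.asIdeal ∣ m) (j : ℕ) :
    numPrimes (m * Ideal.span {(2 : 𝓞 K)} ^ j) = numPrimes m := by
  unfold numPrimes
  congr 1
  ext v
  exact ⟨fun hv => dvd_level htwo hv, fun h => dvd_mul_of_dvd_left h _⟩

/-- **Main theorem**, for the square roots of the ratios. -/
theorem main_weak (h2 : Module.finrank ℚ K = 2) (hσ : σ₂ ≠ sg1 K) {n : Ideal (𝓞 K)}
    (hn1 : n ≠ ⊤)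
    (htwo : ∀ v : HeightOneSpectrum (𝓞 K), (2 : 𝓞 K) ∈ v.asIdeal → v.asIdeal ∣ n) (k : ℕ)
    (hst : ∀ m : Ideal (𝓞 K), m ≠ ⊥ → n ∣ m → k ≤ numPrimes m →
      (∀ v : HeightOneSpectrum (𝓞 K), v.asIdeal ∣ m → v.asIdeal ^ k ∣ m) →
      GenP σ₂ (SqrtP σ₂) m k) :
    ∀ m : Ideal (𝓞 K), m ≠ ⊥ → n ∣ m → StarkTate σ₂ m := by
  obtain ⟨p, hp2⟩ := exists_prime_two K
  apply main h2 hσ hn1 (Or.inl ⟨p, hp2, htwo p hp2⟩) k
  intro m hm hnm hk hmv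
  have hm1 : m ≠ ⊤ := by
    rintro rfl
    apply hn1
    exact top_le_iff.1 (Ideal.dvd_iff_le.1 hnm)
  have htwom : ∀ v : HeightOneSpectrum (𝓞 K), (2 : 𝓞 K) ∈ v.asIdeal → v.asIdeal ∣ m :=
    fun v hv => (htwo v hv).trans hnm
  obtain ⟨j, hj⟩ := local_weak h2 hσ hm hm1 htwom
  apply hj j le_rfl k
  apply hst _ (mul_ne_bot' hm (pow_ne_bot' span_two_ne_bot _)) (hnm.trans (dvd_mul_right _ _))
  · rw [numPrimes_level htwom]; exact hk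
  · exact fun v hv => dvd_mul_of_dvd_left (hmv v (dvd_level htwom hv)) _

/-- The abstract form of the induction. -/
theorem main_abs {P : Ideal (𝓞 K) → Prop}
    (hsame : ∀ {N n : Ideal (𝓞 K)}, N ≤ n → N ≠ ⊥ → n ≠ ⊥ → n ≠ ⊤ →
      (∀ v : HeightOneSpectrum (𝓞 K), v.asIdeal ∣ N → v.asIdeal ∣ n) → P N → P n)
    {n : Ideal (𝓞 K)} (hn1 : n ≠ ⊤)
    (htwo : ∀ v : HeightOneSpectrum (𝓞 K), (2 : 𝓞 K) ∈ v.asIdeal → v.asIdeal ∣ n)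
    (hloc : ∀ m : Ideal (𝓞 K), m ≠ ⊥ → m ≠ ⊤ → n ∣ m →
      ∃ j : ℕ, GenP σ₂ P (m * Ideal.span {(2 : 𝓞 K)} ^ j) 1 → P m)
    (k : ℕ)
    (hst : ∀ m : Ideal (𝓞 K), m ≠ ⊥ → n ∣ m → k ≤ numPrimes m →
      (∀ v : HeightOneSpectrum (𝓞 K), v.asIdeal ∣ m → v.asIdeal ^ k ∣ m) → P m) :
    ∀ m : Ideal (𝓞 K), m ≠ ⊥ → n ∣ m → P m := by
  have hall : ∀ d : ℕ, ∀ m : Ideal (𝓞 K), m ≠ ⊥ → n ∣ m → k ≤ numPrimes m + d → P m := by
    intro d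
    induction d with
    | zero =>
      intro m hm hnm hk
      rw [add_zero] at hk
      have hm1 : m ≠ ⊤ := by
        rintro rfl
        apply hn1
        exact top_le_iff.1 (Ideal.dvd_iff_le.1 hnm)
      rcases Nat.eq_zero_or_pos k with rfl | hkpos
      · exact hst m hm hnm hk (fun v _ => by rw [pow_zero]; exact one_dvd _)
      · have hm' : m ^ k ≠ ⊥ := by
          rw [← Ideal.zero_eq_bot] at hm ⊢
          exact pow_ne_zero _ hm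
        have hle : m ^ k ≤ m := Ideal.pow_le_self hkpos.ne'
        have hdvd : ∀ v : HeightOneSpectrum (𝓞 K), v.asIdeal ∣ m ^ k → v.asIdeal ∣ m :=
          fun v hv => v.prime.dvd_of_dvd_pow hv
        apply hsame hle hm' hm hm1 hdvd
        apply hst _ hm' (hnm.trans (dvd_pow_self _ hkpos.ne'))
        · refine hk.trans (le_of_eq ?_)
          unfold numPrimes
          congr 1
          ext v
          exact ⟨fun hv => hv.trans (dvd_pow_self _ hkpos.ne'), hdvd v⟩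
        · intro v hv
          exact pow_dvd_pow_of_dvd (hdvd v hv) k
    | succ d ih =>
      intro m hm hnm hk
      have hm1 : m ≠ ⊤ := by
        rintro rfl
        apply hn1
        exact top_le_iff.1 (Ideal.dvd_iff_le.1 hnm)
      have htwom : ∀ v : HeightOneSpectrum (𝓞 K), (2 : 𝓞 K) ∈ v.asIdeal → v.asIdeal ∣ m :=
        fun v hv => (htwo v hv).trans hnm
      obtain ⟨j, hj⟩ := hloc m hm hm1 hnm
      have hNb : m * Ideal.span {(2 : 𝓞 K)} ^ j ≠ ⊥ := mul_ne_bot' hm (pow_ne_bot' span_two_ne_bot _)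
      apply hj
      apply genP_of_all hNb
      intro q hq
      rw [pow_one]
      apply ih _ (mul_ne_bot' hNb q.ne_bot)
        (dvd_mul_of_dvd_left (dvd_mul_of_dvd_left hnm _) _)
      rw [numPrimes_mul hNb hq, numPrimes_level htwom]
      omega
  intro m hm hnm
  exact hall k m hm hnm (by omega)

/-- **Main theorem**, for the ratios. -/
theorem main_weak_stark (h2 : Module.finrank ℚ K = 2) (hσ : σ₂ ≠ sg1 K) {n : Ideal (𝓞 K)}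
    (hn1 : n ≠ ⊤)
    (htwo : ∀ v : HeightOneSpectrum (𝓞 K), (2 : 𝓞 K) ∈ v.asIdeal → v.asIdeal ∣ n) (k : ℕ)
    (hst : ∀ m : Ideal (𝓞 K), m ≠ ⊥ → n ∣ m → k ≤ numPrimes m →
      (∀ v : HeightOneSpectrum (𝓞 K), v.asIdeal ∣ m → v.asIdeal ^ k ∣ m) →
      GenP σ₂ (RatioP σ₂) m k) :
    ∀ m : Ideal (𝓞 K), m ≠ ⊥ → n ∣ m → Stark σ₂ m := by
  apply main_abs (σ₂ := σ₂) (fun h1 h3 h4 h5 h6 h7 => stark_same h2 hσ h1 h3 h4 h5 h6 h7) hn1 htwo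
    _ k
  · intro m hm hnm hk hmv
    have hm1 : m ≠ ⊤ := by
      rintro rfl
      apply hn1
      exact top_le_iff.1 (Ideal.dvd_iff_le.1 hnm)
    have htwom : ∀ v : HeightOneSpectrum (𝓞 K), (2 : 𝓞 K) ∈ v.asIdeal → v.asIdeal ∣ m :=
      fun v hv => (htwo v hv).trans hnm
    obtain ⟨j, hj⟩ := local_weak_stark h2 hσ hm hm1 htwom
    apply hj j le_rfl k
    apply hst _ (mul_ne_bot' hm (pow_ne_bot' span_two_ne_bot _)) (hnm.trans (dvd_mul_right _ _))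
    · rw [numPrimes_level htwom]; exact hk
    · exact fun v hv => dvd_mul_of_dvd_left (hmv v (dvd_level htwom hv)) _
  · intro m hm hm1 hnm
    have htwom : ∀ v : HeightOneSpectrum (𝓞 K), (2 : 𝓞 K) ∈ v.asIdeal → v.asIdeal ∣ m :=
      fun v hv => (htwo v hv).trans hnm
    obtain ⟨j, hj⟩ := local_stark h2 hσ hm hm1 htwom
    exact ⟨j, hj j le_rfl⟩

end Pool.Agent.ST
end

section

/-!
# Uniformity of the exponent of `2` in the local theorems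
-/

open NumberField IsDedekindDomain nonZeroDivisors IntermediateField

namespace Pool.Agent.ST

section lev

variable {K : Type*} [Field K] [NumberField K]

/-- The properties of the exponent `a` used. -/
def Lev (σ₂ : K →+* ℝ) (n : Ideal (𝓞 K)) (a : ℕ) : Prop :=
  ∀ j ≥ a, (∀ u : (𝓞 K)ˣ, EU σ₂ (n * Ideal.span {(2 : 𝓞 K)} ^ j) u → IsSquare u) ∧
    ∃ J : (FI K)ˣ, J ∈ primeTo (K := K) (n * Ideal.span {(2 : 𝓞 K)} ^ j) ∧ InRay σ₂ n J ∧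
      ∀ f : ℕ, Odd f → ¬ InRay σ₂ (n * Ideal.span {(2 : 𝓞 K)} ^ j) (J ^ f)

variable {σ₂ : K →+* ℝ}

lemma isCoprime_two {n 𝔞 : Ideal (𝓞 K)}
    (htwo : ∀ v : HeightOneSpectrum (𝓞 K), (2 : 𝓞 K) ∈ v.asIdeal → v.asIdeal ∣ n)
    (hcop : IsCoprime n 𝔞) (j : ℕ) : IsCoprime (n * Ideal.span {(2 : 𝓞 K)} ^ j) 𝔞 := by
  apply hcop.mul_left
  apply IsCoprime.pow_left
  rw [Ideal.isCoprime_iff_sup_eq]
  by_contra hne
  obtain ⟨M, hM, hle⟩ := Ideal.exists_le_maximal _ hne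
  have h2 : (2 : 𝓞 K) ∈ M := hle (le_sup_left (a := Ideal.span {(2 : 𝓞 K)})
    (Ideal.mem_span_singleton_self _))
  have hM0 : M ≠ ⊥ := by
    rintro rfl
    rw [Ideal.mem_bot] at h2
    exact two_ne_zero h2
  have h3 : M ∣ n := htwo ⟨M, hM.isPrime, hM0⟩ h2
  rw [Ideal.isCoprime_iff_sup_eq] at hcop
  apply hM.ne_top
  rw [eq_top_iff, ← hcop]
  exact sup_le (Ideal.dvd_iff_le.1 h3) (le_sup_right.trans hle)

lemma Lev.mul {n 𝔞 : Ideal (𝓞 K)} {a : ℕ} (hn : n ≠ ⊥)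
    (htwo : ∀ v : HeightOneSpectrum (𝓞 K), (2 : 𝓞 K) ∈ v.asIdeal → v.asIdeal ∣ n)
    (h : Lev σ₂ n a) (h𝔞 : 𝔞 ≠ ⊥) (hcop : IsCoprime n 𝔞) : Lev σ₂ (n * 𝔞) a := by
  intro j hj
  obtain ⟨h1, J, hJ, hray, hodd⟩ := h j hj
  have e : n * 𝔞 * Ideal.span {(2 : 𝓞 K)} ^ j = n * Ideal.span {(2 : 𝓞 K)} ^ j * 𝔞 :=
    mul_right_comm _ _ _
  rw [e]
  refine ⟨fun u hu => h1 u ⟨Ideal.mul_le_left hu.1, hu.2⟩, ?_⟩
  exact ray_elt_mul Ideal.mul_le_left (mul_ne_bot' hn (pow_ne_bot' span_two_ne_bot _)) h𝔞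
    (isCoprime_two htwo hcop j) hJ hray hodd

end lev

variable {K : Type*} [Field K] [NumberField K] [Algebra K ℝ] {σ₂ : K →+* ℝ}

lemma exists_lev (h2 : Module.finrank ℚ K = 2) {n : Ideal (𝓞 K)} (hn : n ≠ ⊥)
    (htwo : ∀ v : HeightOneSpectrum (𝓞 K), (2 : 𝓞 K) ∈ v.asIdeal → v.asIdeal ∣ n) :
    ∃ a : ℕ, Lev σ₂ n a := exists_level (σ₂ := σ₂) h2 hn htwo

/-- `local_sharp` with explicit exponents. -/
theorem local_sharp_of_lev (h2 : Module.finrank ℚ K = 2) (hσ : σ₂ ≠ sg1 K) {n : Ideal (𝓞 K)}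
    (hn : n ≠ ⊥) (hn1 : n ≠ ⊤)
    (htwo : ∀ v : HeightOneSpectrum (𝓞 K), (2 : 𝓞 K) ∈ v.asIdeal → v.asIdeal ∣ n) {a b : ℕ}
    (ha : Lev σ₂ n a) (hb : Lev σ₂ (n * Ideal.span {(2 : 𝓞 K)} ^ a) b) {j : ℕ} (hj : a + b ≤ j)
    (hG : GenP σ₂ (StarkTate σ₂) (n * Ideal.span {(2 : 𝓞 K)} ^ j) 1) : StarkTate σ₂ n := by
  set N : Ideal (𝓞 K) := n * Ideal.span {(2 : 𝓞 K)} ^ a with hN
  obtain ⟨hsq, J, hJ, hray, hodd⟩ := ha a le_rfl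
  have hNb : N ≠ ⊥ := mul_ne_bot' hn (pow_ne_bot' span_two_ne_bot _)
  have htwoN : ∀ v : HeightOneSpectrum (𝓞 K), (2 : 𝓞 K) ∈ v.asIdeal → v.asIdeal ∣ N :=
    fun v hv => dvd_mul_of_dvd_left (htwo v hv) _
  obtain ⟨c, rfl⟩ := Nat.exists_eq_add_of_le hj
  obtain ⟨-, J', hJ', hray', hodd'⟩ := hb (b + c) (by omega)
  have hN' : n * Ideal.span {(2 : 𝓞 K)} ^ (a + b + c) = N * Ideal.span {(2 : 𝓞 K)} ^ (b + c) := by
    rw [hN, mul_assoc, ← pow_add, add_assoc]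
  rw [hN'] at hG
  have hN'b : N * Ideal.span {(2 : 𝓞 K)} ^ (b + c) ≠ ⊥ :=
    mul_ne_bot' hNb (pow_ne_bot' span_two_ne_bot _)
  obtain ⟨⟨q₀, q₁, hq, hq₀, hq₁, hs₀, hs₁⟩, hgen⟩ := hG
  rw [pow_one] at hs₀ hs₁
  have hset : {A : RayClassGroup σ₂ (N * Ideal.span {(2 : 𝓞 K)} ^ (b + c)) |
      ∃ (q : HeightOneSpectrum (𝓞 K)) (h : ¬ q.asIdeal ∣ N * Ideal.span {(2 : 𝓞 K)} ^ (b + c)),
        cls σ₂ _ (prJ _ q h) = A ∧
        StarkTate σ₂ (N * Ideal.span {(2 : 𝓞 K)} ^ (b + c) * q.asIdeal ^ 1)} =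
      {A | ∃ (q : HeightOneSpectrum (𝓞 K))
        (h : ¬ q.asIdeal ∣ N * Ideal.span {(2 : 𝓞 K)} ^ (b + c)),
        cls σ₂ _ (prJ _ q h) = A ∧
        StarkTate σ₂ (N * Ideal.span {(2 : 𝓞 K)} ^ (b + c) * q.asIdeal)} := by
    simp only [pow_one]
  rw [hset] at hgen
  exact step_even2 h2 hσ Ideal.mul_le_left Ideal.mul_le_left hN'b hNb hn hn1
    (fun v hv => dvd_level htwoN hv) (fun v hv => dvd_level htwo hv)
    (fun v hv => dvd_mul_of_dvd_left (htwoN v hv) _) hsq hJ' hray' hodd' hJ hray hodd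
    hq₀ hq₁ hq hs₀ hs₁ hgen

/-- `local_stark` with explicit exponents. -/
theorem local_stark_of_lev (h2 : Module.finrank ℚ K = 2) (hσ : σ₂ ≠ sg1 K) {n : Ideal (𝓞 K)}
    (hn : n ≠ ⊥) (hn1 : n ≠ ⊤)
    (htwo : ∀ v : HeightOneSpectrum (𝓞 K), (2 : 𝓞 K) ∈ v.asIdeal → v.asIdeal ∣ n) {a : ℕ}
    (ha : Lev σ₂ n a) {j : ℕ} (hj : a ≤ j)
    (hG : GenP σ₂ (Stark σ₂) (n * Ideal.span {(2 : 𝓞 K)} ^ j) 1) : Stark σ₂ n := by
  obtain ⟨-, J, hJ, hray, hodd⟩ := ha j hj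
  have hNb : n * Ideal.span {(2 : 𝓞 K)} ^ j ≠ ⊥ := mul_ne_bot' hn (pow_ne_bot' span_two_ne_bot _)
  have hle : n * Ideal.span {(2 : 𝓞 K)} ^ j ≤ n := Ideal.mul_le_left
  have hN1 : n * Ideal.span {(2 : 𝓞 K)} ^ j ≠ ⊤ := ne_top_of_le hle hn1
  exact stark_of_ratioP h2 hσ hle hNb hn hn1 (fun v hv => dvd_level htwo hv) hJ hray hodd
    (ratio_level h2 hσ hNb hN1 hG)

/-- `exists_gap` with explicit exponents. -/
lemma gap_of_lev (h2 : Module.finrank ℚ K = 2) (hσ : σ₂ ≠ sg1 K) {n : Ideal (𝓞 K)}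
    (hn : n ≠ ⊥) (hn1 : n ≠ ⊤)
    (htwo : ∀ v : HeightOneSpectrum (𝓞 K), (2 : 𝓞 K) ∈ v.asIdeal → v.asIdeal ∣ n) {b : ℕ}
    (hb : Lev σ₂ n b) {j : ℕ} (hj : b ≤ j) :
    (∀ k : ℕ, ∀ q : HeightOneSpectrum (𝓞 K), ¬ q.asIdeal ∣ n →
        RatioP σ₂ (n * Ideal.span {(2 : 𝓞 K)} ^ j * q.asIdeal ^ (k + 1)) →
          Stark σ₂ (n * q.asIdeal)) ∧
      (∀ k : ℕ, ∀ q : HeightOneSpectrum (𝓞 K), ¬ q.asIdeal ∣ n →
        SqrtP σ₂ (n * Ideal.span {(2 : 𝓞 K)} ^ j * q.asIdeal ^ (k + 1)) →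
          StarkTate σ₂ (n * q.asIdeal)) ∧
      (RatioP σ₂ (n * Ideal.span {(2 : 𝓞 K)} ^ j) → Stark σ₂ n) ∧
      (SqrtP σ₂ (n * Ideal.span {(2 : 𝓞 K)} ^ j) → StarkTate σ₂ n) := by
  obtain ⟨-, J, hJ, hray, hodd⟩ := hb j hj
  set N : Ideal (𝓞 K) := n * Ideal.span {(2 : 𝓞 K)} ^ j with hN
  have hNb : N ≠ ⊥ := mul_ne_bot' hn (pow_ne_bot' span_two_ne_bot _)
  have hle : N ≤ n := Ideal.mul_le_left
  have hdvd : ∀ v : HeightOneSpectrum (𝓞 K), v.asIdeal ∣ N → v.asIdeal ∣ n :=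
    fun v hv => dvd_level htwo hv
  have aux : ∀ k : ℕ, ∀ q : HeightOneSpectrum (𝓞 K), ¬ q.asIdeal ∣ n →
      N * q.asIdeal ^ (k + 1) ≤ n * q.asIdeal ∧ N * q.asIdeal ^ (k + 1) ≠ ⊥ ∧
      n * q.asIdeal ≠ ⊥ ∧ n * q.asIdeal ≠ ⊤ ∧
      (∀ v : HeightOneSpectrum (𝓞 K), v.asIdeal ∣ N * q.asIdeal ^ (k + 1) →
        v.asIdeal ∣ n * q.asIdeal) ∧
      ∃ J' : (FI K)ˣ, J' ∈ primeTo (K := K) (N * q.asIdeal ^ (k + 1)) ∧
        InRay σ₂ (n * q.asIdeal) J' ∧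
        ∀ f : ℕ, Odd f → ¬ InRay σ₂ (N * q.asIdeal ^ (k + 1)) (J' ^ f) := by
    intro k q hq
    have hqN : ¬ q.asIdeal ∣ N := fun h => hq (hdvd q h)
    have hqk : q.asIdeal ^ (k + 1) ≤ q.asIdeal := Ideal.pow_le_self (Nat.succ_ne_zero k)
    refine ⟨Ideal.mul_mono hle hqk, mul_ne_bot' hNb (pow_ne_bot' q.ne_bot _),
      mul_ne_bot' hn q.ne_bot, ne_top_of_le Ideal.mul_le_left hn1, ?_, ?_⟩
    · intro v hv
      rcases v.prime.dvd_or_dvd hv with h | h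
      · exact dvd_mul_of_dvd_left (hdvd v h) _
      · exact dvd_mul_of_dvd_right (v.prime.dvd_of_dvd_pow h) _
    · obtain ⟨J', h1, h2, h3⟩ := ray_elt_mul hle hNb (pow_ne_bot' q.ne_bot (k + 1))
        (isCoprime_level hqN (k + 1)) hJ hray hodd
      exact ⟨J', h1, h2.mono (Ideal.mul_mono_right hqk), h3⟩
  refine ⟨?_, ?_, ?_, ?_⟩
  · intro k q hq hR
    obtain ⟨a1, a2, a3, a4, a5, J', a6, a7, a8⟩ := aux k q hq
    exact stark_of_ratioP h2 hσ a1 a2 a3 a4 a5 a6 a7 a8 hR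
  · intro k q hq hR
    obtain ⟨a1, a2, a3, a4, a5, J', a6, a7, a8⟩ := aux k q hq
    exact starkTate_of_sqrtP h2 hσ a1 a2 a3 a4 a5 a6 a7 a8 hR
  · intro hR
    exact stark_of_ratioP h2 hσ hle hNb hn hn1 hdvd hJ hray hodd hR
  · intro hR
    exact starkTate_of_sqrtP h2 hσ hle hNb hn hn1 hdvd hJ hray hodd hR

/-- **Uniform local theorems.** -/
theorem local_uniform (h2 : Module.finrank ℚ K = 2) (hσ : σ₂ ≠ sg1 K) {n : Ideal (𝓞 K)}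
    (hn : n ≠ ⊥) (hn1 : n ≠ ⊤)
    (htwo : ∀ v : HeightOneSpectrum (𝓞 K), (2 : 𝓞 K) ∈ v.asIdeal → v.asIdeal ∣ n) :
    ∃ j₀ : ℕ, ∀ j ≥ j₀, ∀ 𝔞 : Ideal (𝓞 K), 𝔞 ≠ ⊥ → IsCoprime n 𝔞 → ∀ k : ℕ,
      (GenP σ₂ (SqrtP σ₂) (n * 𝔞 * Ideal.span {(2 : 𝓞 K)} ^ j) k → StarkTate σ₂ (n * 𝔞)) ∧
      (GenP σ₂ (RatioP σ₂) (n * 𝔞 * Ideal.span {(2 : 𝓞 K)} ^ j) k → Stark σ₂ (n * 𝔞)) ∧
      (SqrtP σ₂ (n * 𝔞 * Ideal.span {(2 : 𝓞 K)} ^ j) → StarkTate σ₂ (n * 𝔞)) ∧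
      (RatioP σ₂ (n * 𝔞 * Ideal.span {(2 : 𝓞 K)} ^ j) → Stark σ₂ (n * 𝔞)) := by
  obtain ⟨a, ha⟩ := exists_lev (σ₂ := σ₂) h2 hn htwo
  have hNb : n * Ideal.span {(2 : 𝓞 K)} ^ a ≠ ⊥ := mul_ne_bot' hn (pow_ne_bot' span_two_ne_bot _)
  have htwoN : ∀ v : HeightOneSpectrum (𝓞 K), (2 : 𝓞 K) ∈ v.asIdeal →
      v.asIdeal ∣ n * Ideal.span {(2 : 𝓞 K)} ^ a :=
    fun v hv => dvd_mul_of_dvd_left (htwo v hv) _
  obtain ⟨b, hb⟩ := exists_lev (σ₂ := σ₂) h2 hNb htwoN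
  have hNb' : n * Ideal.span {(2 : 𝓞 K)} ^ (a + b) ≠ ⊥ :=
    mul_ne_bot' hn (pow_ne_bot' span_two_ne_bot _)
  have htwoN' : ∀ v : HeightOneSpectrum (𝓞 K), (2 : 𝓞 K) ∈ v.asIdeal →
      v.asIdeal ∣ n * Ideal.span {(2 : 𝓞 K)} ^ (a + b) :=
    fun v hv => dvd_mul_of_dvd_left (htwo v hv) _
  obtain ⟨c, hc⟩ := exists_lev (σ₂ := σ₂) h2 hNb' htwoN'
  refine ⟨a + b + c, fun j hj 𝔞 h𝔞 hcop k => ?_⟩
  have hm : n * 𝔞 ≠ ⊥ := mul_ne_bot' hn h𝔞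
  have hm1 : n * 𝔞 ≠ ⊤ := ne_top_of_le Ideal.mul_le_left hn1
  have htwom : ∀ v : HeightOneSpectrum (𝓞 K), (2 : 𝓞 K) ∈ v.asIdeal → v.asIdeal ∣ n * 𝔞 :=
    fun v hv => dvd_mul_of_dvd_left (htwo v hv) _
  have e : ∀ i : ℕ, n * 𝔞 * Ideal.span {(2 : 𝓞 K)} ^ i = n * Ideal.span {(2 : 𝓞 K)} ^ i * 𝔞 :=
    fun i => mul_right_comm _ _ _
  have ha' : Lev σ₂ (n * 𝔞) a := ha.mul hn htwo h𝔞 hcop
  have hb' : Lev σ₂ (n * 𝔞 * Ideal.span {(2 : 𝓞 K)} ^ a) b := by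
    rw [e]
    exact hb.mul hNb htwoN h𝔞 (isCoprime_two htwo hcop a)
  have hc' : Lev σ₂ (n * 𝔞 * Ideal.span {(2 : 𝓞 K)} ^ (a + b)) c := by
    rw [e]
    exact hc.mul hNb' htwoN' h𝔞 (isCoprime_two htwo hcop (a + b))
  obtain ⟨g1, g2, g3, g4⟩ := gap_of_lev h2 hσ hm hm1 htwom ha' (j := j) (by omega)
  set M : Ideal (𝓞 K) := n * 𝔞 * Ideal.span {(2 : 𝓞 K)} ^ (a + b) with hM
  have hMb : M ≠ ⊥ := mul_ne_bot' hm (pow_ne_bot' span_two_ne_bot _)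
  have hM1 : M ≠ ⊤ := ne_top_of_le Ideal.mul_le_left hm1
  have htwoM : ∀ v : HeightOneSpectrum (𝓞 K), (2 : 𝓞 K) ∈ v.asIdeal → v.asIdeal ∣ M :=
    fun v hv => dvd_mul_of_dvd_left (htwom v hv) _
  obtain ⟨i, rfl⟩ := Nat.exists_eq_add_of_le hj
  have hMi : n * 𝔞 * Ideal.span {(2 : 𝓞 K)} ^ (a + b + c + i) =
      M * Ideal.span {(2 : 𝓞 K)} ^ (c + i) := by
    rw [hM, mul_assoc (n * 𝔞), ← pow_add, add_assoc (a + b)]
  obtain ⟨f1, f2, -, -⟩ := gap_of_lev h2 hσ hMb hM1 htwoM hc' (j := c + i) (by omega)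
  refine ⟨?_, ?_, g4, g3⟩
  · intro hG
    rcases k with _ | k
    · obtain ⟨⟨q₁, -, -, -, -, h₁, -⟩, -⟩ := hG
      rw [pow_zero, mul_one] at h₁
      exact g4 h₁
    · apply local_sharp_of_lev h2 hσ hm hm1 htwom ha' hb' (j := a + b) le_rfl
      rw [hMi] at hG
      refine hG.down Ideal.mul_le_left (fun v hv => dvd_level htwoM hv) (fun q hq hs => ?_)
      rw [pow_one]
      exact f2 k q (fun h => hq (dvd_mul_of_dvd_left h _)) hs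
  · intro hG
    rcases k with _ | k
    · obtain ⟨⟨q₁, -, -, -, -, h₁, -⟩, -⟩ := hG
      rw [pow_zero, mul_one] at h₁
      exact g3 h₁
    · apply local_stark_of_lev h2 hσ hm hm1 htwom ha' (j := a + b) (by omega)
      rw [hMi] at hG
      refine hG.down Ideal.mul_le_left (fun v hv => dvd_level htwoM hv) (fun q hq hs => ?_)
      rw [pow_one]
      exact f1 k q (fun h => hq (dvd_mul_of_dvd_left h _)) hs

end Pool.Agent.ST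
end
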